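import Pool.Agent.Work.MP_efd9e3_ag.Fl.LinF

/-! MODULE LinPar (MP_efd9e3_ag/Co), helper69.  Linear forms are irreducible; parametrisation of their kernels. -/

set_option autoImplicit false

open MvPolynomial

namespace Geproci

variable {K : Type*} [Field K] {N : ℕ}

theorem linf_ne_zero (l : Fin N → K) (hl : l ≠ 0) : linf l ≠ 0 := by
  classical
  intro h0
  obtain ⟨j, hj⟩ := Function.ne_iff.1 hl
  apply hj
  have h1 := eval_linf l (Pi.single j 1)
  rw [h0, map_zero, Finset.sum_eq_single j] at h1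
  · rw [Pi.single_eq_same, mul_one] at h1
    rw [Pi.zero_apply]
    exact h1.symm
  · intro b _ hb
    rw [Pi.single_eq_of_ne hb, mul_zero]
  · simp

theorem linf_irr (l : Fin N → K) (hl : l ≠ 0) : Irreducible (linf l) := by
  have h0 := linf_ne_zero l hl
  apply irreducible_of_totalDegree_eq_one ((linf_hom l).totalDegree h0)
  intro x hx
  rw [isUnit_iff_ne_zero]
  rintro rfl
  apply h0
  ext i
  rw [zero_dvd_iff.1 (hx i), coeff_zero]

theorem lin_par [IsAlgClosed K] (l : Fin (N+1) → K) (hl : l ≠ 0) :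
    ∃ ψ : (Fin N → K) →ₗ[K] (Fin (N+1) → K), Function.Injective ψ ∧
      (∀ x, ∑ k, l k * ψ x k = 0) ∧ ∀ q : MvPolynomial (Fin (N+1)) K, compL ψ q = 0 → linf l ∣ q := by
  classical
  let L : (Fin (N+1) → K) →ₗ[K] K := ∑ k, l k • LinearMap.proj k
  have hL : ∀ v, L v = ∑ k, l k * v k := by
    intro v
    simp [L, LinearMap.sum_apply]
  have hL0 : L ≠ 0 := by
    intro h
    apply linf_ne_zero l hl
    have hinf : Infinite K := IsAlgClosed.instInfinite
    apply MvPolynomial.funext
    intro x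
    rw [eval_linf, ← hL, h, map_zero, LinearMap.zero_apply]
  have hfin : Module.finrank K (Fin N → K) = Module.finrank K (LinearMap.ker L) := by
    have h1 := LinearMap.finrank_range_add_finrank_ker L
    have h2 : Module.finrank K (LinearMap.range L) = 1 := by
      rw [LinearMap.range_eq_top.2 (LinearMap.surjective hL0), finrank_top, Module.finrank_self]
    rw [h2] at h1
    simp only [Module.finrank_fintype_fun_eq_card, Fintype.card_fin] at h1 ⊢
    omega
  let e : (Fin N → K) ≃ₗ[K] LinearMap.ker L := LinearEquiv.ofFinrankEq _ _ hfin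
  refine ⟨(LinearMap.ker L).subtype ∘ₗ e.toLinearMap, ?_, ?_, ?_⟩
  · exact (Submodule.injective_subtype _).comp e.injective
  · intro x
    rw [← hL]
    exact LinearMap.mem_ker.1 (e x).2
  · intro q hq
    refine irr_dvd_of_zeros (linf l) q (linf_irr l hl) fun x hx => ?_
    have hxW : x ∈ LinearMap.ker L := by
      rw [LinearMap.mem_ker, hL, ← eval_linf, hx]
    have h1 := eval_compL ((LinearMap.ker L).subtype ∘ₗ e.toLinearMap) q (e.symm ⟨x, hxW⟩)
    rw [hq, map_zero] at h1
    rw [h1]
    congr 2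
    simp

/-- the linear form `l ∘ φ` -/
theorem compL_linf {M : ℕ} (φ : (Fin N → K) →ₗ[K] (Fin M → K)) (l : Fin M → K) :
    compL φ (linf l) = linf fun k => ∑ i, l i * φ (Pi.single k 1) i := by
  unfold compL linf
  rw [map_sum]
  simp only [map_mul, aeval_X, algHom_C, algebraMap_eq, map_sum, Finset.mul_sum, Finset.sum_mul]
  rw [Finset.sum_comm]
  refine Finset.sum_congr rfl fun k _ => Finset.sum_congr rfl fun i _ => ?_
  ring

theorem compL_hom {M : ℕ} (φ : (Fin N → K) →ₗ[K] (Fin M → K)) (c : MvPolynomial (Fin M) K) (r : ℕ)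
    (hc : c.IsHomogeneous r) : (compL φ c).IsHomogeneous r := by
  have h1 := hc.aeval (fun k => ∑ j, C (φ (Pi.single j 1) k) * X j)
    (n := 1) (fun k => IsHomogeneous.sum _ _ _ fun j _ => isHomogeneous_C_mul_X _ _)
  rwa [one_mul] at h1

theorem compL_comp {M R : ℕ} (φ : (Fin N → K) →ₗ[K] (Fin M → K)) (ψ : (Fin R → K) →ₗ[K] (Fin N → K))
    [Infinite K] (c : MvPolynomial (Fin M) K) : compL ψ (compL φ c) = compL (φ ∘ₗ ψ) c := by
  apply MvPolynomial.funext
  intro x
  rw [eval_compL, eval_compL, eval_compL]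
  rfl

end Geproci
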