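import Pool.Agent.Work.MP_efd9e3_ag.Co.Line

/-! MODULE Flow (MP_efd9e3_ag/Co), helper69.  If `Q D_y c = c D_y Q`, then `c (p + t y) Q (p) = c (p) Q (p + t y)`. -/

set_option autoImplicit false

open MvPolynomial

namespace Geproci

variable {K : Type*} [Field K] {M : ℕ}

private theorem flow_poly [CharZero K] (A B : Polynomial K)
    (h : B * Polynomial.derivative A = A * Polynomial.derivative B) (hB : B.eval 0 ≠ 0) :
    A * Polynomial.C (B.eval 0) = Polynomial.C (A.eval 0) * B := by
  set D := A * Polynomial.C (B.eval 0) - Polynomial.C (A.eval 0) * B with hD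
  suffices hD0 : D = 0 by
    rw [hD, sub_eq_zero] at hD0
    exact hD0
  have h1 : B * Polynomial.derivative D = D * Polynomial.derivative B := by
    rw [hD]
    simp only [Polynomial.derivative_sub, Polynomial.derivative_mul, Polynomial.derivative_C,
      mul_zero, add_zero, zero_mul, zero_add]
    linear_combination Polynomial.C (B.eval 0) * h
  by_contra hne
  obtain ⟨k, g, hg, hg0⟩ : ∃ (k : ℕ) (g : Polynomial K), D = Polynomial.X ^ k * g ∧ g.coeff 0 ≠ 0 := by
    obtain ⟨g, hg, hgn⟩ := Polynomial.exists_eq_pow_rootMultiplicity_mul_and_not_dvd D hne 0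
    rw [map_zero, sub_zero] at hg hgn
    refine ⟨_, g, hg, fun h0 => hgn (Polynomial.X_dvd_iff.2 h0)⟩
  have hk : k ≠ 0 := by
    rintro rfl
    apply hg0
    rw [pow_zero, one_mul] at hg
    rw [← hg, Polynomial.coeff_zero_eq_eval_zero, hD]
    simp only [Polynomial.eval_sub, Polynomial.eval_mul, Polynomial.eval_C]
    ring
  obtain ⟨k, rfl⟩ := Nat.exists_eq_succ_of_ne_zero hk
  have h2 : Polynomial.derivative D = Polynomial.X ^ k * (Polynomial.C ((k : K) + 1) * g +
      Polynomial.X * Polynomial.derivative g) := by
    rw [hg, Polynomial.derivative_mul, Polynomial.derivative_X_pow]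
    simp only [Nat.succ_eq_add_one, Nat.add_sub_cancel, Nat.cast_add, Nat.cast_one, map_add, map_one,
      map_natCast, pow_succ]
    ring
  rw [h2, hg] at h1
  have h3 : Polynomial.X ^ k * (B * (Polynomial.C ((k : K) + 1) * g +
      Polynomial.X * Polynomial.derivative g)) = Polynomial.X ^ k * (Polynomial.X * g *
      Polynomial.derivative B) := by
    rw [Nat.succ_eq_add_one, pow_succ] at h1
    linear_combination h1
  have h4 := mul_left_cancel₀ (pow_ne_zero k Polynomial.X_ne_zero) h3
  have h5 := congrArg (Polynomial.eval 0) h4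
  simp only [Polynomial.eval_mul, Polynomial.eval_add, Polynomial.eval_C, Polynomial.eval_X, zero_mul,
    add_zero, mul_eq_zero] at h5
  rcases h5 with h5 | h5 | h5
  · exact hB h5
  · exact Nat.cast_add_one_ne_zero k h5
  · rw [Polynomial.coeff_zero_eq_eval_zero] at hg0
    exact hg0 h5

theorem flow [CharZero K] (y : Fin M → K) (c Q : MvPolynomial (Fin M) K) (hQ : Q ≠ 0)
    (h : Q * dirP y c = c * dirP y Q) (t : K) (p : Fin M → K) :
    eval (fun k => p k + t * y k) c * eval p Q = eval p c * eval (fun k => p k + t * y k) Q := by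
  have hinf : Infinite K := inferInstance
  -- the case `Q (p) ≠ 0`
  have h1 : ∀ p : Fin M → K, eval p Q ≠ 0 →
      eval (fun k => p k + t * y k) c * eval p Q = eval p c * eval (fun k => p k + t * y k) Q := by
    intro p hp
    have hl := flow_poly (line p y c) (line p y Q) (by
      rw [derivative_line, derivative_line, ← map_mul, ← map_mul, h]) (by
      rw [eval_line]; simpa using hp)
    have h2 := congrArg (Polynomial.eval t) hl
    simp only [Polynomial.eval_mul, Polynomial.eval_C, eval_line, zero_mul, add_zero] at h2
    exact h2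
  set sh : MvPolynomial (Fin M) K →ₐ[K] MvPolynomial (Fin M) K := aeval fun k => X k + C (t * y k) with hsh
  have hev : ∀ (q : MvPolynomial (Fin M) K) (p : Fin M → K), eval p (sh q) =
      eval (fun k => p k + t * y k) q := by
    intro q p
    induction q using MvPolynomial.induction_on with
    | C a => rw [hsh, aeval_C]; simp
    | add a b ha hb => rw [map_add, map_add, map_add, ha, hb]
    | mul_X a k ha =>
      rw [map_mul, map_mul, map_mul, ha, hsh, aeval_X]
      simp
  have h2 : (sh c * Q - c * sh Q) * Q = 0 := by
    apply MvPolynomial.funext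
    intro p
    rw [map_mul, map_sub, map_mul, map_mul, map_zero, hev, hev]
    by_cases hp : eval p Q = 0
    · rw [hp, mul_zero]
    · rw [h1 p hp, sub_self, zero_mul]
  have h3 := (mul_eq_zero.1 h2).resolve_right hQ
  have h4 := congrArg (eval p) h3
  rw [map_sub, map_mul, map_mul, map_zero, hev, hev, sub_eq_zero] at h4
  exact h4

theorem flow_line [CharZero K] (y : Fin M → K) (c Q : MvPolynomial (Fin M) K) (hQ : Q ≠ 0)
    (h : Q * dirP y c = c * dirP y Q) (t : K) (p v : Fin M → K) :
    line (fun k => p k + t * y k) v c * line p v Q = line p v c * line (fun k => p k + t * y k) v Q := by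
  have hinf : Infinite K := inferInstance
  apply Polynomial.funext
  intro a
  simp only [Polynomial.eval_mul, eval_line]
  have h1 := flow y c Q hQ h t (fun k => p k + a * v k)
  have h2 : (fun k => p k + t * y k + a * v k) = fun k => p k + a * v k + t * y k :=
    funext fun k => by ring
  rw [h2]
  exact h1

end Geproci
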