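import Pool.Agent.Work.MP_efd9e3_ag.Co.Ord
import Pool.Agent.Work.MP_efd9e3_ag.Co.Flow

/-! MODULE AddPt (MP_efd9e3_ag/Co), helper69.  The subspace `range φ + K y`. -/

set_option autoImplicit false

open MvPolynomial

namespace Geproci

variable {K : Type*} [Field K] {N M e : ℕ} {ι : Type*}

/-- the parametrisation of `range φ + K y` -/
noncomputable def addP (φ : (Fin N → K) →ₗ[K] (Fin M → K)) (y : Fin M → K) :
    (Fin (N+1) → K) →ₗ[K] (Fin M → K) :=
  φ ∘ₗ (LinearMap.funLeft K K Fin.castSucc) + (LinearMap.proj (Fin.last N)).smulRight y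

theorem addP_apply (φ : (Fin N → K) →ₗ[K] (Fin M → K)) (y : Fin M → K) (w : Fin (N+1) → K) :
    addP φ y w = φ (fun i => w i.castSucc) + w (Fin.last N) • y := rfl

theorem addP_inj (φ : (Fin N → K) →ₗ[K] (Fin M → K)) (y : Fin M → K) (hφ : Function.Injective φ)
    (hy : y ∉ LinearMap.range φ) : Function.Injective (addP φ y) := by
  rw [← LinearMap.ker_eq_bot, LinearMap.ker_eq_bot']
  intro w hw
  rw [addP_apply] at hw
  have h0 : w (Fin.last N) = 0 := by
    by_contra hne
    apply hy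
    refine ⟨fun i => -(w (Fin.last N))⁻¹ * w i.castSucc, ?_⟩
    have h1 : (fun i : Fin N => -(w (Fin.last N))⁻¹ * w i.castSucc) =
        (-(w (Fin.last N))⁻¹) • (fun i : Fin N => w i.castSucc) := rfl
    rw [h1, map_smul, eq_neg_of_add_eq_zero_left hw, smul_neg, neg_smul, neg_neg, smul_smul,
      inv_mul_cancel₀ hne, one_smul]
  rw [h0, zero_smul, add_zero] at hw
  have h2 : (fun i : Fin N => w i.castSucc) = 0 := by
    apply hφ
    rw [hw, map_zero]
  funext i
  refine Fin.lastCases ?_ (fun j => ?_) i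
  · exact h0
  · exact congrFun h2 j

theorem prodL_ne (l : Fin e → Fin M → K) (v : Fin M → K) (hv : ∀ j, ∑ k, l j k * v k ≠ 0) :
    prodL l ≠ 0 := by
  intro h
  have h1 := congrArg (eval v) h
  rw [prodL, map_prod, map_zero, Finset.prod_eq_zero_iff] at h1
  obtain ⟨j, -, hj⟩ := h1
  rw [eval_linf] at hj
  exact hv j hj

theorem ord_addP [CharZero K] (φ : (Fin N → K) →ₗ[K] (Fin M → K)) (l : Fin e → Fin M → K)
    (y : Fin M → K) (c : MvPolynomial (Fin M) K) (r : ℕ) (hc : c.IsHomogeneous r)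
    (hflat : prodL l * dirP y c = c * dirP y (prodL l)) (v : Fin M → K) (hcv : eval v c ≠ 0)
    (hv : ∀ j, ∑ k, l j k * v k ≠ 0) :
    ordV (addP φ y) v c + (zer φ l).card ≤ ordV φ v c + (zer (addP φ y) l).card := by
  have hinf : Infinite K := inferInstance
  obtain ⟨ho, -⟩ := ordV_spec φ v c r hc hcv
  -- the polynomial `compL φ (dv v o c)` in the first `N` variables
  set pr : (Fin (N+1) → K) →ₗ[K] (Fin N → K) := LinearMap.funLeft K K Fin.castSucc with hpr
  have hg : compL pr (compL φ (dv v (ordV φ v c) c)) ≠ 0 := by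
    intro h
    apply ho
    apply MvPolynomial.funext
    intro x
    have h1 := congrArg (eval (Fin.snoc x 0 : Fin (N+1) → K)) h
    rw [eval_compL, map_zero] at h1
    rw [map_zero, ← h1]
    congr 2
    funext i
    rw [hpr]
    show x i = (Fin.snoc x 0 : Fin (N+1) → K) i.castSucc
    rw [Fin.snoc_castSucc]
  obtain ⟨w, hw1, hw2⟩ := exists_generic (addP φ y) l _ hg
  rw [eval_compL, eval_compL, ← coeff_line] at hw1
  have hw1' := right_ne_zero_of_mul hw1
  have hfl := flow_line y c (prodL l) (prodL_ne l v hv) hflat (w (Fin.last N)) (φ (pr w)) v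
  have hp : (fun k => φ (pr w) k + w (Fin.last N) * y k) = addP φ y w := rfl
  rw [hp] at hfl
  have h1 : Polynomial.X ^ (ordV (addP φ y) v c + (zer φ l).card) ∣
      line (addP φ y w) v c * line (φ (pr w)) v (prodL l) := by
    rw [pow_add]
    exact mul_dvd_mul (X_pow_dvd_line (addP φ y) v c w _ le_rfl) (X_pow_zer_dvd φ v l hv _)
  rw [hfl, Polynomial.X_pow_dvd_iff] at h1
  by_contra hcon
  push Not at hcon
  have h2 := h1 _ hcon
  rw [coeff_mul_low _ _ _ _ (X_pow_dvd_line φ v c _ _ le_rfl) (X_pow_zer_dvd (addP φ y) v l hv w)] at h2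
  exact mul_ne_zero hw1' (coeff_zer_ne (addP φ y) v l hv w hw2) h2

end Geproci
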