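import Pool.Agent.Work.MP_efd9e3_ag.EvsProj
import Pool.Agent.Work.MP_efd9e3_ag.Generic
import Pool.Agent.Work.MP_efd9e3_ag.HilbA
import Pool.Agent.Work.MP_efd9e3_ag.Main

/-! MODULE HZero (MP_efd9e3_ag/Co), helper69.  Forms vanishing on a general projection specialise to forms vanishing on
the projection from any given centre. -/

set_option autoImplicit false

open MvPolynomial

namespace Geproci

variable {K : Type*} [Field K] {n : ℕ} {ι : Type*}

/-- a functional with value one at `z₀` -/
theorem exists_mu (z₀ : Fin n → K) (hz₀ : z₀ ≠ 0) :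
    ∃ μ : (Fin n → K) →ₗ[K] K, μ z₀ = 1 := by
  obtain ⟨j, hj⟩ := Function.ne_iff.1 hz₀
  rw [Pi.zero_apply] at hj
  refine ⟨(z₀ j)⁻¹ • LinearMap.proj j, ?_⟩
  simp [hj]

/-- the projection as a linear map -/
def projM (p : Fin (n+1) → K) : (Fin (n+1) → K) →ₗ[K] (Fin n → K) where
  toFun := proj p
  map_add' v w := by
    funext i
    simp only [proj, Pi.add_apply]
    ring
  map_smul' c v := by
    funext i
    simp only [proj, Pi.smul_apply, smul_eq_mul, RingHom.id_apply]
    ring

theorem projM_apply (p v : Fin (n+1) → K) : projM p v = proj p v := rfl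

/-- the rank of the evaluation map is largest for a general centre -/
theorem evs_special [Infinite K] [Fintype ι] (hn : 2 ≤ n) (z : ι → Fin (n+1) → K) (hz : Indep z)
    (g : MvPolynomial (Fin (n+1)) K)
    (hg : ∀ p : Fin (n+1) → K, eval p g ≠ 0 → p (Fin.last n) ≠ 0 ∧
      ∀ (t : ℕ) (p' : Fin (n+1) → K), Module.finrank K (evs (fun i => proj p' (z i)) t) ≤
        Module.finrank K (evs (fun i => proj p (z i)) t))
    (z₀ : Fin (n+1) → K) (hz₀ : z₀ ≠ 0) (π₀ : (Fin (n+1) → K) →ₗ[K] (Fin n → K))
    (hπ₀ : LinearMap.ker π₀ = Submodule.span K {z₀}) (p : Fin (n+1) → K) (hp : eval p g ≠ 0) (t : ℕ) :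
    Module.finrank K (evs (fun i => π₀ (z i)) t) ≤ Module.finrank K (evs (fun i => proj p (z i)) t) := by
  classical
  obtain ⟨μ, hμ⟩ := exists_mu z₀ hz₀
  have hπz : π₀ z₀ = 0 := by
    rw [← LinearMap.mem_ker, hπ₀]
    exact Submodule.mem_span_singleton_self _
  -- the change of coordinates
  let A : (Fin (n+1) → K) →ₗ[K] (Fin (n+1) → K) :=
    { toFun := fun v => Fin.snoc (π₀ v) (μ v)
      map_add' := by
        intro v w
        funext i
        refine Fin.lastCases ?_ (fun j => ?_) i
        · simp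
        · simp
      map_smul' := by
        intro a v
        funext i
        refine Fin.lastCases ?_ (fun j => ?_) i
        · simp
        · simp }
  have hAl : ∀ v, A v (Fin.last n) = μ v := fun v => by
    show Fin.snoc (α := fun _ => K) (π₀ v) (μ v) (Fin.last n) = μ v
    simp
  have hAc : ∀ v (j : Fin n), A v j.castSucc = π₀ v j := fun v j => by
    show Fin.snoc (α := fun _ => K) (π₀ v) (μ v) j.castSucc = π₀ v j
    simp
  have hAinj : ∀ v, A v = 0 → v = 0 := by
    intro v hv
    have h1 : π₀ v = 0 := by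
      funext j
      rw [← hAc v j, hv]
      rfl
    have h2 : μ v = 0 := by
      rw [← hAl v, hv]
      rfl
    have h3 : v ∈ LinearMap.ker π₀ := h1
    rw [hπ₀, Submodule.mem_span_singleton] at h3
    obtain ⟨a, rfl⟩ := h3
    rw [map_smul, hμ, smul_eq_mul, mul_one] at h2
    rw [h2, zero_smul]
  have hAi : Function.Injective A := (injective_iff_map_eq_zero A).2 hAinj
  have hAz : Indep fun i => A (z i) := by
    refine ⟨fun i hi => hz.1 i (hAinj _ hi), fun i i' hii a ha => hz.2 i i' hii a (hAi ?_)⟩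
    rw [map_smul]
    exact ha
  obtain ⟨g', hg'0, hg'⟩ := generic hn (fun i => A (z i)) hAz
  -- a common good point
  have hg0 : g ≠ 0 := by
    rintro rfl
    exact hp (map_zero _)
  let φ : MvPolynomial (Fin (n+1)) K →ₐ[K] MvPolynomial (Fin (n+1)) K :=
    aeval fun i => ∑ j, C (A (Pi.single j 1) i) * X j
  have hφ : ∀ (q : Fin (n+1) → K) (f : MvPolynomial (Fin (n+1)) K), eval q (φ f) = eval (A q) f := by
    intro q f
    have h1 : ((aeval q : MvPolynomial (Fin (n+1)) K →ₐ[K] K).comp φ) = aeval (A q) := by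
      apply MvPolynomial.algHom_ext
      intro i
      rw [AlgHom.comp_apply, aeval_X, aeval_X, aeval_eq_eval]
      have h2 : A q = ∑ j, q j • A (Pi.single j 1) := by
        conv_lhs => rw [pi_eq_sum_univ' q]
        rw [map_sum]
        exact Finset.sum_congr rfl fun j _ => by rw [map_smul]
      rw [h2]
      show eval q (∑ j, C (A (Pi.single j 1) i) * X j) = _
      simp only [map_sum, map_mul, eval_C, eval_X, Finset.sum_apply, Pi.smul_apply, smul_eq_mul]
      exact Finset.sum_congr rfl fun j _ => by ring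
    have h2 := congrArg (fun F : MvPolynomial (Fin (n+1)) K →ₐ[K] K => F f) h1
    simp only [AlgHom.comp_apply] at h2
    rwa [aeval_eq_eval, aeval_eq_eval] at h2
  have hAs : Function.Surjective A := LinearMap.surjective_of_injective hAi
  have hφ0 : φ g' ≠ 0 := by
    intro hcon
    apply hg'0
    apply MvPolynomial.funext
    intro x
    obtain ⟨q, rfl⟩ := hAs x
    rw [← hφ, hcon, map_zero, map_zero]
  obtain ⟨q, hq⟩ : ∃ q, eval q (g * φ g') ≠ 0 := by
    by_contra hcon
    push Not at hcon
    exact mul_ne_zero hg0 hφ0 (MvPolynomial.funext fun x => by rw [hcon x, map_zero])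
  rw [map_mul, hφ] at hq
  obtain ⟨hql, hqm⟩ := hg q (left_ne_zero_of_mul hq)
  obtain ⟨hAql, -, hAqm⟩ := hg' (A q) (right_ne_zero_of_mul hq)
  -- the projection from `z₀`
  have h1 : (fun i => proj (A z₀) (A (z i))) = fun i => π₀ (z i) := by
    funext i j
    unfold proj
    rw [hAl, hAl, hAc, hAc, hμ, hπz]
    simp
  have h2 := hAqm t (A z₀)
  rw [h1] at h2
  -- the projection from `q`
  have h3 : LinearMap.ker ((projM (A q)).comp A) = Submodule.span K {q} := by
    ext v
    rw [LinearMap.mem_ker, LinearMap.comp_apply, projM_apply, proj_kernel (A q) hAql,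
      Submodule.mem_span_singleton, Submodule.mem_span_singleton]
    constructor
    · rintro ⟨a, ha⟩
      refine ⟨a, hAi ?_⟩
      rw [map_smul, ha]
    · rintro ⟨a, rfl⟩
      exact ⟨a, by rw [map_smul]⟩
  have h4 := evs_proj q hql ((projM (A q)).comp A) h3 z t
  have h5 : (fun i => ((projM (A q)).comp A) (z i)) = fun i => proj (A q) (A (z i)) := rfl
  rw [h5] at h4
  rw [h4] at h2
  exact h2.trans ((hg p hp).2 t q)

/-- a form vanishing on the projection from a general centre gives one for any given centre -/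
theorem exists_hzero [Infinite K] [Fintype ι] (hn : 2 ≤ n) (z : ι → Fin (n+1) → K) (hz : Indep z)
    (g : MvPolynomial (Fin (n+1)) K)
    (hg : ∀ p : Fin (n+1) → K, eval p g ≠ 0 → p (Fin.last n) ≠ 0 ∧
      ∀ (t : ℕ) (p' : Fin (n+1) → K), Module.finrank K (evs (fun i => proj p' (z i)) t) ≤
        Module.finrank K (evs (fun i => proj p (z i)) t))
    (z₀ : Fin (n+1) → K) (hz₀ : z₀ ≠ 0) (π₀ : (Fin (n+1) → K) →ₗ[K] (Fin n → K))
    (hπ₀ : LinearMap.ker π₀ = Submodule.span K {z₀}) (p : Fin (n+1) → K) (hp : eval p g ≠ 0)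
    (π : (Fin (n+1) → K) →ₗ[K] (Fin n → K)) (hπ : LinearMap.ker π = Submodule.span K {p})
    (t : ℕ) (f : MvPolynomial (Fin n) K) (hf : f.IsHomogeneous t) (hf0 : f ≠ 0)
    (hfz : ∀ i, eval (π (z i)) f = 0) :
    ∃ h : MvPolynomial (Fin n) K, h.IsHomogeneous t ∧ h ≠ 0 ∧ ∀ i, eval (π₀ (z i)) h = 0 := by
  classical
  have hfin := finite_homog (K := K) (n := n) t
  have hrn : ∀ y : ι → Fin n → K,
      Module.finrank K (evs y t) + Module.finrank K
        (LinearMap.ker ((LinearMap.pi fun i => (aeval (y i) : MvPolynomial (Fin n) K →ₐ[K] K).toLinearMap).comp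
          (homogeneousSubmodule (Fin n) K t).subtype)) =
      Module.finrank K (homogeneousSubmodule (Fin n) K t) := by
    intro y
    have h1 := LinearMap.finrank_range_add_finrank_ker
      ((LinearMap.pi fun i => (aeval (y i) : MvPolynomial (Fin n) K →ₐ[K] K).toLinearMap).comp
          (homogeneousSubmodule (Fin n) K t).subtype)
    have h2 : LinearMap.range
      ((LinearMap.pi fun i => (aeval (y i) : MvPolynomial (Fin n) K →ₐ[K] K).toLinearMap).comp
          (homogeneousSubmodule (Fin n) K t).subtype) = evs y t := by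
      rw [LinearMap.range_comp, Submodule.range_subtype]
      rfl
    rw [h2] at h1
    exact h1
  have hpl := (hg p hp).1
  have h1 := evs_special hn z hz g hg z₀ hz₀ π₀ hπ₀ p hp t
  rw [← evs_proj p hpl π hπ z t] at h1
  have h2 := hrn fun i => π (z i)
  have h3 := hrn fun i => π₀ (z i)
  have h4 : 0 < Module.finrank K
        (LinearMap.ker ((LinearMap.pi fun i => (aeval (π (z i)) : MvPolynomial (Fin n) K →ₐ[K] K).toLinearMap).comp
          (homogeneousSubmodule (Fin n) K t).subtype)) := by
    rw [Nat.pos_iff_ne_zero]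
    intro hcon
    rw [Submodule.finrank_eq_zero] at hcon
    have h5 : (⟨f, hf⟩ : homogeneousSubmodule (Fin n) K t) ∈
        LinearMap.ker ((LinearMap.pi fun i => (aeval (π (z i)) : MvPolynomial (Fin n) K →ₐ[K] K).toLinearMap).comp
          (homogeneousSubmodule (Fin n) K t).subtype) := by
      rw [LinearMap.mem_ker]
      funext i
      show aeval (π (z i)) f = 0
      rw [aeval_eq_eval]
      exact hfz i
    rw [hcon, Submodule.mem_bot] at h5
    exact hf0 (congrArg Subtype.val h5)
  have h6 : LinearMap.ker ((LinearMap.pi fun i => (aeval (π₀ (z i)) : MvPolynomial (Fin n) K →ₐ[K] K).toLinearMap).comp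
          (homogeneousSubmodule (Fin n) K t).subtype) ≠ ⊥ := by
    intro hcon
    rw [hcon, finrank_bot] at h3
    omega
  obtain ⟨⟨h, hh⟩, hk, hne⟩ := Submodule.exists_mem_ne_zero_of_ne_bot h6
  refine ⟨h, hh, fun h0 => hne (Subtype.ext h0), fun i => ?_⟩
  have h7 := congrFun (LinearMap.mem_ker.1 hk) i
  have h8 : aeval (π₀ (z i)) h = 0 := h7
  rwa [aeval_eq_eval] at h8

end Geproci
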