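import Pool.Agent.Work.MP_efd9e3_ag.Co.Ext

/-! MODULE Loc (MP_efd9e3_ag/Co), helper69.  The local analysis at a point of the set. -/

set_option autoImplicit false

open MvPolynomial

namespace Geproci

variable {K : Type*} [Field K] {N M e s r n : ℕ} {ι : Type*}

theorem dot_adj (φ : (Fin N → K) →ₗ[K] (Fin M → K)) (lam : Fin M → K) (v : Fin N → K) :
    ∑ k, (∑ j, lam j * φ (Pi.single k 1) j) * v k = ∑ j, lam j * φ v j := by
  have hv : v = ∑ k, v k • (Pi.single k 1 : Fin N → K) := by
    funext i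
    simp [Finset.sum_apply, Pi.single_apply]
  conv_rhs => rw [hv]
  simp only [map_sum, map_smul, Finset.sum_apply, Pi.smul_apply, smul_eq_mul, Finset.mul_sum,
    Finset.sum_mul]
  rw [Finset.sum_comm]
  exact Finset.sum_congr rfl fun j _ => Finset.sum_congr rfl fun k _ => by ring

/-- the relation for forms on the quotient by the centre -/
theorem rel_quot [CharZero K] [Fintype ι] (y : ι → Fin M → K) (c : ι → MvPolynomial (Fin M) K)
    (hrel : ∀ lam p : Fin M → K, ∑ k, lam k * p k = 0 →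
      ∑ z, eval p (c z) * (∑ k, lam k * y z k) ^ s = 0)
    (p : Fin M → K) (L : (Fin M → K) →ₗ[K] (Fin n → K)) (hL : L p = 0)
    (g : MvPolynomial (Fin n) K) (hg : g.IsHomogeneous s) :
    ∑ z, eval p (c z) * eval (L (y z)) g = 0 := by
  refine pow_polar s Finset.univ (fun z => L (y z)) (fun z => eval p (c z)) (fun lam => ?_) g hg
  have h1 := hrel (fun k => ∑ j, lam j * L (Pi.single k 1) j) p (by
    rw [dot_adj, hL]
    simp)
  rw [← h1]
  exact Finset.sum_congr rfl fun z _ => by rw [dot_adj]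

/-- a point as a one-dimensional subspace -/
noncomputable def ptP (y : Fin M → K) : (Fin 1 → K) →ₗ[K] (Fin M → K) :=
  (LinearMap.proj (0 : Fin 1)).smulRight y

theorem ptP_apply (y : Fin M → K) (x : Fin 1 → K) : ptP y x = x 0 • y := rfl

theorem q_loc [IsAlgClosed K] [CharZero K] [Fintype ι] (hs : 1 ≤ s)
    (y : ι → Fin (n+1) → K) (c : ι → MvPolynomial (Fin (n+1)) K) (l : Fin e → Fin (n+1) → K)
    (h : QSys s r e y c l) (z₀ : ι) (π : (Fin (n+1) → K) →ₗ[K] (Fin n → K))
    (hπ : LinearMap.ker π = Submodule.span K {y z₀}) (g : MvPolynomial (Fin n) K)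
    (hg : g.IsHomogeneous s) (hg0 : g ≠ 0) (m : ι → ℕ)
    (hm : ∀ z, z ≠ z₀ → ∀ w, Polynomial.X ^ (m z) ∣ line (π (y z)) w g) :
    ∃ z, z ≠ z₀ ∧
      ((∃ T : Finset ι, Module.finrank K (Submodule.span K (y '' (T : Set ι))) = 2 ∧
          m z + 3 ≤ T.card) ∨
        ∃ T : Finset ι, (∀ z' ∈ T, y z' ∈ Submodule.span K {y z₀, y z}) ∧ m z + 2 ≤ T.card) := by
  classical
  have hinf : Infinite K := IsAlgClosed.instInfinite
  obtain ⟨hy0, hy2⟩ := ind_pairs s hs Finset.univ y (fun a ha z _ => h.ind a ha z)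
  have hyz := hy0 z₀ (Finset.mem_univ _)
  have hπ0 : π (y z₀) = 0 := by
    rw [← LinearMap.mem_ker, hπ]
    exact Submodule.mem_span_singleton_self _
  have hπs : Function.Surjective π := by
    rw [← LinearMap.range_eq_top]
    apply Submodule.eq_top_of_finrank_eq
    have h1 := LinearMap.finrank_range_add_finrank_ker π
    rw [hπ, finrank_span_singleton hyz] at h1
    simp only [Module.finrank_fintype_fun_eq_card, Fintype.card_fin] at h1 ⊢
    omega
  have hgπ : compL π g ≠ 0 := by
    intro hcon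
    apply hg0
    apply MvPolynomial.funext
    intro x
    obtain ⟨w, rfl⟩ := hπs x
    rw [← eval_compL, hcon, map_zero, map_zero]
  -- the functional `μ`
  obtain ⟨μ, hμ⟩ : ∃ μ : Fin (n+1) → K, ∑ k, μ k * y z₀ k = 1 := by
    obtain ⟨j, hj⟩ := Function.ne_iff.1 hyz
    rw [Pi.zero_apply] at hj
    refine ⟨Pi.single j (y z₀ j)⁻¹, ?_⟩
    rw [Finset.sum_eq_single j]
    · rw [Pi.single_eq_same, inv_mul_cancel₀ hj]
    · intro b _ hb
      rw [Pi.single_eq_of_ne hb, zero_mul]
    · simp
  -- the direction `v`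
  obtain ⟨v, hv, hgv⟩ : ∃ v : Fin (n+1) → K, Good c l v ∧ eval (π v) g ≠ 0 := by
    have h1 : (∏ z, c z) * (∏ j, linf (l j)) * compL π g ≠ 0 :=
      mul_ne_zero (mul_ne_zero (Finset.prod_ne_zero_iff.2 fun z _ => h.ne z)
        (Finset.prod_ne_zero_iff.2 fun j _ => linf_ne_zero _ (h.lne j))) hgπ
    obtain ⟨v, hv⟩ : ∃ v, eval v ((∏ z, c z) * (∏ j, linf (l j)) * compL π g) ≠ 0 := by
      by_contra hcon
      push Not at hcon
      exact h1 (MvPolynomial.funext fun x => by rw [hcon x, map_zero])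
    rw [map_mul, map_mul, map_prod, map_prod, eval_compL] at hv
    refine ⟨v, ⟨fun z => ?_, fun j => ?_⟩, right_ne_zero_of_mul hv⟩
    · exact (Finset.prod_ne_zero_iff.1 (left_ne_zero_of_mul (left_ne_zero_of_mul hv))) z
        (Finset.mem_univ _)
    · have h2 := (Finset.prod_ne_zero_iff.1 (right_ne_zero_of_mul (left_ne_zero_of_mul hv))) j
        (Finset.mem_univ _)
      rwa [eval_linf] at h2
  -- the identity in `ε`
  set w : ι → Fin n → K := fun z => (∑ k, μ k * v k) • π (y z) - (∑ k, μ k * y z k) • π v with hw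
  have hid : ∑ z, line (y z₀) v (c z) * line (π (y z)) (w z) g = 0 := by
    apply Polynomial.funext
    intro t
    rw [Polynomial.eval_finsetSum, Polynomial.eval_zero]
    set p : Fin (n+1) → K := fun k => y z₀ k + t * v k with hp
    have hp' : p = y z₀ + t • v := rfl
    have hμp : ∑ k, μ k * p k = 1 + t * ∑ k, μ k * v k := by
      rw [← hμ, Finset.mul_sum, ← Finset.sum_add_distrib]
      exact Finset.sum_congr rfl fun k _ => by rw [hp]; ring
    let μL : (Fin (n+1) → K) →ₗ[K] K := ∑ k, μ k • LinearMap.proj k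
    have hμL : ∀ x, μL x = ∑ k, μ k * x k := by
      intro x
      simp [μL, LinearMap.sum_apply]
    have h1 := rel_quot y c h.rel p ((∑ k, μ k * p k) • π - μL.smulRight (π p)) (by
      rw [LinearMap.sub_apply, LinearMap.smul_apply, LinearMap.smulRight_apply, hμL, sub_self]) g hg
    rw [← h1]
    refine Finset.sum_congr rfl fun z _ => ?_
    rw [Polynomial.eval_mul, eval_line, eval_line]
    refine congrArg (fun u => eval p (c z) * eval u g) ?_
    rw [LinearMap.sub_apply, LinearMap.smul_apply, LinearMap.smulRight_apply, hμL, hμp, hp', map_add,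
      map_smul, hπ0, zero_add]
    funext k
    simp only [hw, Pi.sub_apply, Pi.smul_apply, smul_eq_mul]
    ring
  -- the term of `z₀`
  set q := (Finset.univ.filter fun j => ∑ k, l j k * y z₀ k = 0).card with hq
  obtain ⟨hq1, hq2⟩ := line_prodL_low (y z₀) v l hv.2
  have hfl : line (y z₀) v (c z₀) * (Polynomial.C (eval v (prodL l)) * Polynomial.X ^ e) =
      (Polynomial.C (eval v (c z₀)) * Polynomial.X ^ r) * line (y z₀) v (prodL l) := by
    have h1 := flow_line (y z₀) (c z₀) (prodL l) (prodL_ne l v hv.2) (h.flat z₀) 1 0 v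
    have h2 : (fun k => (0 : Fin (n+1) → K) k + 1 * y z₀ k) = y z₀ := by
      funext k
      rw [Pi.zero_apply, zero_add, one_mul]
    rw [h2, line_zero_left v (prodL l) e (prodL_hom l), line_zero_left v (c z₀) r (h.hom z₀)] at h1
    exact h1
  have hre : e ≤ r + q ∧ (line (y z₀) v (c z₀)).coeff (r + q - e) ≠ 0 := by
    have h1 : (line (y z₀) v (c z₀) * (Polynomial.C (eval v (prodL l)) * Polynomial.X ^ e)).coeff
        (r + q) ≠ 0 := by
      rw [hfl, coeff_mul_low _ _ r q (Dvd.intro_left _ rfl) hq1, Polynomial.coeff_C_mul,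
        Polynomial.coeff_X_pow, if_pos rfl, mul_one]
      exact mul_ne_zero (hv.1 z₀) hq2
    have h2 : line (y z₀) v (c z₀) * (Polynomial.C (eval v (prodL l)) * Polynomial.X ^ e) =
        Polynomial.C (eval v (prodL l)) * line (y z₀) v (c z₀) * Polynomial.X ^ e := by ring
    rw [h2, Polynomial.coeff_mul_X_pow'] at h1
    by_cases h3 : e ≤ r + q
    · rw [if_pos h3, Polynomial.coeff_C_mul] at h1
      exact ⟨h3, right_ne_zero_of_mul h1⟩
    · rw [if_neg h3] at h1
      exact absurd rfl h1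
  obtain ⟨hre1, hre2⟩ := hre
  have hz₀ : (line (y z₀) v (c z₀) * line (π (y z₀)) (w z₀) g).coeff (r + q - e + s) ≠ 0 := by
    have h1 : π (y z₀) = 0 := hπ0
    have h2 : w z₀ = fun k => (-1) * π v k := by
      funext k
      simp only [hw, hπ0, hμ, smul_zero, one_smul, Pi.sub_apply, Pi.zero_apply]
      ring
    rw [h1, h2, line_zero_left _ g s hg, eval_smul_hom hg, ← mul_assoc, Polynomial.coeff_mul_X_pow,
      Polynomial.coeff_mul_C]
    exact mul_ne_zero hre2 (mul_ne_zero (pow_ne_zero _ (neg_ne_zero.2 one_ne_zero)) hgv)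
  -- another term is not zero
  obtain ⟨z, hzz, hzc⟩ : ∃ z, z ≠ z₀ ∧
      (line (y z₀) v (c z) * line (π (y z)) (w z) g).coeff (r + q - e + s) ≠ 0 := by
    by_contra hcon
    push Not at hcon
    have h1 := congrArg (fun t => Polynomial.coeff t (r + q - e + s)) hid
    simp only [Polynomial.finsetSum_coeff, Polynomial.coeff_zero] at h1
    rw [Finset.sum_eq_single z₀ (fun z _ hz => hcon z hz) (fun h => absurd (Finset.mem_univ _) h)] at h1
    exact hz₀ h1
  have hφ : Function.Injective (ptP (y z₀)) := by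
    rw [← LinearMap.ker_eq_bot, LinearMap.ker_eq_bot']
    intro x hx
    rw [ptP_apply] at hx
    funext i
    have := (smul_eq_zero.1 hx).resolve_right hyz
    rw [Subsingleton.elim i 0, this]
    rfl
  have hord : ordV (ptP (y z₀)) v (c z) + m z ≤ r + q - e + s := by
    by_contra hcon
    push Not at hcon
    apply hzc
    have h1 : Polynomial.X ^ (ordV (ptP (y z₀)) v (c z) + m z) ∣
        line (y z₀) v (c z) * line (π (y z)) (w z) g := by
      rw [pow_add]
      refine mul_dvd_mul ?_ (hm z hzz _)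
      have h2 := X_pow_dvd_line (ptP (y z₀)) v (c z) (fun _ => 1) _ le_rfl
      rwa [ptP_apply, one_smul] at h2
    exact (Polynomial.X_pow_dvd_iff.1 h1) _ hcon
  have hqz : (zer (ptP (y z₀)) l).card = q := by
    rw [hq]
    congr 1
    ext j
    rw [mem_zer, Finset.mem_filter]
    constructor
    · intro hj
      refine ⟨Finset.mem_univ _, ?_⟩
      have := hj (fun _ => 1)
      rwa [ptP_apply, one_smul] at this
    · rintro ⟨-, hj⟩ x
      rw [ptP_apply]
      simp only [Pi.smul_apply, smul_eq_mul]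
      have : ∑ k, l j k * (x 0 * y z₀ k) = x 0 * ∑ k, l j k * y z₀ k := by
        rw [Finset.mul_sum]
        exact Finset.sum_congr rfl fun k _ => by ring
      rw [this, hj, mul_zero]
  have hran : y z ∉ LinearMap.range (ptP (y z₀)) := by
    rintro ⟨x, hx⟩
    rw [ptP_apply] at hx
    exact hy2 z₀ (Finset.mem_univ _) z (Finset.mem_univ _) (Ne.symm hzz) (x 0) hx.symm
  have hadd := ord_addP (ptP (y z₀)) l (y z) (c z) r (h.hom z) (h.flat z) v (hv.1 z) hv.2
  have hdeg := h.deg
  rw [hqz] at hadd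
  refine ⟨z, hzz, ?_⟩
  rcases q_ext_two hs y c l h (m z) (addP (ptP (y z₀)) (y z)) (addP_inj _ _ hφ hran) v hv z
    (by omega) with h1 | ⟨T, hT, hcard⟩
  · exact Or.inl h1
  · refine Or.inr ⟨T, fun z' hz' => ?_, hcard⟩
    obtain ⟨x, hx⟩ := hT z' hz'
    rw [addP_apply, ptP_apply] at hx
    rw [← hx]
    exact Submodule.add_mem _ (Submodule.smul_mem _ _ (Submodule.subset_span (by simp)))
      (Submodule.smul_mem _ _ (Submodule.subset_span (by simp)))

end Geproci
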