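import Pool.Agent.Work.MP_efd9e3_ag.Fl.Quad

/-! MODULE Tw (MP_efd9e3_ag/Co), helper69.  The twisted Laplacian: the exact power of `q = ∑ lam_k p_k` which divides
`F`, if `Q ΔF = ∑ ∂_k Q ∂F/∂lam_k`. -/

set_option autoImplicit false

open MvPolynomial

namespace Geproci

variable {K : Type*} [Field K] {N : ℕ}

private theorem Tw_coeff {σ : Type*} (k : σ) (m : σ →₀ ℕ) (G : MvPolynomial σ K) :
    coeff m (X k * pderiv k G) = (m k : K) * coeff m G := by
  classical
  induction G using MvPolynomial.induction_on' with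
  | monomial m' a =>
    rw [X_mul_pderiv_monomial, coeff_smul, coeff_monomial, nsmul_eq_mul]
    split_ifs with h
    · rw [h]
    · rw [mul_zero, mul_zero]
  | add p q hp hq => rw [map_add, mul_add, coeff_add, hp, hq, coeff_add, mul_add]

theorem lap_tw [IsAlgClosed K] [CharZero K] (hN : 2 ≤ N) (F : MvPolynomial (Fin N ⊕ Fin N) K)
    (hF : F ≠ 0) (s ρ e' : ℕ) (Q : MvPolynomial (Fin N) K) (hQ0 : Q ≠ 0) (hQ : Q.IsHomogeneous e')
    (h1 : ∑ k : Fin N, X (Sum.inl k) * pderiv (Sum.inl k) F = C (s : K) * F)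
    (h2 : ∑ k : Fin N, X (Sum.inr k) * pderiv (Sum.inr k) F = C (ρ : K) * F)
    (h3 : rename Sum.inr Q * ∑ k : Fin N, pderiv (Sum.inl k) (pderiv (Sum.inr k) F) =
      ∑ k : Fin N, rename Sum.inr (pderiv k Q) * pderiv (Sum.inl k) F)
    (hdvd : quadF K N ∣ F) :
    ∃ (a : ℕ) (G : MvPolynomial (Fin N ⊕ Fin N) K), 1 ≤ a ∧ a ≤ s ∧ F = quadF K N ^ a * G ∧
      a + e' + 1 = N + s + ρ := by
  have hinf : Infinite K := IsAlgClosed.instInfinite
  have hirr := quad_irr (K := K) hN
  have hprime : Prime (quadF K N) := UniqueFactorizationMonoid.irreducible_iff_prime.1 hirr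
  set q : MvPolynomial (Fin N ⊕ Fin N) K := quadF K N with hq
  have hq' : q = ∑ k : Fin N, X (Sum.inl k) * X (Sum.inr k) := rfl
  have hunit : ¬ IsUnit q := hirr.not_isUnit
  have hq0 : q ≠ 0 := hirr.ne_zero
  obtain ⟨G, hG, hGn⟩ := (FiniteMultiplicity.of_not_isUnit hunit hF).exists_eq_pow_mul_and_not_dvd
  set m := multiplicity q F with hm
  have hm0 : m ≠ 0 := by
    intro h
    rw [h, pow_zero, one_mul] at hG
    rw [hG] at hdvd
    exact hGn hdvd
  obtain ⟨b, hb⟩ := Nat.exists_eq_succ_of_ne_zero hm0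
  rw [hb, Nat.succ_eq_add_one] at hG
  have hG0 : G ≠ 0 := by
    rintro rfl
    exact hGn (dvd_zero _)
  -- derivatives of q
  have dl : ∀ k, pderiv (Sum.inl k) q = X (Sum.inr k) := by
    intro k
    rw [hq', map_sum, Finset.sum_eq_single k]
    · rw [Derivation.leibniz, pderiv_X_self, pderiv_X_of_ne (by simp)]
      simp
    · intro j _ hj
      rw [Derivation.leibniz, pderiv_X_of_ne (by simp), pderiv_X_of_ne (by simpa using hj)]
      simp
    · simp
  have dr : ∀ k, pderiv (Sum.inr k) q = X (Sum.inl k) := by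
    intro k
    rw [hq', map_sum, Finset.sum_eq_single k]
    · rw [Derivation.leibniz, pderiv_X_self, pderiv_X_of_ne (by simp)]
      simp
    · intro j _ hj
      rw [Derivation.leibniz, pderiv_X_of_ne (by simpa using hj), pderiv_X_of_ne (by simp)]
      simp
    · simp
  -- Euler for G
  have hpowl : ∀ (k : Fin N) (j : ℕ), pderiv (Sum.inl k) (q ^ (j + 1)) =
      C ((j : K) + 1) * q ^ j * X (Sum.inr k) := by
    intro k j
    rw [Derivation.leibniz_pow, dl, Nat.add_sub_cancel]
    simp only [smul_eq_mul, nsmul_eq_mul, map_add, map_natCast, map_one]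
    push_cast
    ring
  have hpowr : ∀ (k : Fin N) (j : ℕ), pderiv (Sum.inr k) (q ^ (j + 1)) =
      C ((j : K) + 1) * q ^ j * X (Sum.inl k) := by
    intro k j
    rw [Derivation.leibniz_pow, dr, Nat.add_sub_cancel]
    simp only [smul_eq_mul, nsmul_eq_mul, map_add, map_natCast, map_one]
    push_cast
    ring
  have hpowl' : ∀ (k : Fin N) (j : ℕ), pderiv (Sum.inl k) (q ^ j) * q =
      C (j : K) * q ^ j * X (Sum.inr k) := by
    intro k j
    cases j with
    | zero => simp
    | succ j =>
      rw [hpowl]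
      push_cast
      ring
  have hqb1 : q ^ (b + 1) ≠ 0 := pow_ne_zero _ hq0
  have hE1 : ∑ k : Fin N, X (Sum.inl k) * pderiv (Sum.inl k) G = C ((s : K) - b - 1) * G := by
    apply mul_left_cancel₀ hqb1
    have h4 : ∀ k : Fin N, X (Sum.inl k) * pderiv (Sum.inl k) F =
        C ((b : K) + 1) * q ^ b * G * (X (Sum.inl k) * X (Sum.inr k)) +
          q ^ (b + 1) * (X (Sum.inl k) * pderiv (Sum.inl k) G) := by
      intro k
      rw [hG, Derivation.leibniz, hpowl]
      simp only [smul_eq_mul]
      ring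
    rw [Finset.sum_congr rfl (fun k _ => h4 k), Finset.sum_add_distrib, ← Finset.mul_sum,
      ← Finset.mul_sum, ← hq', hG] at h1
    simp only [map_add, map_sub, map_one] at h1 ⊢
    linear_combination h1
  have hE2 : ∑ k : Fin N, X (Sum.inr k) * pderiv (Sum.inr k) G = C ((ρ : K) - b - 1) * G := by
    apply mul_left_cancel₀ hqb1
    have h4 : ∀ k : Fin N, X (Sum.inr k) * pderiv (Sum.inr k) F =
        C ((b : K) + 1) * q ^ b * G * (X (Sum.inl k) * X (Sum.inr k)) +
          q ^ (b + 1) * (X (Sum.inr k) * pderiv (Sum.inr k) G) := by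
      intro k
      rw [hG, Derivation.leibniz, hpowr]
      simp only [smul_eq_mul]
      ring
    rw [Finset.sum_congr rfl (fun k _ => h4 k), Finset.sum_add_distrib, ← Finset.mul_sum,
      ← Finset.mul_sum, ← hq', hG] at h2
    simp only [map_add, map_sub, map_one] at h2 ⊢
    linear_combination h2
  -- the power is at most `s`
  have hbs : b + 1 ≤ s := by
    obtain ⟨d, hd⟩ : ∃ d, coeff d G ≠ 0 := by
      by_contra hcon
      push Not at hcon
      exact hG0 (MvPolynomial.ext _ _ fun d => by rw [hcon d, coeff_zero])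
    have h4 := congrArg (coeff d) hE1
    rw [coeff_sum, coeff_C_mul] at h4
    simp only [Tw_coeff] at h4
    rw [← Finset.sum_mul] at h4
    have h5 := mul_right_cancel₀ hd h4
    have h6 : ((b + 1 + ∑ k : Fin N, d (Sum.inl k) : ℕ) : K) = (s : K) := by
      push_cast
      rw [h5]
      ring
    have h7 := Nat.cast_injective h6
    omega
  -- Laplacian, multiplied by q
  have h5 : ∀ k : Fin N, q * pderiv (Sum.inl k) (pderiv (Sum.inr k) F) =
      C ((b : K) + 1) * C (b : K) * q ^ b * G * (X (Sum.inl k) * X (Sum.inr k)) +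
      C ((b : K) + 1) * q ^ (b + 1) * G +
      C ((b : K) + 1) * q ^ (b + 1) * (X (Sum.inl k) * pderiv (Sum.inl k) G) +
      C ((b : K) + 1) * q ^ (b + 1) * (X (Sum.inr k) * pderiv (Sum.inr k) G) +
      q ^ (b + 2) * pderiv (Sum.inl k) (pderiv (Sum.inr k) G) := by
    intro k
    rw [hG, Derivation.leibniz, hpowr]
    simp only [smul_eq_mul, map_add, Derivation.leibniz, pderiv_C, pderiv_X_self, hpowl]
    have h6 := hpowl' k b
    simp only [map_one]
    simp only [map_add, map_one] at *
    linear_combination ((C (b : K) + 1) * X (Sum.inl k) * G) * h6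
  have h6 : (C ((b : K) + 1) * C ((N : K) + s + ρ - b - 2)) * q ^ (b + 1) * G +
      q ^ (b + 2) * ∑ k : Fin N, pderiv (Sum.inl k) (pderiv (Sum.inr k) G) =
      q * ∑ k : Fin N, pderiv (Sum.inl k) (pderiv (Sum.inr k) F) := by
    rw [Finset.mul_sum, Finset.mul_sum, Finset.sum_congr rfl (fun k _ => h5 k)]
    simp only [Finset.sum_add_distrib, ← Finset.mul_sum]
    rw [← hq', hE1, hE2, Finset.sum_const, Finset.card_univ, Fintype.card_fin, nsmul_eq_mul]
    simp only [map_add, map_sub, map_one, map_natCast, map_ofNat]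
    ring
  -- the right side
  have h7 : q * ∑ k : Fin N, rename Sum.inr (pderiv k Q) * pderiv (Sum.inl k) F =
      C ((b : K) + 1) * C (e' : K) * q ^ (b + 1) * rename Sum.inr Q * G +
      q ^ (b + 2) * ∑ k : Fin N, rename Sum.inr (pderiv k Q) * pderiv (Sum.inl k) G := by
    have h8 : ∀ k : Fin N, rename Sum.inr (pderiv k Q) * pderiv (Sum.inl k) F =
        C ((b : K) + 1) * q ^ b * G * rename Sum.inr (X k * pderiv k Q) +
          q ^ (b + 1) * (rename Sum.inr (pderiv k Q) * pderiv (Sum.inl k) G) := by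
      intro k
      rw [hG, Derivation.leibniz, hpowl, map_mul, rename_X]
      simp only [smul_eq_mul]
      ring
    rw [Finset.sum_congr rfl (fun k _ => h8 k), Finset.sum_add_distrib, ← Finset.mul_sum,
      ← Finset.mul_sum, ← map_sum, hQ.sum_X_mul_pderiv]
    simp only [nsmul_eq_mul, map_mul, map_natCast]
    ring
  have h8 : rename Sum.inr Q * C (((b : K) + 1) * ((N : K) + s + ρ - b - 2 - e')) * G =
      q * (∑ k : Fin N, rename Sum.inr (pderiv k Q) * pderiv (Sum.inl k) G -
        rename Sum.inr Q * ∑ k : Fin N, pderiv (Sum.inl k) (pderiv (Sum.inr k) G)) := by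
    apply mul_left_cancel₀ hqb1
    have h9 : q * (rename Sum.inr Q * ∑ k : Fin N, pderiv (Sum.inl k) (pderiv (Sum.inr k) F)) =
        q * ∑ k : Fin N, rename Sum.inr (pderiv k Q) * pderiv (Sum.inl k) F := by rw [h3]
    rw [h7] at h9
    simp only [map_add, map_sub, map_one, map_mul, map_natCast, map_ofNat] at h9 h6 ⊢
    linear_combination h9 + (rename Sum.inr Q) * h6
  have h9 : ((b : K) + 1) * ((N : K) + s + ρ - b - 2 - e') = 0 := by
    by_contra hne
    have h10 : q ∣ rename Sum.inr Q * G := by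
      refine ⟨C (((b : K) + 1) * ((N : K) + s + ρ - b - 2 - e'))⁻¹ *
        (∑ k : Fin N, rename Sum.inr (pderiv k Q) * pderiv (Sum.inl k) G -
        rename Sum.inr Q * ∑ k : Fin N, pderiv (Sum.inl k) (pderiv (Sum.inr k) G)), ?_⟩
      have h11 : C (((b : K) + 1) * ((N : K) + s + ρ - b - 2 - e'))⁻¹ *
          C (((b : K) + 1) * ((N : K) + s + ρ - b - 2 - e')) =
          (1 : MvPolynomial (Fin N ⊕ Fin N) K) := by
        rw [← map_mul, inv_mul_cancel₀ hne, map_one]
      linear_combination (C (((b : K) + 1) * ((N : K) + s + ρ - b - 2 - e'))⁻¹) * h8 -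
        (rename Sum.inr Q * G) * h11
    rcases hprime.dvd_or_dvd h10 with h11 | h11
    · obtain ⟨t, ht⟩ := h11
      apply hQ0
      apply MvPolynomial.funext
      intro x
      have h12 := congrArg (eval (Sum.elim (0 : Fin N → K) x)) ht
      rw [eval_rename, map_mul, hq', map_sum] at h12
      simp only [map_mul, eval_X, Sum.elim_inl, Pi.zero_apply, zero_mul, Finset.sum_const_zero,
        Sum.elim_comp_inr] at h12
      rw [h12, map_zero]
    · exact hGn h11
  have h10 : (N : K) + s + ρ - b - 2 - e' = 0 :=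
    (mul_eq_zero.1 h9).resolve_left (Nat.cast_add_one_ne_zero b)
  refine ⟨b + 1, G, by omega, hbs, hG, ?_⟩
  have h11 : ((b + 1 + e' + 1 : ℕ) : K) = ((N + s + ρ : ℕ) : K) := by
    push_cast
    linear_combination -h10
  exact Nat.cast_injective h11

end Geproci
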