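import Pool.Agent.Work.MP_efd9e3_ag.Fl.DirP
import Pool.Agent.Work.MP_efd9e3_ag.Co.Tw

/-! MODULE TwSys (MP_efd9e3_ag/Co), helper69.  The exact power of `lam·x` in `∑ b_z(x) (lam·y_z)^s`. -/

set_option autoImplicit false

open MvPolynomial

namespace Geproci

variable {K : Type*} [Field K] {N : ℕ} {ι : Type*}

private noncomputable def twL (v : Fin N → K) : MvPolynomial (Fin N ⊕ Fin N) K :=
  ∑ k, C (v k) * X (Sum.inl k)

private lemma tw_dl (v : Fin N → K) (k : Fin N) : pderiv (Sum.inl k) (twL v) = C (v k) := by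
  classical
  unfold twL
  rw [map_sum, Finset.sum_eq_single k]
  · rw [pderiv_C_mul, pderiv_X_self, mul_one]
  · intro j _ hj
    rw [pderiv_C_mul, pderiv_X_of_ne (by simpa using hj), mul_zero]
  · simp

private lemma tw_dr (v : Fin N → K) (k : Fin N) : pderiv (Sum.inr k) (twL v) = 0 := by
  classical
  unfold twL
  rw [map_sum]
  apply Finset.sum_eq_zero
  intro j _
  rw [pderiv_C_mul, pderiv_X_of_ne (by simp), mul_zero]

private lemma tw_dlp (v : Fin N → K) (k : Fin N) (s : ℕ) :
    pderiv (Sum.inl k) (twL v ^ s) = C (s : K) * twL v ^ (s - 1) * C (v k) := by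
  rw [Derivation.leibniz_pow, tw_dl]
  simp only [smul_eq_mul, nsmul_eq_mul, map_natCast]
  ring

private lemma tw_drp (v : Fin N → K) (k : Fin N) (s : ℕ) :
    pderiv (Sum.inr k) (twL v ^ s) = 0 := by
  rw [Derivation.leibniz_pow, tw_dr]
  simp

private lemma tw_rl (b : MvPolynomial (Fin N) K) (k : Fin N) :
    pderiv (Sum.inl k) (rename (Sum.inr : Fin N → Fin N ⊕ Fin N) b) = 0 := by
  classical
  apply pderiv_eq_zero_of_notMem_vars
  intro h
  have h2 := vars_rename (Sum.inr : Fin N → Fin N ⊕ Fin N) b h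
  rw [Finset.mem_image] at h2
  obtain ⟨j, _, hj⟩ := h2
  exact absurd hj (by simp)

private lemma tw_rr (b : MvPolynomial (Fin N) K) (k : Fin N) :
    pderiv (Sum.inr k) (rename (Sum.inr : Fin N → Fin N ⊕ Fin N) b) =
      rename Sum.inr (pderiv k b) :=
  pderiv_rename Sum.inr_injective k b

theorem tw_sys [IsAlgClosed K] [CharZero K] (hN : 2 ≤ N) (s ρ e' : ℕ) (T : Finset ι)
    (hT : T.Nonempty) (y : ι → Fin N → K) (b : ι → MvPolynomial (Fin N) K)
    (hbh : ∀ z ∈ T, (b z).IsHomogeneous ρ) (hb0 : ∀ z ∈ T, b z ≠ 0)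
    (hrel : ∀ lam p : Fin N → K, ∑ k, lam k * p k = 0 →
      ∑ z ∈ T, eval p (b z) * (∑ k, lam k * y z k) ^ s = 0)
    (hind : ∀ a : ι → K, (∀ lam : Fin N → K, ∑ z ∈ T, a z * (∑ k, lam k * y z k) ^ s = 0) →
      ∀ z ∈ T, a z = 0)
    (Q : MvPolynomial (Fin N) K) (hQ0 : Q ≠ 0) (hQ : Q.IsHomogeneous e')
    (hflat : ∀ z ∈ T, Q * dirP (y z) (b z) = b z * dirP (y z) Q) :
    ∃ (a : ℕ) (G : MvPolynomial (Fin N ⊕ Fin N) K), 1 ≤ a ∧ a ≤ s ∧ a + e' + 1 = N + s + ρ ∧
      ∀ lam x : Fin N → K, ∑ z ∈ T, eval x (b z) * (∑ k, lam k * y z k) ^ s =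
        (∑ k, lam k * x k) ^ a * eval (Sum.elim lam x) G := by
  classical
  have hinf : Infinite K := IsAlgClosed.instInfinite
  obtain ⟨z₀, hz₀⟩ := hT
  set F : MvPolynomial (Fin N ⊕ Fin N) K := ∑ z ∈ T, rename Sum.inr (b z) * twL (y z) ^ s with hF
  have hevL : ∀ (x : Fin N ⊕ Fin N → K) (v : Fin N → K),
      eval x (twL v) = ∑ k, x (Sum.inl k) * v k := by
    intro x v
    unfold twL
    rw [map_sum]
    refine Finset.sum_congr rfl fun k _ => ?_
    rw [map_mul, eval_C, eval_X, mul_comm]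
  have hevF : ∀ x : Fin N ⊕ Fin N → K, eval x F = ∑ z ∈ T, eval (x ∘ Sum.inr) (b z) *
      (∑ k, x (Sum.inl k) * y z k) ^ s := by
    intro x
    rw [hF, map_sum]
    refine Finset.sum_congr rfl fun z _ => ?_
    rw [map_mul, map_pow, hevL, eval_rename]
  have hdvd : quadF K N ∣ F := by
    apply quad_dvd hN
    intro x hx
    rw [hevF]
    apply hrel (fun k => x (Sum.inl k)) (x ∘ Sum.inr)
    rw [← hx]
    unfold quadF
    rw [map_sum]
    refine Finset.sum_congr rfl fun k _ => ?_
    rw [map_mul, eval_X, eval_X]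
    rfl
  have hF0 : F ≠ 0 := by
    intro hcon
    obtain ⟨p, hp⟩ : ∃ p : Fin N → K, eval p (b z₀) ≠ 0 := by
      by_contra hcon2
      push Not at hcon2
      apply hb0 z₀ hz₀
      apply MvPolynomial.funext
      intro p
      rw [hcon2 p, map_zero]
    apply hp
    apply hind (fun z => eval p (b z)) _ z₀ hz₀
    intro lam
    have h1 := hevF (Sum.elim lam p)
    rw [hcon, map_zero] at h1
    exact h1.symm
  obtain ⟨a, G, ha1, has, hFG, hnum⟩ := lap_tw hN F hF0 s ρ e' Q hQ0 hQ (by
    -- Euler, first group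
    have h1 : ∀ k : Fin N, X (Sum.inl k) * pderiv (Sum.inl k) F =
        ∑ z ∈ T, rename Sum.inr (b z) * (C (s : K) * twL (y z) ^ (s - 1)) *
          (C (y z k) * X (Sum.inl k)) := by
      intro k
      rw [hF, map_sum, Finset.mul_sum]
      refine Finset.sum_congr rfl fun z _ => ?_
      rw [Derivation.leibniz, tw_rl, tw_dlp]
      simp only [smul_eq_mul]
      ring
    rw [Finset.sum_congr rfl (fun k _ => h1 k), Finset.sum_comm, hF, Finset.mul_sum]
    refine Finset.sum_congr rfl fun z _ => ?_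
    rw [← Finset.mul_sum]
    change rename Sum.inr (b z) * (C (s : K) * twL (y z) ^ (s - 1)) * twL (y z) = _
    rcases Nat.eq_zero_or_pos s with hs | hs
    · rw [hs]; simp
    · have h2 : twL (y z) ^ (s - 1) * twL (y z) = twL (y z) ^ s := by
        rw [← pow_succ]
        congr 1
        omega
      rw [← h2]
      ring) (by
    -- Euler, second group
    have h1 : ∀ k : Fin N, X (Sum.inr k) * pderiv (Sum.inr k) F =
        ∑ z ∈ T, rename Sum.inr (X k * pderiv k (b z)) * twL (y z) ^ s := by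
      intro k
      rw [hF, map_sum, Finset.mul_sum]
      refine Finset.sum_congr rfl fun z _ => ?_
      rw [Derivation.leibniz, tw_rr, tw_drp, map_mul, rename_X]
      simp only [smul_eq_mul]
      ring
    rw [Finset.sum_congr rfl (fun k _ => h1 k), Finset.sum_comm, hF, Finset.mul_sum]
    refine Finset.sum_congr rfl fun z hz => ?_
    rw [← Finset.sum_mul, ← map_sum, (hbh z hz).sum_X_mul_pderiv]
    simp only [nsmul_eq_mul, map_mul, map_natCast]
    ring) (by
    -- Laplacian
    have h1 : ∀ k : Fin N, pderiv (Sum.inl k) (pderiv (Sum.inr k) F) =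
        ∑ z ∈ T, (C (s : K) * twL (y z) ^ (s - 1)) *
          rename Sum.inr (C (y z k) * pderiv k (b z)) := by
      intro k
      rw [hF, map_sum, map_sum]
      refine Finset.sum_congr rfl fun z _ => ?_
      rw [Derivation.leibniz, tw_rr, tw_drp, smul_zero, zero_add, smul_eq_mul,
        Derivation.leibniz, tw_rl, tw_dlp, map_mul, rename_C]
      simp only [smul_eq_mul]
      ring
    have h2 : ∀ k : Fin N, rename Sum.inr (pderiv k Q) * pderiv (Sum.inl k) F =
        ∑ z ∈ T, (C (s : K) * twL (y z) ^ (s - 1)) * rename Sum.inr (b z) *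
          rename Sum.inr (C (y z k) * pderiv k Q) := by
      intro k
      rw [hF, map_sum, Finset.mul_sum]
      refine Finset.sum_congr rfl fun z _ => ?_
      rw [Derivation.leibniz, tw_rl, tw_dlp, map_mul, rename_C]
      simp only [smul_eq_mul]
      ring
    rw [Finset.sum_congr rfl (fun k _ => h1 k), Finset.sum_congr rfl (fun k _ => h2 k),
      Finset.sum_comm, Finset.sum_comm (s := Finset.univ) (t := T), Finset.mul_sum]
    refine Finset.sum_congr rfl fun z hz => ?_
    rw [← Finset.mul_sum, ← Finset.mul_sum, ← map_sum, ← map_sum]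
    change rename Sum.inr Q * (C (s : K) * twL (y z) ^ (s - 1) * rename Sum.inr (dirP (y z) (b z))) =
      C (s : K) * twL (y z) ^ (s - 1) * rename Sum.inr (b z) * rename Sum.inr (dirP (y z) Q)
    have h3 := congrArg (rename (Sum.inr : Fin N → Fin N ⊕ Fin N)) (hflat z hz)
    rw [map_mul, map_mul] at h3
    linear_combination (C (s : K) * twL (y z) ^ (s - 1)) * h3) hdvd
  refine ⟨a, G, ha1, has, hnum, fun lam x => ?_⟩
  have h1 := hevF (Sum.elim lam x)
  rw [hFG, map_mul, map_pow] at h1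
  simp only [Sum.elim_inl, Sum.elim_comp_inr] at h1
  rw [← h1]
  congr 2
  unfold quadF
  rw [map_sum]
  exact Finset.sum_congr rfl fun k _ => by rw [map_mul, eval_X, eval_X]; rfl

end Geproci
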