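import Pool.Agent.Work.MP_efd9e3_ag.Co.DvAdd
import Pool.Agent.Work.MP_efd9e3_ag.Co.LinPar
import Pool.Agent.Work.MP_efd9e3_ag.Co.TwSys
import Pool.Agent.Work.MP_efd9e3_ag.Fl.RelExt

/-! MODULE FSys (MP_efd9e3_ag/Co), helper69.  The system of the lowest terms along a subspace. -/

set_option autoImplicit false

open MvPolynomial

namespace Geproci

variable {K : Type*} [Field K] {N M e s r : ℕ} {ι : Type*}

private theorem FSys_dot (φ : (Fin N → K) →ₗ[K] (Fin M → K)) (lam : Fin M → K) (v : Fin N → K) :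
    ∑ k, (∑ j, lam j * φ (Pi.single k 1) j) * v k = ∑ j, lam j * φ v j := by
  have hv : v = ∑ k, v k • (Pi.single k 1 : Fin N → K) := by
    funext i
    simp [Finset.sum_apply, Pi.single_apply]
  conv_rhs => rw [hv]
  simp only [map_sum, map_smul, Finset.sum_apply, Pi.smul_apply, smul_eq_mul, Finset.mul_sum,
    Finset.sum_mul]
  rw [Finset.sum_comm]
  exact Finset.sum_congr rfl fun j _ => Finset.sum_congr rfl fun k _ => by ring

/-- functionals extend from `range φ` -/
theorem exists_ext (φ : (Fin N → K) →ₗ[K] (Fin M → K)) (hφ : Function.Injective φ) (lam : Fin N → K) :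
    ∃ lam' : Fin M → K, ∀ v, ∑ j, lam' j * φ v j = ∑ k, lam k * v k := by
  obtain ⟨ψ, hψ⟩ := φ.exists_leftInverse_of_injective (LinearMap.ker_eq_bot.2 hφ)
  refine ⟨fun j => ∑ k, lam k * ψ (Pi.single j 1) k, fun v => ?_⟩
  rw [FSys_dot ψ lam (φ v)]
  have : ψ (φ v) = v := by
    have := congrArg (fun f => f v) hψ
    simpa using this
  rw [this]

/-- the lowest coefficient of the directional derivative in a direction of `range φ` -/
theorem coeff_line_dirP (φ : (Fin N → K) →ₗ[K] (Fin M → K)) (v : Fin M → K) (c : MvPolynomial (Fin M) K)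
    (x w : Fin N → K) (i : ℕ) :
    (i.factorial : K) * (line (φ x) v (dirP (φ w) c)).coeff i =
      eval x (dirP w (compL φ (dv v i c))) := by
  rw [coeff_line, dirP_compL, eval_compL]
  congr 1
  have h1 : ∀ i, dv v i (dirP (φ w) c) = dirP (φ w) (dv v i c) := by
    intro i
    induction i with
    | zero => rfl
    | succ i ih => rw [dv_succ, ih, dirP_comm, dv_succ]
  exact h1 i

theorem prodL_hom (l : Fin e → Fin M → K) : (prodL l).IsHomogeneous e := by
  have h1 : (∏ j, linf (l j)).IsHomogeneous (∑ _j : Fin e, 1) :=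
    IsHomogeneous.prod _ _ _ fun j _ => linf_hom (l j)
  simpa [prodL] using h1

theorem f_sys [IsAlgClosed K] [CharZero K] [Fintype ι] (hN : 2 ≤ N) (y : ι → Fin M → K)
    (c : ι → MvPolynomial (Fin M) K) (l : Fin e → Fin M → K) (h : QSys s r e y c l)
    (φ : (Fin N → K) →ₗ[K] (Fin M → K)) (hφ : Function.Injective φ) (v : Fin M → K)
    (hv : Good c l v) (o : ℕ) (ho : ∀ z, o ≤ ordV φ v (c z)) (T : Finset ι) (hT : T.Nonempty)
    (hTo : ∀ z, z ∈ T ↔ ordV φ v (c z) = o) (y' : ι → Fin N → K) (hy' : ∀ z ∈ T, φ (y' z) = y z) :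
    ∃ (a : ℕ) (G : MvPolynomial (Fin N ⊕ Fin N) K), 1 ≤ a ∧ a ≤ s ∧
      a + M + o = N + 1 + (zer φ l).card ∧
      (∀ z ∈ T, compL φ (dv v o (c z)) ≠ 0) ∧
      (∀ a : ι → K, (∀ lam : Fin N → K, ∑ z ∈ T, a z * (∑ k, lam k * y' z k) ^ s = 0) →
        ∀ z ∈ T, a z = 0) ∧
      ∀ lam x : Fin N → K, ∑ z ∈ T, eval x (compL φ (dv v o (c z))) * (∑ k, lam k * y' z k) ^ s =
        (∑ k, lam k * x k) ^ a * eval (Sum.elim lam x) G := by
  classical
  have hinf : Infinite K := IsAlgClosed.instInfinite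
  obtain ⟨z₁, hz₁⟩ := hT
  have hor : o ≤ r := by
    rw [← (hTo z₁).1 hz₁]
    exact (ordV_spec φ v (c z₁) r (h.hom z₁) (hv.1 z₁)).2
  have hne : ∀ z ∈ T, compL φ (dv v o (c z)) ≠ 0 := by
    intro z hz
    have := (ordV_spec φ v (c z) r (h.hom z) (hv.1 z)).1
    rwa [(hTo z).1 hz] at this
  have hzero : ∀ z, z ∉ T → compL φ (dv v o (c z)) = 0 := by
    intro z hz
    apply ordV_lt
    refine lt_of_le_of_ne (ho z) fun heq => hz ((hTo z).2 heq.symm)
  set q := (zer φ l).card with hq
  set Q : MvPolynomial (Fin N) K := compL φ (dv v q (prodL l)) with hQ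
  have hqe : q ≤ e := by
    have := Finset.card_le_univ (zer φ l)
    rwa [Fintype.card_fin] at this
  have hQh : Q.IsHomogeneous (e - q) := compL_hom φ _ _ (dv_hom v _ _ (prodL_hom l) q)
  have hQ0 : Q ≠ 0 := by
    obtain ⟨x, -, hx⟩ := exists_generic φ l (1 : MvPolynomial (Fin N) K) one_ne_zero
    intro hcon
    have h1 := coeff_line (φ x) v (prodL l) q
    rw [← eval_compL, ← hQ, hcon, map_zero] at h1
    exact mul_ne_zero (Nat.cast_ne_zero.2 (Nat.factorial_ne_zero q)) (coeff_zer_ne φ v l hv.2 x hx) h1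
  have hQlt : ∀ i, i < q → compL φ (dv v i (prodL l)) = 0 := by
    intro i hi
    apply MvPolynomial.funext
    intro x
    rw [eval_compL, ← coeff_line, map_zero]
    have h1 := X_pow_zer_dvd φ v l hv.2 x
    rw [Polynomial.X_pow_dvd_iff] at h1
    rw [h1 i hi, mul_zero]
  -- the flat identity
  have hflat : ∀ z ∈ T, Q * dirP (y' z) (compL φ (dv v o (c z))) =
      compL φ (dv v o (c z)) * dirP (y' z) Q := by
    intro z hz
    apply MvPolynomial.funext
    intro x
    have h1 := congrArg (line (φ x) v) (h.flat z)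
    rw [map_mul, map_mul, ← hy' z hz] at h1
    have hd1 : Polynomial.X ^ q ∣ line (φ x) v (prodL l) := X_pow_zer_dvd φ v l hv.2 x
    have hd2 : Polynomial.X ^ o ∣ line (φ x) v (dirP (φ (y' z)) (c z)) := by
      rw [Polynomial.X_pow_dvd_iff]
      intro i hi
      have h2 := coeff_line_dirP φ v (c z) x (y' z) i
      rw [ordV_lt φ v (c z) i (lt_of_lt_of_le hi (ho z)), ← C_0, dirP_C, map_zero] at h2
      exact (mul_eq_zero.1 h2).resolve_left (Nat.cast_ne_zero.2 (Nat.factorial_ne_zero i))
    have hd3 : Polynomial.X ^ o ∣ line (φ x) v (c z) := X_pow_dvd_line φ v (c z) x o (ho z)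
    have hd4 : Polynomial.X ^ q ∣ line (φ x) v (dirP (φ (y' z)) (prodL l)) := by
      rw [Polynomial.X_pow_dvd_iff]
      intro i hi
      have h2 := coeff_line_dirP φ v (prodL l) x (y' z) i
      rw [hQlt i hi, ← C_0, dirP_C, map_zero] at h2
      exact (mul_eq_zero.1 h2).resolve_left (Nat.cast_ne_zero.2 (Nat.factorial_ne_zero i))
    have h2 : (line (φ x) v (prodL l) * line (φ x) v (dirP (φ (y' z)) (c z))).coeff (q + o) =
        (line (φ x) v (c z) * line (φ x) v (dirP (φ (y' z)) (prodL l))).coeff (q + o) := by rw [h1]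
    rw [coeff_mul_low _ _ _ _ hd1 hd2, add_comm q o, coeff_mul_low _ _ _ _ hd3 hd4] at h2
    have e1 := coeff_line (φ x) v (prodL l) q
    have e2 := coeff_line_dirP φ v (c z) x (y' z) o
    have e3 := coeff_line (φ x) v (c z) o
    have e4 := coeff_line_dirP φ v (prodL l) x (y' z) q
    rw [← eval_compL] at e1 e3
    rw [map_mul, map_mul, hQ, ← e1, ← e2, ← e3, ← e4]
    linear_combination ((q.factorial : K) * (o.factorial : K)) * h2
  -- the relation
  have hrel : ∀ lam p : Fin N → K, ∑ k, lam k * p k = 0 →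
      ∑ z ∈ T, eval p (compL φ (dv v o (c z))) * (∑ k, lam k * y' z k) ^ s = 0 := by
    refine rel_ext hN s T y' _ (X ⟨0, by omega⟩) (X_ne_zero _) fun lam x hlx hx0 => ?_
    rw [eval_X] at hx0
    obtain ⟨lam', hlam'⟩ := exists_ext φ hφ lam
    obtain ⟨β, hβ⟩ := exists_ext φ hφ (Pi.single ⟨0, by omega⟩ 1)
    have hβx : ∑ j, β j * φ x j = x ⟨0, by omega⟩ := by
      rw [hβ, Finset.sum_eq_single ⟨0, by omega⟩]
      · rw [Pi.single_eq_same, one_mul]
      · intro b _ hb
        rw [Pi.single_eq_of_ne hb, zero_mul]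
      · simp
    have hlx' : ∑ j, lam' j * φ x j = 0 := by rw [hlam', hlx]
    set bv := ∑ j, β j * v j with hbv
    set lv := ∑ j, lam' j * v j with hlv
    set P : ι → Polynomial K := fun z =>
      (Polynomial.C (x ⟨0, by omega⟩) + Polynomial.C bv * Polynomial.X) *
        Polynomial.C (∑ j, lam' j * y z j) -
      Polynomial.C lv * Polynomial.X * Polynomial.C (∑ j, β j * y z j) with hP
    have hid : ∑ z, line (φ x) v (c z) * P z ^ s = 0 := by
      apply Polynomial.funext
      intro t
      rw [Polynomial.eval_finsetSum, Polynomial.eval_zero]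
      have h1 := h.rel (fun j => (∑ i, β i * (φ x i + t * v i)) * lam' j -
        (∑ i, lam' i * (φ x i + t * v i)) * β j) (fun j => φ x j + t * v j) (by
          simp only [sub_mul, Finset.sum_sub_distrib, mul_assoc, ← Finset.mul_sum]
          ring)
      rw [← h1]
      refine Finset.sum_congr rfl fun z _ => ?_
      rw [Polynomial.eval_mul, Polynomial.eval_pow, eval_line]
      congr 2
      have e1 : ∀ g : Fin M → K, ∑ i, g i * (φ x i + t * v i) = ∑ i, g i * φ x i + t * ∑ i, g i * v i := by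
        intro g
        rw [Finset.mul_sum, ← Finset.sum_add_distrib]
        exact Finset.sum_congr rfl fun i _ => by ring
      rw [e1, e1, hβx, hlx']
      simp only [sub_mul, Finset.sum_sub_distrib, mul_assoc, ← Finset.mul_sum]
      simp only [hP, Polynomial.eval_sub, Polynomial.eval_mul, Polynomial.eval_add, Polynomial.eval_C,
        Polynomial.eval_X]
      ring
    have h2 := congrArg (fun t => Polynomial.coeff t o) hid
    simp only [Polynomial.finsetSum_coeff, Polynomial.coeff_zero] at h2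
    have h3 : ∀ z, (line (φ x) v (c z) * P z ^ s).coeff o = (line (φ x) v (c z)).coeff o *
        (x ⟨0, by omega⟩ * ∑ j, lam' j * y z j) ^ s := by
      intro z
      have h4 := coeff_mul_low (line (φ x) v (c z)) (P z ^ s) o 0
        (X_pow_dvd_line φ v (c z) x o (ho z)) (one_dvd _)
      rw [add_zero] at h4
      rw [h4, Polynomial.coeff_zero_eq_eval_zero (P z ^ s), Polynomial.eval_pow]
      congr 2
      simp only [hP, Polynomial.eval_sub, Polynomial.eval_mul, Polynomial.eval_add, Polynomial.eval_C,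
        Polynomial.eval_X]
      ring
    simp only [h3] at h2
    have h5 : x ⟨0, by omega⟩ ^ s * ∑ z ∈ T, eval x (compL φ (dv v o (c z))) *
        (∑ k, lam k * y' z k) ^ s = 0 := by
      have h6 : (o.factorial : K) * ∑ z, (line (φ x) v (c z)).coeff o *
          (x ⟨0, by omega⟩ * ∑ j, lam' j * y z j) ^ s = 0 := by rw [h2, mul_zero]
      rw [Finset.mul_sum, ← Finset.sum_subset (Finset.subset_univ T)] at h6
      · rw [← h6, Finset.mul_sum]
        refine Finset.sum_congr rfl fun z hz => ?_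
        rw [eval_compL, ← coeff_line, ← hy' z hz, hlam']
        ring
      · intro z _ hz
        have h7 := coeff_line (φ x) v (c z) o
        rw [← eval_compL, hzero z hz, map_zero] at h7
        rw [← mul_assoc, h7, zero_mul]
    exact (mul_eq_zero.1 h5).resolve_left (pow_ne_zero _ hx0)
  -- independence
  have hind : ∀ a : ι → K, (∀ lam : Fin N → K, ∑ z ∈ T, a z * (∑ k, lam k * y' z k) ^ s = 0) →
      ∀ z ∈ T, a z = 0 := by
    intro a ha z hz
    have h1 := h.ind (fun z => if z ∈ T then a z else 0) (fun lam => by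
      refine Eq.trans ?_ (ha (fun k => ∑ j, lam j * φ (Pi.single k 1) j))
      rw [← Finset.sum_subset (Finset.subset_univ T)]
      · refine Finset.sum_congr rfl fun z hz => ?_
        rw [if_pos hz, FSys_dot, hy' z hz]
      · intro z _ hz'
        rw [if_neg hz', zero_mul]) z
    rwa [if_pos hz] at h1
  obtain ⟨a, G, ha1, has, hnum, hG⟩ := tw_sys hN s (r - o) (e - q) T ⟨z₁, hz₁⟩ y'
    (fun z => compL φ (dv v o (c z))) (fun z _ => compL_hom φ _ _ (dv_hom v _ _ (h.hom z) o)) hne
    hrel hind Q hQ0 hQh hflat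
  refine ⟨a, G, ha1, has, ?_, hne, hind, hG⟩
  have hdeg := h.deg
  omega

end Geproci
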