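import Pool.Agent.Work.MP_efd9e3_ag.Co.Line

/-! MODULE HomMul (MP_efd9e3_ag/Co), helper69.  The factors of a homogeneous polynomial are homogeneous. -/

set_option autoImplicit false

open MvPolynomial

namespace Geproci

variable {K : Type*} [Field K] {M : ℕ}

theorem coeff_line_zero [Infinite K] (v : Fin M → K) (a : MvPolynomial (Fin M) K) (i : ℕ) :
    (line 0 v a).coeff i = eval v (homogeneousComponent i a) := by
  conv_lhs => rw [← sum_homogeneousComponent a, map_sum, Polynomial.finsetSum_coeff]
  have h1 : ∀ j, (line 0 v (homogeneousComponent j a)).coeff i =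
      if i = j then eval v (homogeneousComponent j a) else 0 := by
    intro j
    rw [line_zero_left v _ j (homogeneousComponent_isHomogeneous j a), Polynomial.coeff_C_mul,
      Polynomial.coeff_X_pow]
    split_ifs with h <;> simp
  simp only [h1]
  rw [Finset.sum_ite_eq]
  split_ifs with h
  · rfl
  · rw [Finset.mem_range] at h
    rw [homogeneousComponent_eq_zero _ _ (by omega), map_zero]

theorem hom_mul [Infinite K] (a b : MvPolynomial (Fin M) K) (t : ℕ) (h : (a * b).IsHomogeneous t)
    (ha : a ≠ 0) (hb : b ≠ 0) : ∃ i, a.IsHomogeneous i := by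
  obtain ⟨i, hi⟩ : ∃ i, homogeneousComponent i a ≠ 0 := by
    by_contra hcon
    push Not at hcon
    apply ha
    rw [← sum_homogeneousComponent a]
    exact Finset.sum_eq_zero fun i _ => hcon i
  refine ⟨i, ?_⟩
  have huniq : ∀ j, j ≠ i → homogeneousComponent j a = 0 := by
    intro j hji
    by_contra hj
    have h1 : homogeneousComponent i a * homogeneousComponent j a * (a * b) ≠ 0 :=
      mul_ne_zero (mul_ne_zero hi hj) (mul_ne_zero ha hb)
    obtain ⟨v, hv⟩ : ∃ v, eval v (homogeneousComponent i a * homogeneousComponent j a * (a * b)) ≠ 0 := by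
      by_contra hcon
      push Not at hcon
      exact h1 (MvPolynomial.funext fun x => by rw [hcon x, map_zero])
    rw [map_mul, map_mul] at hv
    have hvi := left_ne_zero_of_mul (left_ne_zero_of_mul hv)
    have hvj := right_ne_zero_of_mul (left_ne_zero_of_mul hv)
    have hvab := right_ne_zero_of_mul hv
    have h2 := line_zero_left v (a * b) t h
    rw [map_mul] at h2
    have h3 : line 0 v a ∣ Polynomial.X ^ t := by
      refine ⟨line 0 v b * Polynomial.C (eval v (a * b))⁻¹, ?_⟩
      rw [← mul_assoc, h2]
      have h4 : Polynomial.C (eval v (a * b)) * Polynomial.C (eval v (a * b))⁻¹ = (1 : Polynomial K) := by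
        rw [← map_mul, mul_inv_cancel₀ hvab, map_one]
      linear_combination -(Polynomial.X ^ t : Polynomial K) * h4
    obtain ⟨k, -, u, hu⟩ := (dvd_prime_pow Polynomial.prime_X t).1 h3
    obtain ⟨w, hw, hwu⟩ := Polynomial.isUnit_iff.1 u.isUnit
    have h5 : ∀ m, m ≠ k → (line 0 v a).coeff m = 0 := by
      intro m hmk
      have h6 := congrArg (fun q => Polynomial.coeff q m) hu
      simp only [← hwu, Polynomial.coeff_mul_C, Polynomial.coeff_X_pow, if_neg hmk] at h6
      exact (mul_eq_zero.1 h6).resolve_right hw.ne_zero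
    simp only [coeff_line_zero] at h5
    have h6 : i = k := by
      by_contra hik
      exact hvi (h5 i hik)
    have h7 : j = k := by
      by_contra hjk
      have := h5 j hjk
      exact hvj this
    exact hji (h7.trans h6.symm)
  rw [← sum_homogeneousComponent a]
  refine IsHomogeneous.sum _ _ _ fun j _ => ?_
  by_cases hj : j = i
  · rw [hj]
    exact homogeneousComponent_isHomogeneous i a
  · rw [huniq j hj]
    exact isHomogeneous_zero _ _ _

theorem hom_mul_degree [Infinite K] (a b : MvPolynomial (Fin M) K) (t i : ℕ)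
    (h : (a * b).IsHomogeneous t) (ha : a ≠ 0) (hb : b ≠ 0) (hai : a.IsHomogeneous i) :
    ∃ j, b.IsHomogeneous j ∧ i + j = t := by
  obtain ⟨j, hj⟩ := hom_mul b a t (by rwa [mul_comm]) hb ha
  refine ⟨j, hj, ?_⟩
  have h1 := hai.mul hj
  exact h1.inj_right h (mul_ne_zero ha hb)

end Geproci
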