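import Pool.Agent.Work.MP_efd9e3_ag.Fl.HypPar
import Pool.Agent.Work.MP_efd9e3_ag.Co.LinPar

/-! MODULE HypLin (MP_efd9e3_ag/Co), helper69.  The hyperplane `W` as the zero set of a linear form. -/

set_option autoImplicit false

open MvPolynomial

namespace Geproci

variable {K : Type*} [Field K] {N : ℕ} {ι : Type*}

private theorem HypLin_fun (f : (Fin N → K) →ₗ[K] K) (v : Fin N → K) :
    f v = ∑ k, f (Pi.single k 1) * v k := by
  have : v = ∑ j, v j • (Pi.single j 1 : Fin N → K) := by
    funext i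
    simp [Finset.sum_apply, Pi.single_apply]
  conv_lhs => rw [this]
  rw [map_sum]
  exact Finset.sum_congr rfl fun j _ => by rw [map_smul, smul_eq_mul, mul_comm]

theorem hyp_lin [IsAlgClosed K] (S : MvPolynomial (Fin N) K) (hS : Irreducible S)
    (W : Submodule K (Fin N → K)) (hW : W ≠ ⊤)
    (h : ∀ l : Fin N → K, (∀ w ∈ W, ∑ k, l k * w k = 0) → S ∣ linf l) :
    ∃ l : Fin N → K, l ≠ 0 ∧ (∀ v, v ∈ W ↔ ∑ k, l k * v k = 0) ∧
      ∀ q, S ∣ q → linf l ∣ q := by
  classical
  have hinf : Infinite K := IsAlgClosed.instInfinite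
  obtain ⟨L, hL0, hLW⟩ := Submodule.exists_le_ker_of_lt_top W (lt_top_iff_ne_top.2 hW)
  set l : Fin N → K := fun k => L (Pi.single k 1) with hl
  have hLl : ∀ v, L v = ∑ k, l k * v k := HypLin_fun L
  obtain ⟨b, hb⟩ := h l (fun w hw => by
    rw [← hLl]
    exact LinearMap.mem_ker.1 (hLW hw))
  have hl0 : l ≠ 0 := by
    intro h0
    apply hL0
    refine LinearMap.ext fun v => ?_
    rw [hLl, h0]
    simp
  have hlin0 : linf l ≠ 0 := linf_ne_zero l hl0
  have hb0 : b ≠ 0 := by
    rintro rfl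
    exact hlin0 (by rw [hb, mul_zero])
  have hdeg : 1 ≤ S.totalDegree := by
    by_contra hcon
    have h0 : S.totalDegree = 0 := by omega
    rw [totalDegree_eq_zero_iff_eq_C] at h0
    apply hS.not_isUnit
    rw [h0]
    apply IsUnit.map C
    rw [isUnit_iff_ne_zero]
    intro h00
    apply hS.ne_zero
    rw [h0, h00, C_0]
  have hbd : b.totalDegree = 0 := by
    have h1 : (linf l).totalDegree = S.totalDegree + b.totalDegree := by
      rw [hb]
      exact totalDegree_mul_of_isDomain hS.ne_zero hb0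
    have h2 : (linf l).totalDegree ≤ 1 := (linf_hom l).totalDegree_le
    omega
  rw [totalDegree_eq_zero_iff_eq_C] at hbd
  set a := coeff 0 b with ha
  have ha0 : a ≠ 0 := by
    intro h0
    apply hb0
    rw [hbd, h0, C_0]
  have hSl : ∀ x, ∑ k, l k * x k = a * eval x S := by
    intro x
    rw [← eval_linf, hb, map_mul, hbd, eval_C, mul_comm]
  refine ⟨l, hl0, fun v => ⟨fun hv => ?_, fun hv => ?_⟩, fun q hq => ?_⟩
  · rw [← hLl]
    exact LinearMap.mem_ker.1 (hLW hv)
  · by_contra hvW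
    obtain ⟨f, hf1, hf2⟩ := Submodule.exists_le_ker_of_notMem hvW
    obtain ⟨b', hb'⟩ := h (fun k => f (Pi.single k 1)) (fun w hw => by
      rw [← HypLin_fun f]
      exact LinearMap.mem_ker.1 (hf2 hw))
    apply hf1
    have hSv : eval v S = 0 := by
      have := hSl v
      rw [hv] at this
      exact (mul_eq_zero.1 this.symm).resolve_left ha0
    rw [HypLin_fun f, ← eval_linf (fun k => f (Pi.single k 1)), hb', map_mul, hSv, zero_mul]
  · refine dvd_trans ⟨C a⁻¹, ?_⟩ hq
    rw [hb, hbd, mul_assoc, ← map_mul, mul_inv_cancel₀ ha0, map_one, mul_one]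

end Geproci
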