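import Pool.Agent.Work.MP_efd9e3_ag.Fl.DirP

/-! MODULE LinMult (MP_efd9e3_ag/Co), helper69.  If `y z₀` is in the span of the `y z` with `S ∤ c z`, then the order
of `dirP (y z₀) (c z₀)` at `S` is at least the order of `c z₀`. -/

set_option autoImplicit false

open MvPolynomial

namespace Geproci

variable {K : Type*} [Field K] {N : ℕ} {ι : Type*}

private theorem LinMult_split {R : Type*} [CommRing R] [IsDomain R] [UniqueFactorizationMonoid R]
    (S P : R) (hS : Irreducible S) (hP : P ≠ 0) : ∃ (l : ℕ) (w : R), P = S ^ l * w ∧ ¬ S ∣ w := by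
  have hfin : FiniteMultiplicity S P := FiniteMultiplicity.of_not_isUnit hS.not_isUnit hP
  obtain ⟨w, hw⟩ := hfin.exists_eq_pow_mul_and_not_dvd
  exact ⟨_, w, hw.1, hw.2⟩

/-- the linearity property of a system -/
def LinP [Fintype ι] (y : ι → Fin N → K) (c : ι → MvPolynomial (Fin N) K) : Prop :=
  ∀ [DecidableEq ι] (t : ι → K), ∑ z, t z • y z = 0 →
    ∑ z, C (t z) * dirP (y z) (c z) * ∏ z' ∈ Finset.univ.erase z, c z' = 0

theorem lin_mult [Fintype ι] (y : ι → Fin N → K) (c : ι → MvPolynomial (Fin N) K)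
    (hne : ∀ z, c z ≠ 0) (hlin : LinP y c) (S : MvPolynomial (Fin N) K) (hS : Irreducible S) (z₀ : ι)
    (hsp : y z₀ ∈ Submodule.span K (y '' {z | ¬ S ∣ c z})) (k : ℕ) (hk : S ^ k ∣ c z₀) :
    S ^ k ∣ dirP (y z₀) (c z₀) := by
  classical
  have hp : Prime S := UniqueFactorizationMonoid.irreducible_iff_prime.1 hS
  by_cases hSz : S ∣ c z₀
  · -- the coefficients
    obtain ⟨t, ht, htz⟩ : ∃ t : ι → K, (∀ z, t z ≠ 0 → ¬ S ∣ c z) ∧
        ∑ z, t z • y z = y z₀ := by
      rw [Finsupp.mem_span_image_iff_linearCombination] at hsp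
      obtain ⟨l, hl, hly⟩ := hsp
      rw [Finsupp.mem_supported] at hl
      refine ⟨l, fun z hz => ?_, ?_⟩
      · have := hl (Finset.mem_coe.2 (Finsupp.mem_support_iff.2 hz))
        exact this
      · rw [← hly, Finsupp.linearCombination_apply, Finsupp.sum]
        symm
        apply Finset.sum_subset
        · exact Finset.subset_univ _
        · intro z _ hz
          rw [Finsupp.notMem_support_iff.1 hz, zero_smul]
    have ht0 : t z₀ = 0 := by
      by_contra hcon
      exact ht z₀ hcon hSz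
    have h1 := hlin (fun z => t z - (if z = z₀ then 1 else 0)) (by
      simp only [sub_smul, Finset.sum_sub_distrib, ite_smul, one_smul, zero_smul,
        Finset.sum_ite_eq', if_pos (Finset.mem_univ z₀), htz, sub_self])
    simp only [C_sub, sub_mul, Finset.sum_sub_distrib] at h1
    have h2 : ∑ z, C (if z = z₀ then (1:K) else 0) * dirP (y z) (c z) *
        ∏ z' ∈ Finset.univ.erase z, c z' =
          dirP (y z₀) (c z₀) * ∏ z' ∈ Finset.univ.erase z₀, c z' := by
      rw [Finset.sum_eq_single z₀]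
      · rw [if_pos rfl, C_1, one_mul]
      · intro z _ hz
        rw [if_neg hz, C_0, zero_mul, zero_mul]
      · intro hcon
        exact absurd (Finset.mem_univ _) hcon
    rw [h2, sub_eq_zero] at h1
    have hPne : (∏ z' ∈ Finset.univ.erase z₀, c z') ≠ 0 :=
      Finset.prod_ne_zero_iff.2 fun z _ => hne z
    obtain ⟨l, w, hw, hSw⟩ := LinMult_split S _ hS hPne
    have h3 : S ^ (k + l) ∣ ∑ z, C (t z) * dirP (y z) (c z) * ∏ z' ∈ Finset.univ.erase z, c z' := by
      refine Finset.dvd_sum fun z hz => ?_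
      by_cases htz0 : t z = 0
      · rw [htz0, C_0, zero_mul, zero_mul]
        exact dvd_zero _
      · have hSz' := ht z htz0
        refine Dvd.dvd.mul_left ?_ _
        have h4 : c z * ∏ z' ∈ Finset.univ.erase z, c z' = c z₀ * (S ^ l * w) := by
          rw [← hw, Finset.mul_prod_erase Finset.univ c hz,
            Finset.mul_prod_erase Finset.univ c (Finset.mem_univ z₀)]
        have h5 : S ^ (k + l) ∣ c z * ∏ z' ∈ Finset.univ.erase z, c z' := by
          rw [h4, pow_add]
          exact mul_dvd_mul hk (Dvd.intro _ rfl)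
        exact hp.pow_dvd_of_dvd_mul_left (k + l) hSz' h5
    rw [h1, hw] at h3
    have h6 : S ^ l * S ^ k ∣ S ^ l * (dirP (y z₀) (c z₀) * w) := by
      rw [← pow_add, add_comm l k]
      have : S ^ l * (dirP (y z₀) (c z₀) * w) = dirP (y z₀) (c z₀) * (S ^ l * w) := by ring
      rw [this]
      exact h3
    have h7 := (mul_dvd_mul_iff_left (pow_ne_zero l hS.ne_zero)).1 h6
    exact hp.pow_dvd_of_dvd_mul_right k hSw h7
  · have hk0 : k = 0 := by
      by_contra hcon
      exact hSz (dvd_trans (dvd_pow_self S hcon) hk)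
    rw [hk0, pow_zero]
    exact one_dvd _

/-- One linear form can be split off. -/
theorem lin_div [Infinite K] [Fintype ι] (y : ι → Fin N → K) (b b' : ι → MvPolynomial (Fin N) K)
    (l : Fin N → K) (hl : linf l ≠ 0)
    (h1 : ∀ z, ∑ k, l k * y z k = 0 → b z = b' z)
    (h2 : ∀ z, ∑ k, l k * y z k ≠ 0 → b z = linf l * b' z) (hlin : LinP y b) : LinP y b' := by
  intro _ t ht
  classical
  set w : ι → MvPolynomial (Fin N) K := fun z => if ∑ k, l k * y z k = 0 then 1 else linf l with hw
  have hb : ∀ z, b z = w z * b' z := by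
    intro z
    by_cases hz : ∑ k, l k * y z k = 0
    · rw [h1 z hz, hw]
      simp only [if_pos hz, one_mul]
    · rw [h2 z hz, hw]
      simp only [if_neg hz]
  have hdl : ∀ v : Fin N → K, dirP v (linf l) = C (∑ k, l k * v k) := by
    intro v
    unfold dirP linf
    simp only [map_sum, pderiv_C_mul, pderiv_X, Pi.single_apply]
    refine Finset.sum_congr rfl fun k _ => ?_
    rw [Finset.sum_eq_single k]
    · simp [mul_comm]
    · intro j _ hj
      simp [hj]
    · simp
  have hdw : ∀ z, dirP (y z) (w z) = C (∑ k, l k * y z k) := by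
    intro z
    rw [hw]
    by_cases hz : ∑ k, l k * y z k = 0
    · simp only [if_pos hz]
      rw [← C_1, dirP_C, hz, C_0]
    · simp only [if_neg hz]
      exact hdl _
  have hwl : ∀ z, linf l * C (∑ k, l k * y z k) = C (∑ k, l k * y z k) * w z := by
    intro z
    rw [hw]
    by_cases hz : ∑ k, l k * y z k = 0
    · rw [hz, C_0, mul_zero, zero_mul]
    · simp only [if_neg hz]
      rw [mul_comm]
  have hterm : ∀ z, linf l * (C (t z) * dirP (y z) (b z) * ∏ z' ∈ Finset.univ.erase z, b z') =
      C (t z * ∑ k, l k * y z k) * ((∏ z', w z') * ∏ z', b' z') +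
      (linf l * ∏ z', w z') * (C (t z) * dirP (y z) (b' z) * ∏ z' ∈ Finset.univ.erase z, b' z') := by
    intro z
    have e1 : ∏ z' ∈ Finset.univ.erase z, b z' =
        (∏ z' ∈ Finset.univ.erase z, w z') * ∏ z' ∈ Finset.univ.erase z, b' z' := by
      rw [← Finset.prod_mul_distrib]
      exact Finset.prod_congr rfl fun z' _ => hb z'
    have e2 : ∏ z', w z' = w z * ∏ z' ∈ Finset.univ.erase z, w z' :=
      (Finset.mul_prod_erase Finset.univ w (Finset.mem_univ z)).symm
    have e3 : ∏ z', b' z' = b' z * ∏ z' ∈ Finset.univ.erase z, b' z' :=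
      (Finset.mul_prod_erase Finset.univ b' (Finset.mem_univ z)).symm
    rw [e1, e2, e3, hb z, dirP_mul, hdw, map_mul]
    linear_combination (C (t z) * b' z * (∏ z' ∈ Finset.univ.erase z, w z') *
      ∏ z' ∈ Finset.univ.erase z, b' z') * hwl z
  have h3 := hlin t ht
  have h4 : linf l * ∑ z, C (t z) * dirP (y z) (b z) * ∏ z' ∈ Finset.univ.erase z, b z' = 0 := by
    rw [h3, mul_zero]
  rw [Finset.mul_sum, Finset.sum_congr rfl (fun z _ => hterm z), Finset.sum_add_distrib,
    ← Finset.sum_mul, ← map_sum, ← Finset.mul_sum] at h4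
  have h5 : ∑ z, t z * ∑ k, l k * y z k = 0 := by
    have h6 : ∑ z, t z * ∑ k, l k * y z k = ∑ k, l k * (∑ z, t z • y z) k := by
      simp only [Finset.mul_sum, Finset.sum_apply, Pi.smul_apply, smul_eq_mul]
      rw [Finset.sum_comm]
      exact Finset.sum_congr rfl fun k _ => Finset.sum_congr rfl fun z _ => by ring
    rw [h6, ht]
    simp
  rw [h5, C_0, zero_mul, zero_add] at h4
  refine (mul_eq_zero.1 h4).resolve_left (mul_ne_zero hl (Finset.prod_ne_zero_iff.2 fun z _ => ?_))
  rw [hw]
  by_cases hz : ∑ k, l k * y z k = 0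
  · simp only [if_pos hz]
    exact one_ne_zero
  · simp only [if_neg hz]
    exact hl

end Geproci
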