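import Pool.Agent.Work.MP_efd9e3_ag.Co.Line

/-! MODULE QDefs (MP_efd9e3_ag/Co), helper69.  Systems whose connection is the logarithmic derivative of a product of
linear forms; orders along linear subspaces. -/

set_option autoImplicit false

open MvPolynomial

namespace Geproci

variable {K : Type*} [Field K] {M : ℕ} {ι : Type*}

/-- the product of the linear forms `l j` -/
noncomputable def prodL {e : ℕ} (l : Fin e → Fin M → K) : MvPolynomial (Fin M) K := ∏ j, linf (l j)

/-- A system of relations in degree `s` between the points `y z`, with coefficients `c z` which are polynomials of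
degree `r` in the centre, and whose connection is given by the product of the linear forms `l j`. -/
structure QSys [Fintype ι] (s r e : ℕ) (y : ι → Fin M → K) (c : ι → MvPolynomial (Fin M) K)
    (l : Fin e → Fin M → K) : Prop where
  span : Submodule.span K (Set.range y) = ⊤
  hom : ∀ z, (c z).IsHomogeneous r
  ne : ∀ z, c z ≠ 0
  lne : ∀ j, l j ≠ 0
  rel : ∀ lam p : Fin M → K, ∑ k, lam k * p k = 0 →
    ∑ z, eval p (c z) * (∑ k, lam k * y z k) ^ s = 0
  ind : ∀ a : ι → K, (∀ lam : Fin M → K, ∑ z, a z * (∑ k, lam k * y z k) ^ s = 0) → ∀ z, a z = 0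
  flat : ∀ z, prodL l * dirP (y z) (c z) = c z * dirP (y z) (prodL l)
  deg : e + 2 = r + s + M

/-- The direction `v` is good. -/
def Good {e : ℕ} (c : ι → MvPolynomial (Fin M) K) (l : Fin e → Fin M → K) (v : Fin M → K) : Prop :=
  (∀ z, eval v (c z) ≠ 0) ∧ ∀ j, ∑ k, l j k * v k ≠ 0

/-- the order of `c` along the subspace `range φ`, in the direction `v` -/
noncomputable def ordV {N : ℕ} (φ : (Fin N → K) →ₗ[K] (Fin M → K)) (v : Fin M → K)
    (c : MvPolynomial (Fin M) K) : ℕ :=
  sInf {m | compL φ (dv v m c) ≠ 0}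

open Classical in
/-- the set of the linear forms `l j` which vanish on `range φ` -/
noncomputable def zer {N e : ℕ} (φ : (Fin N → K) →ₗ[K] (Fin M → K)) (l : Fin e → Fin M → K) :
    Finset (Fin e) :=
  Finset.univ.filter fun j => ∀ x, ∑ k, l j k * φ x k = 0

theorem mem_zer {N e : ℕ} (φ : (Fin N → K) →ₗ[K] (Fin M → K)) (l : Fin e → Fin M → K) (j : Fin e) :
    j ∈ zer φ l ↔ ∀ x, ∑ k, l j k * φ x k = 0 := by
  simp [zer]

end Geproci
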