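import Pool.Agent.Work.MP_efd9e3_ag.Fl.SysMin
import Pool.Agent.Work.MP_efd9e3_ag.Fl.DirZero
import Pool.Agent.Work.MP_efd9e3_ag.Co.QDefs
import Pool.Agent.Work.MP_efd9e3_ag.Co.LinMult
import Pool.Agent.Work.MP_efd9e3_ag.Co.HypLin

/-! MODULE QEx (MP_efd9e3_ag/Co), helper69.  The connection of a minimal system is the logarithmic derivative of a
product of linear forms. -/

set_option autoImplicit false

open MvPolynomial

namespace Geproci

variable {K : Type*} [Field K] {N : ℕ} {ι : Type*}

theorem dirP_linf (l v : Fin N → K) : dirP v (linf l) = C (∑ k, l k * v k) := by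
  classical
  unfold dirP linf
  simp only [map_sum, pderiv_C_mul, pderiv_X, Pi.single_apply]
  refine Finset.sum_congr rfl fun k _ => ?_
  rw [Finset.sum_eq_single k]
  · simp [mul_comm]
  · intro j _ hj
    simp [hj]
  · simp

theorem q_ex [IsAlgClosed K] [Fintype ι] (s : ℕ) (y : ι → Fin N → K)
    (c : ι → MvPolynomial (Fin N) K) (h : Sys s Finset.univ y c)
    (hmin : ∀ S : MvPolynomial (Fin N) K, Irreducible S → ∃ z, ¬ S ∣ c z)
    (b : ι → MvPolynomial (Fin N) K) (hb0 : ∀ z, b z ≠ 0) (hlin : LinP y b) (hbc : ∀ z, b z ∣ c z) :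
    ∃ (e : ℕ) (l : Fin e → Fin N → K), (∀ j, l j ≠ 0) ∧
      ∀ z, prodL l * dirP (y z) (b z) = b z * dirP (y z) (prodL l) := by
  classical
  have hinf : Infinite K := IsAlgClosed.instInfinite
  obtain ⟨D, hD⟩ : ∃ D, ∑ z, (b z).totalDegree = D := ⟨_, rfl⟩
  induction D using Nat.strong_induction_on generalizing b with
  | _ D ih =>
    by_cases hall : ∀ S : MvPolynomial (Fin N) K, Irreducible S →
        Submodule.span K (y '' {z | ¬ S ∣ b z}) = ⊤
    · refine ⟨0, fun j => j.elim0, fun j => j.elim0, fun z => ?_⟩
      have h1 : dirP (y z) (b z) = 0 := by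
        refine dirP_eq_zero (y z) (b z) (hb0 z) fun S hS k hk => ?_
        refine lin_mult y b hb0 hlin S hS z ?_ k hk
        rw [hall S hS]
        trivial
      have h2 : prodL (fun j : Fin 0 => (j.elim0 : Fin N → K)) = 1 := by
        simp [prodL]
      rw [h1, h2, ← C_1, dirP_C, mul_zero, mul_zero]
    · push Not at hall
      obtain ⟨S, hS, hW⟩ := hall
      obtain ⟨z₀, hz₀⟩ := hmin S hS
      obtain ⟨l, hl0, hlW, hlS⟩ := hyp_lin S hS (Submodule.span K (y '' {z | ¬ S ∣ b z})) hW
        (fun l hl => irr_dvd_linf s Finset.univ y c h S hS z₀ (Finset.mem_univ _) hz₀ l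
          fun z _ hz => hl (y z) (Submodule.subset_span ⟨z, fun hd => hz (dvd_trans hd (hbc z)), rfl⟩))
      have hlin0 := linf_ne_zero l hl0
      -- the quotients
      have hex : ∀ z, ∃ b' : MvPolynomial (Fin N) K, (∑ k, l k * y z k = 0 → b z = b') ∧
          (∑ k, l k * y z k ≠ 0 → b z = linf l * b') := by
        intro z
        by_cases hz : ∑ k, l k * y z k = 0
        · exact ⟨b z, fun _ => rfl, fun hcon => absurd hz hcon⟩
        · have h1 : S ∣ b z := by
            by_contra hcon
            exact hz ((hlW (y z)).1 (Submodule.subset_span ⟨z, hcon, rfl⟩))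
          obtain ⟨b', hb'⟩ := hlS _ h1
          exact ⟨b', fun hcon => absurd hcon hz, fun _ => hb'⟩
      choose b' hb1 hb2 using hex
      have hb'0 : ∀ z, b' z ≠ 0 := by
        intro z hz
        by_cases hz' : ∑ k, l k * y z k = 0
        · exact hb0 z (by rw [hb1 z hz', hz])
        · exact hb0 z (by rw [hb2 z hz', hz, mul_zero])
      have hb'd : ∀ z, b' z ∣ b z := by
        intro z
        by_cases hz' : ∑ k, l k * y z k = 0
        · rw [hb1 z hz']
        · rw [hb2 z hz']
          exact Dvd.intro_left _ rfl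
      have hlin' : LinP y b' := @lin_div K _ N ι _ _ y b b' l hlin0 hb1 hb2 @hlin
      -- the degree drops
      obtain ⟨z₁, hz₁⟩ : ∃ z, ∑ k, l k * y z k ≠ 0 := by
        by_contra hcon
        push Not at hcon
        have h1 : Submodule.span K (y '' ((Finset.univ : Finset ι) : Set ι)) ≤
            Submodule.span K (y '' {z | ¬ S ∣ b z}) := by
          rw [Submodule.span_le]
          rintro _ ⟨z, -, rfl⟩
          exact (hlW (y z)).2 (hcon z)
        rw [h.span] at h1
        exact hW (top_le_iff.1 h1)
      have hld : (linf l).totalDegree = 1 := (linf_hom l).totalDegree hlin0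
      have hlt : ∑ z, (b' z).totalDegree < D := by
        rw [← hD]
        apply Finset.sum_lt_sum
        · intro z _
          by_cases hz' : ∑ k, l k * y z k = 0
          · rw [hb1 z hz']
          · rw [hb2 z hz', totalDegree_mul_of_isDomain hlin0 (hb'0 z)]
            omega
        · refine ⟨z₁, Finset.mem_univ _, ?_⟩
          rw [hb2 z₁ hz₁, totalDegree_mul_of_isDomain hlin0 (hb'0 z₁), hld]
          omega
      obtain ⟨e, l', hl', hfl⟩ := ih _ hlt b' hb'0 @hlin' (fun z => dvd_trans (hb'd z) (hbc z)) rfl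
      refine ⟨e + 1, Fin.cons l l', fun j => ?_, fun z => ?_⟩
      · refine Fin.cases ?_ (fun i => ?_) j
        · rw [Fin.cons_zero]
          exact hl0
        · rw [Fin.cons_succ]
          exact hl' i
      · have hQ : prodL (Fin.cons l l' : Fin (e+1) → Fin N → K) = linf l * prodL l' := by
          rw [prodL, Fin.prod_univ_succ, Fin.cons_zero, prodL]
          simp only [Fin.cons_succ]
        rw [hQ, dirP_mul, dirP_linf]
        have h1 := hfl z
        by_cases hz' : ∑ k, l k * y z k = 0
        · rw [hb1 z hz', hz', C_0]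
          linear_combination linf l * h1
        · rw [hb2 z hz', dirP_mul, dirP_linf]
          linear_combination linf l * linf l * h1

end Geproci
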