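import Pool.Agent.Work.MP_efd9e3_ag.Fl.SysMin

/-! MODULE SysMinM (MP_efd9e3_ag/Co), helper69.  `sys_min` with the common factor. -/

set_option autoImplicit false

open MvPolynomial

namespace Geproci

variable {K : Type*} [Field K] {N : ℕ} {ι : Type*}

theorem sys_min_mul [Infinite K] [Fintype ι] (hN : 2 ≤ N) (s : ℕ) (y : ι → Fin N → K)
    (c : ι → MvPolynomial (Fin N) K) (h : Sys s Finset.univ y c) :
    ∃ (c' : ι → MvPolynomial (Fin N) K) (g : MvPolynomial (Fin N) K), Sys s Finset.univ y c' ∧
      (∀ z, c z = g * c' z) ∧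
      ∀ S : MvPolynomial (Fin N) K, Irreducible S → ∃ z, ¬ S ∣ c' z := by
  classical
  obtain ⟨D, hD⟩ : ∃ D, ∑ z, (c z).totalDegree = D := ⟨_, rfl⟩
  induction D using Nat.strong_induction_on generalizing c with
  | _ D ih =>
    by_cases hmin : ∀ S : MvPolynomial (Fin N) K, Irreducible S → ∃ z, ¬ S ∣ c z
    · exact ⟨c, 1, h, fun z => (one_mul _).symm, hmin⟩
    · push Not at hmin
      obtain ⟨S, hS, hSc⟩ := hmin
      choose b hb using hSc
      have h1 : Sys s Finset.univ y (fun z => S * b z) :=
        sys_congr s Finset.univ y c _ (fun z _ => hb z) h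
      have h2 := sys_cancel hN s Finset.univ y b S hS.ne_zero h1
      have hdeg : 1 ≤ S.totalDegree := by
        by_contra hcon
        have h0 : S.totalDegree = 0 := by omega
        rw [totalDegree_eq_zero_iff_eq_C] at h0
        apply hS.not_isUnit
        rw [h0]
        apply IsUnit.map C
        rw [isUnit_iff_ne_zero]
        intro h00
        apply hS.ne_zero
        rw [h0, h00, C_0]
      obtain ⟨z₀, hz₀⟩ := sys_nonempty (by omega) s Finset.univ y c h
      have hlt : ∑ z, (b z).totalDegree < D := by
        rw [← hD]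
        have hdz : ∀ z ∈ Finset.univ, (c z).totalDegree = S.totalDegree + (b z).totalDegree := by
          intro z hz
          rw [hb z]
          exact totalDegree_mul_of_isDomain hS.ne_zero (h2.ne z hz)
        apply Finset.sum_lt_sum
        · intro z hz
          rw [hdz z hz]
          omega
        · refine ⟨z₀, hz₀, ?_⟩
          rw [hdz z₀ hz₀]
          omega
      obtain ⟨c', g, h3, h4, h5⟩ := ih _ hlt b h2 rfl
      exact ⟨c', S * g, h3, fun z => by rw [hb z, h4 z, mul_assoc], h5⟩

end Geproci
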