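import Pool.Agent.Work.MP_efd9e3_ag.Fl.Ann
import Pool.Agent.Work.MP_efd9e3_ag.Fl.Der
import Pool.Agent.Work.MP_efd9e3_ag.Fl.PowPolar

/-! MODULE ThN (MP_efd9e3_ag/Co), helper69.  The connection form, with its value on the centre. -/

set_option autoImplicit false

open MvPolynomial

namespace Geproci

variable {K : Type*} [Field K] {n : ℕ} {ι : Type*}

private def ThN_proj (p : Fin (n+1) → K) : (Fin (n+1) → K) →ₗ[K] (Fin n → K) where
  toFun v := proj p v
  map_add' a b := by
    funext i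
    simp only [proj, Pi.add_apply]
    ring
  map_smul' c a := by
    funext i
    simp only [proj, Pi.smul_apply, smul_eq_mul, RingHom.id_apply]
    ring

private theorem ThN_span [Fintype ι] (z : ι → Fin (n+1) → K)
    (hsp : Submodule.span K (Set.range z) = ⊤) (p : Fin (n+1) → K) (hp : p (Fin.last n) ≠ 0) :
    Submodule.span K (Set.range fun i => proj p (z i)) = ⊤ := by
  have h1 : (Set.range fun i => proj p (z i)) = ThN_proj p '' Set.range z := by
    rw [← Set.range_comp]
    rfl
  rw [h1, ← Submodule.map_span, hsp, Submodule.map_top, LinearMap.range_eq_top]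
  intro x
  refine ⟨Fin.snoc (fun i => (p (Fin.last n))⁻¹ * x i) 0, ?_⟩
  funext i
  show proj p _ i = x i
  rw [proj, Fin.snoc_castSucc, Fin.snoc_last, zero_mul, sub_zero, mul_inv_cancel_left₀ hp]

theorem theta_lin_deg [CharZero K] [Fintype ι] (z : ι → Fin (n+1) → K)
    (hsp : Submodule.span K (Set.range z) = ⊤) (s R : ℕ)
    (c : ι → MvPolynomial (Fin (n+1)) K) (hR : ∀ i, (c i).IsHomogeneous R)
    (h : ∀ (p : Fin (n+1) → K) (q : MvPolynomial (Fin n) K), q.IsHomogeneous (s+1) →
      ∑ i, eval p (c i) * eval (proj p (z i)) q = 0)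
    (p : Fin (n+1) → K) (hp : p (Fin.last n) ≠ 0) (hc : ∀ i, eval p (c i) ≠ 0)
    (hfr1 : Module.finrank K (evs (fun i => proj p (z i)) (s+1)) + 1 = Fintype.card ι)
    (hfr0 : Module.finrank K (evs (fun i => proj p (z i)) s) + n = Fintype.card ι) :
    ∃ θ : Fin (n+1) → K, ∑ k, θ k * p k = R + ((n + s : ℕ) : K) ∧
      ∀ i, eval p (dirP (z i) (c i)) = (∑ k, θ k * z i k) * eval p (c i) := by
  have hne : Nonempty ι := by
    rw [← Fintype.card_pos_iff]; omega
  have hcann : (fun i => eval p (c i)) ∈ ann (evs (fun i => proj p (z i)) (s+1)) := by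
    rw [mem_ann_evs]
    exact fun q hq => h p q hq
  have hc0 : (fun i => eval p (c i)) ≠ 0 := fun h0 => hc hne.some (congrFun h0 _)
  have hχ : ∀ i, eval p (dirP p (c i)) = (R : K) * eval p (c i) := by
    intro i
    have h1 := congrArg (eval p) (hR i).sum_X_mul_pderiv
    rw [map_sum] at h1
    simp only [map_mul, eval_X, nsmul_eq_mul, map_natCast] at h1
    rw [eval_dirP, h1]
  set χ : K := (R : K) with hχdef
  obtain ⟨θ, hθ⟩ := rel_linear (fun i => proj p (z i)) (ThN_span z hsp p hp) s _ hcann hc hfr0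
    (fun i => p (Fin.last n) * eval p (dirP (z i) (c i)) - z i (Fin.last n) * eval p (dirP p (c i)) -
      ((n + s : ℕ) : K) * z i (Fin.last n) * eval p (c i)) (by
    rw [mem_ann_evs]
    exact fun q hq => der_contract z s c h p q hq)
  refine ⟨Fin.snoc (fun k => θ k)
    ((p (Fin.last n))⁻¹ * (χ + ((n + s : ℕ) : K) - ∑ k, θ k * p k.castSucc)), ?_, fun i => ?_⟩
  · rw [Fin.sum_univ_castSucc]
    simp only [Fin.snoc_castSucc, Fin.snoc_last]
    have h4 : p (Fin.last n) * (p (Fin.last n))⁻¹ = 1 := mul_inv_cancel₀ hp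
    linear_combination (χ + ((n + s : ℕ) : K) - ∑ k, θ k * p k.castSucc) * h4
  have h1 := hθ i
  have h2 : eval p (dirP p (c i)) = χ * eval p (c i) := hχ i
  rw [h2] at h1
  have h3 : ∑ k, θ k * proj p (z i) k = p (Fin.last n) * (∑ k, θ k * z i k.castSucc) -
      z i (Fin.last n) * ∑ k, θ k * p k.castSucc := by
    rw [Finset.mul_sum, Finset.mul_sum, ← Finset.sum_sub_distrib]
    refine Finset.sum_congr rfl fun k _ => ?_
    rw [proj]; ring
  rw [h3] at h1
  rw [Fin.sum_univ_castSucc]
  simp only [Fin.snoc_castSucc, Fin.snoc_last]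
  apply mul_left_cancel₀ hp
  have h4 : p (Fin.last n) * (p (Fin.last n))⁻¹ = 1 := mul_inv_cancel₀ hp
  linear_combination h1 - (χ + ((n + s : ℕ) : K) - ∑ k, θ k * p k.castSucc) * z i (Fin.last n) *
    eval p (c i) * h4

end Geproci
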