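import Pool.Agent.Work.MP_efd9e3_ag.Fl.SysTop
import Pool.Agent.Work.MP_efd9e3_ag.Co.HomMul
import Pool.Agent.Work.MP_efd9e3_ag.Co.SysMinM
import Pool.Agent.Work.MP_efd9e3_ag.Co.ThN
import Pool.Agent.Work.MP_efd9e3_ag.Co.QEx
import Pool.Agent.Work.MP_efd9e3_ag.Co.FSys

/-! MODULE QTop (MP_efd9e3_ag/Co), helper69.  The system `QSys` of a geproci set. -/

set_option autoImplicit false

open MvPolynomial

namespace Geproci

variable {K : Type*} [Field K] {n : ℕ} {ι : Type*}

theorem eval_dirP_self {M : ℕ} (p : Fin M → K) (c : MvPolynomial (Fin M) K) (r : ℕ)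
    (hc : c.IsHomogeneous r) : eval p (dirP p c) = (r : K) * eval p c := by
  have h1 := congrArg (eval p) hc.sum_X_mul_pderiv
  rw [map_sum] at h1
  simp only [map_mul, eval_X, nsmul_eq_mul, map_natCast] at h1
  rw [eval_dirP, h1]

theorem q_top [IsAlgClosed K] [CharZero K] [Fintype ι] (hn : 1 ≤ n) (z : ι → Fin (n+1) → K)
    (hsp : Submodule.span K (Set.range z) = ⊤) (s R : ℕ)
    (c : ι → MvPolynomial (Fin (n+1)) K) (hR : ∀ i, (c i).IsHomogeneous R)
    (h : ∀ (p : Fin (n+1) → K) (q : MvPolynomial (Fin n) K), q.IsHomogeneous (s+1) →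
      ∑ i, eval p (c i) * eval (proj p (z i)) q = 0)
    (g : MvPolynomial (Fin (n+1)) K)
    (hg : ∀ p : Fin (n+1) → K, eval p g ≠ 0 → p (Fin.last n) ≠ 0 ∧
      Module.finrank K (evs (fun i => proj p (z i)) (s+1)) + 1 = Fintype.card ι ∧
      Module.finrank K (evs (fun i => proj p (z i)) s) + n = Fintype.card ι)
    (p₀ : Fin (n+1) → K) (hgp : eval p₀ g ≠ 0) (hc : ∀ i, eval p₀ (c i) ≠ 0) :
    ∃ (r e : ℕ) (c' : ι → MvPolynomial (Fin (n+1)) K) (l : Fin e → Fin (n+1) → K),
      QSys (s+1) r e z c' l := by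
  classical
  have hinf : Infinite K := IsAlgClosed.instInfinite
  have hsys := sys_top hn z hsp s c h g hg p₀ hgp hc
  obtain ⟨c', g₀, hsys', hcc, hmin⟩ := sys_min_mul (by omega) (s+1) z c hsys
  have hc0 : ∀ i, c i ≠ 0 := fun i => hsys.ne i (Finset.mem_univ _)
  have hc'0 : ∀ i, c' i ≠ 0 := fun i => hsys'.ne i (Finset.mem_univ _)
  obtain ⟨i₀, -⟩ := sys_nonempty (by omega) (s+1) Finset.univ z c hsys
  have hg₀ : g₀ ≠ 0 := by
    rintro rfl
    exact hc0 i₀ (by rw [hcc, zero_mul])
  obtain ⟨a, ha⟩ := hom_mul g₀ (c' i₀) R (by rw [← hcc]; exact hR i₀) hg₀ (hc'0 i₀)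
  have hdeg : ∀ i, ∃ j, (c' i).IsHomogeneous j ∧ a + j = R := fun i =>
    hom_mul_degree g₀ (c' i) R a (by rw [← hcc]; exact hR i) hg₀ (hc'0 i) ha
  have haR : a ≤ R := by
    obtain ⟨j, -, hj⟩ := hdeg i₀
    omega
  have hhom : ∀ i, (c' i).IsHomogeneous (R - a) := by
    intro i
    obtain ⟨j, hj, hj'⟩ := hdeg i
    have : R - a = j := by omega
    rw [this]
    exact hj
  have hlin : LinP z c' := by
    intro inst
    exact hsys'.lin
  obtain ⟨e, l, hl0, hflat⟩ := q_ex (s+1) z c' hsys' hmin c' hc'0 @hlin (fun i => dvd_rfl)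
  have hQ0 : prodL l ≠ 0 := by
    rw [prodL]
    exact Finset.prod_ne_zero_iff.2 fun j _ => linf_ne_zero _ (hl0 j)
  -- a general point
  have hg0 : g ≠ 0 := by
    rintro rfl
    exact hgp (map_zero _)
  obtain ⟨p, hp⟩ : ∃ p, eval p (g * (∏ i, c i) * prodL l) ≠ 0 := by
    have h1 : g * (∏ i, c i) * prodL l ≠ 0 :=
      mul_ne_zero (mul_ne_zero hg0 (Finset.prod_ne_zero_iff.2 fun i _ => hc0 i)) hQ0
    by_contra hcon
    push Not at hcon
    exact h1 (MvPolynomial.funext fun x => by rw [hcon x, map_zero])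
  rw [map_mul, map_mul, map_prod] at hp
  have hpg := left_ne_zero_of_mul (left_ne_zero_of_mul hp)
  have hpc := Finset.prod_ne_zero_iff.1 (right_ne_zero_of_mul (left_ne_zero_of_mul hp))
  have hpQ := right_ne_zero_of_mul hp
  obtain ⟨hpl, hf1, hf0⟩ := hg p hpg
  obtain ⟨θ, hθp, hθ⟩ := theta_lin_deg z hsp s R c hR h p hpl (fun i => hpc i (Finset.mem_univ _))
    hf1 hf0
  have hpg₀ : eval p g₀ ≠ 0 := by
    have := hpc i₀ (Finset.mem_univ _)
    rw [hcc, map_mul] at this
    exact left_ne_zero_of_mul this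
  -- the two linear maps
  let L : (Fin (n+1) → K) →ₗ[K] K :=
    { toFun := fun v => eval p (prodL l) * eval p g₀ * (∑ k, θ k * v k) -
        (eval p (prodL l) * eval p (dirP v g₀) + eval p g₀ * eval p (dirP v (prodL l)))
      map_add' := by
        intro v w
        rw [dirP_add_left, dirP_add_left, map_add, map_add]
        simp only [Pi.add_apply, mul_add, Finset.sum_add_distrib]
        ring
      map_smul' := by
        intro a v
        rw [dirP_smul_left, dirP_smul_left, map_mul, map_mul, eval_C]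
        have : ∑ k, θ k * (a • v) k = a * ∑ k, θ k * v k := by
          rw [Finset.mul_sum]
          refine Finset.sum_congr rfl fun k _ => ?_
          rw [Pi.smul_apply, smul_eq_mul]
          ring
        rw [this, RingHom.id_apply, smul_eq_mul]
        ring }
  have hL : ∀ v, L v = eval p (prodL l) * eval p g₀ * (∑ k, θ k * v k) -
        (eval p (prodL l) * eval p (dirP v g₀) + eval p g₀ * eval p (dirP v (prodL l))) := fun v => rfl
  have hL0 : L = 0 := by
    refine LinearMap.ext_on hsp ?_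
    rintro _ ⟨i, rfl⟩
    rw [hL, LinearMap.zero_apply]
    have h1 := hθ i
    rw [hcc i, dirP_mul, map_add, map_mul, map_mul, map_mul] at h1
    have h2 := congrArg (eval p) (hflat i)
    rw [map_mul, map_mul] at h2
    have h3 : eval p (c' i) ≠ 0 := by
      have := hpc i (Finset.mem_univ _)
      rw [hcc, map_mul] at this
      exact right_ne_zero_of_mul this
    apply mul_left_cancel₀ h3
    rw [mul_zero]
    linear_combination -(eval p (prodL l)) * h1 + (eval p g₀) * h2
  have hLp := hL p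
  rw [hL0, LinearMap.zero_apply, eval_dirP_self p g₀ a ha,
    eval_dirP_self p (prodL l) e (prodL_hom l), hθp] at hLp
  have hnum : ((R + (n + s) : ℕ) : K) = ((a + e : ℕ) : K) := by
    have h1 : eval p (prodL l) * eval p g₀ ≠ 0 := mul_ne_zero hpQ hpg₀
    apply mul_left_cancel₀ h1
    push_cast
    push_cast at hLp
    linear_combination -hLp
  have hnum' := Nat.cast_injective hnum
  refine ⟨R - a, e, c', l, ?_, hhom, hc'0, hl0, ?_, ?_, hflat, by omega⟩
  · exact hsp
  · exact hsys'.rel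
  · intro b hb i
    exact hsys'.ind b hb i (Finset.mem_univ _)

end Geproci
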