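import Pool.Agent.Work.MP_efd9e3_ag.Main
import Pool.Agent.Work.MP_efd9e3_ag.EvsProj
import Pool.Agent.Work.MP_efd9e3_ag.Fl.Ind
import Pool.Agent.Work.MP_efd9e3_ag.Fl.PtRel
import Pool.Agent.Work.MP_efd9e3_ag.Fl.SysTop
import Pool.Agent.Work.MP_efd9e3_ag.Co.CofH
import Pool.Agent.Work.MP_efd9e3_ag.Co.QTop
import Pool.Agent.Work.MP_efd9e3_ag.Co.HZero
import Pool.Agent.Work.MP_efd9e3_ag.Co.Loc

/-! MODULE CoMain (MP_efd9e3_ag/Co), helper69.  The main theorem: lines with many points. -/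

set_option autoImplicit false

open MvPolynomial

namespace Geproci

variable {K : Type*} [Field K] {n : ℕ}

/-- A geproci set of degrees `d` in `ℙ^{m+1}` gives a system `QSys` of degree `Σ d - m - 1`, and forms of degree `d i`
vanishing on the projection from any of its points. -/
theorem exists_qsys [IsAlgClosed K] [CharZero K] {m : ℕ} (hm : 2 ≤ m) (Z : Finset (Fin (m+1+1) → K))
    (h0 : ∀ v ∈ Z, v ≠ 0) (hp : ∀ v ∈ Z, ∀ w ∈ Z, ∀ c : K, w = c • v → w = v)
    (hspan : Submodule.span K (Z : Set (Fin (m+1+1) → K)) = ⊤) :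
    ∃ g : MvPolynomial (Fin (m+1+1)) K, g ≠ 0 ∧ ∀ p : Fin (m+1+1) → K, eval p g ≠ 0 →
      ∀ π : (Fin (m+1+1) → K) →ₗ[K] (Fin (m+1) → K), LinearMap.ker π = Submodule.span K {p} →
      ∀ (f : Fin m → MvPolynomial (Fin (m+1)) K) (d : Fin m → ℕ),
        (∀ i, (f i).IsHomogeneous (d i)) →
        (Ideal.span (Set.range f) : Set (MvPolynomial (Fin (m+1)) K)) =
          {q | ∀ v ∈ Z, ∀ c : K, eval (c • π v) q = 0} →
        (∀ i, m ≤ d i) ∧ Z.card = ∏ i, d i ∧
        (∀ z₀ : Fin (m+1+1) → K, z₀ ≠ 0 → ∀ π₀ : (Fin (m+1+1) → K) →ₗ[K] (Fin (m+1) → K),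
          LinearMap.ker π₀ = Submodule.span K {z₀} → ∀ i, ∃ h : MvPolynomial (Fin (m+1)) K,
            h.IsHomogeneous (d i) ∧ h ≠ 0 ∧ ∀ v ∈ Z, eval (π₀ v) h = 0) ∧
        ∃ (s r e : ℕ) (c : Z → MvPolynomial (Fin (m+1+1)) K) (l : Fin e → Fin (m+1+1) → K),
          s + 2 + m = ∑ i, d i ∧ QSys (s+1) r e (fun v : Z => v.1) c l := by
  classical
  have hK : Infinite K := IsAlgClosed.instInfinite
  let z : Z → Fin (m+1+1) → K := fun v => v.1
  have hz : Indep z := by
    refine ⟨fun v => h0 v.1 v.2, fun v v' hvv' c hc => hvv' ?_⟩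
    exact (Subtype.ext (hp v.1 v.2 v'.1 v'.2 c hc)).symm
  have hne : Nonempty Z := by
    by_contra hcon
    rw [nonempty_subtype, not_exists] at hcon
    have hZ : Z = ∅ := Finset.eq_empty_of_forall_notMem hcon
    rw [hZ] at hspan
    simp at hspan
  obtain ⟨g, hg0, hg⟩ := generic (by omega) z hz
  obtain ⟨g', hg0', hg'⟩ := main_aux (by omega : 1 ≤ m) Z h0 hp hspan
  refine ⟨g * g', mul_ne_zero hg0 hg0', fun p hpg π hπ f d hd hf => ?_⟩
  rw [map_mul] at hpg
  have hpg1 := left_ne_zero_of_mul hpg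
  have hpg2 := right_ne_zero_of_mul hpg
  obtain ⟨hpl, hind, hmax⟩ := hg p hpg1
  obtain ⟨hdm, hcardZ⟩ := hg' p hpg2 π hπ f d hd hf
  let y : Z → Fin (m+1) → K := fun v => π (z v)
  have hy : Indep y := main_indep p hpl π hπ z hind
  have hfy : (Ideal.span (Set.range f) : Set (MvPolynomial (Fin (m+1)) K)) = vanish y := by
    rw [hf]
    ext q
    constructor
    · intro h v c
      exact h v.1 v.2 c
    · intro h v hv c
      exact h ⟨v, hv⟩ c
  have hsum : m * 2 ≤ ∑ i, d i := by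
    calc m * 2 = ∑ _i : Fin m, 2 := by simp
      _ ≤ ∑ i, d i := Finset.sum_le_sum fun i _ => le_trans hm (hdm i)
  obtain ⟨s, hs⟩ : ∃ s, s + 2 + m = ∑ i, d i := ⟨∑ i, d i - (2 + m), by omega⟩
  have hd2 : ∀ i, 2 ≤ d i := fun i => le_trans hm (hdm i)
  obtain ⟨r, hr, hr0⟩ := exists_rel (by omega) y hy f d hd hd2 hfy s hs
  obtain ⟨hc1, hc0⟩ := codim_evs y hy f d hd hd2 hfy s hs
  have he : ∀ t, evs y t = evs (fun i => proj p (z i)) t := fun t => evs_proj p hpl π hπ z t
  rw [he] at hr hc1 hc0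
  obtain ⟨c, hcp, hchom, hc⟩ := exists_cof_hom z (s+1) p r hr0 hr hc1 (hmax (s+1))
  have hspz : Submodule.span K (Set.range z) = ⊤ := by
    have : Set.range z = (Z : Set (Fin (m+1+1) → K)) := by
      ext v; simp [z]
    rw [this]; exact hspan
  have hfz : ∀ k v, eval (y v) (f k) = 0 := by
    intro k v
    have h1 : f k ∈ (Ideal.span (Set.range f) : Set (MvPolynomial (Fin (m+1)) K)) :=
      Ideal.subset_span ⟨k, rfl⟩
    rw [hfy] at h1
    have := h1 v 1
    rwa [one_smul] at this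
  refine ⟨hdm, hcardZ, fun z₀ hz₀ π₀ hπ₀ i => ?_, ?_⟩
  · have hfi0 : f i ≠ 0 := by
      intro hcon
      obtain ⟨j, hj⟩ := grad_ne y hy f hfy i hne.some
      rw [hcon] at hj
      simp at hj
    obtain ⟨h, hh, hh0, hhz⟩ := exists_hzero (by omega) z hz g
      (fun p' hp' => ⟨(hg p' hp').1, (hg p' hp').2.2⟩) z₀ hz₀ π₀ hπ₀ p hpg1 π hπ (d i) (f i) (hd i) hfi0
      (fun v => hfz i v)
    exact ⟨h, hh, hh0, fun v hv => hhz ⟨v, hv⟩⟩
  · obtain ⟨r', e, c', l, hq⟩ := q_top (by omega) z hspz s _ c hchom hc g (fun p' hp' => by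
      obtain ⟨h1, -, h2⟩ := hg p' hp'
      refine ⟨h1, ?_, ?_⟩
      · rw [← hc1, le_antisymm (h2 (s+1) p) (hmax (s+1) p')]
      · rw [← hc0, le_antisymm (h2 s p) (hmax s p')]) p hpg1 hcp
    exact ⟨s, r', e, c', l, hs, hq⟩

/-- there is a linear map with a given one-dimensional kernel -/
theorem exists_projT {M : ℕ} (z₀ : Fin (M+1) → K) (hz₀ : z₀ ≠ 0) :
    ∃ π₀ : (Fin (M+1) → K) →ₗ[K] (Fin M → K), LinearMap.ker π₀ = Submodule.span K {z₀} := by
  have h1 : Module.finrank K ((Fin (M+1) → K) ⧸ Submodule.span K {z₀}) = Module.finrank K (Fin M → K) := by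
    have h2 := Submodule.finrank_quotient_add_finrank (Submodule.span K {z₀})
    rw [finrank_span_singleton hz₀] at h2
    simp only [Module.finrank_fintype_fun_eq_card, Fintype.card_fin] at h2 ⊢
    omega
  let φ := LinearEquiv.ofFinrankEq _ _ h1
  refine ⟨φ.toLinearMap.comp (Submodule.mkQ _), ?_⟩
  rw [LinearMap.ker_comp, LinearEquiv.ker, Submodule.comap_bot, Submodule.ker_mkQ]

theorem lines_aux [IsAlgClosed K] [CharZero K] {m : ℕ} (hm : 2 ≤ m) (Z : Finset (Fin (m+1+1) → K))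
    (h0 : ∀ v ∈ Z, v ≠ 0) (hp : ∀ v ∈ Z, ∀ w ∈ Z, ∀ c : K, w = c • v → w = v)
    (hspan : Submodule.span K (Z : Set (Fin (m+1+1) → K)) = ⊤) :
    ∃ g : MvPolynomial (Fin (m+1+1)) K, g ≠ 0 ∧ ∀ p : Fin (m+1+1) → K, eval p g ≠ 0 →
      ∀ π : (Fin (m+1+1) → K) →ₗ[K] (Fin (m+1) → K), LinearMap.ker π = Submodule.span K {p} →
      ∀ (f : Fin m → MvPolynomial (Fin (m+1)) K) (d : Fin m → ℕ),
        (∀ i, (f i).IsHomogeneous (d i)) →
        (Ideal.span (Set.range f) : Set (MvPolynomial (Fin (m+1)) K)) =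
          {q | ∀ v ∈ Z, ∀ c : K, eval (c • π v) q = 0} →
        (∀ i, m ≤ d i) ∧ Z.card = ∏ i, d i ∧
        ∃ T : Finset (Fin (m+1+1) → K), T ⊆ Z ∧
          Module.finrank K (Submodule.span K (T : Set (Fin (m+1+1) → K))) = 2 ∧
          ∀ i, ∑ j, d j < m + 1 + (T.card - 1) * d i := by
  classical
  obtain ⟨g, hg0, hg⟩ := exists_qsys hm Z h0 hp hspan
  refine ⟨g, hg0, fun p hpg π hπ f d hd hf => ?_⟩
  obtain ⟨hdm, hcardZ, hH, s, r, e, c, l, hs, hq⟩ := hg p hpg π hπ f d hd hf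
  refine ⟨hdm, hcardZ, ?_⟩
  -- a point
  have hne : Nonempty Z := by
    by_contra hcon
    rw [nonempty_subtype, not_exists] at hcon
    have hZ : Z = ∅ := Finset.eq_empty_of_forall_notMem hcon
    rw [hZ] at hspan
    simp at hspan
  obtain ⟨z₀⟩ := hne
  obtain ⟨π₀, hπ₀⟩ := exists_projT (z₀ : Fin (m+1+1) → K) (h0 _ z₀.2)
  -- the claim for one degree
  have key : ∀ i, ∃ T : Finset (Fin (m+1+1) → K), T ⊆ Z ∧
      Module.finrank K (Submodule.span K (T : Set (Fin (m+1+1) → K))) = 2 ∧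
      (s + 1) / d i + 2 ≤ T.card := by
    intro i
    obtain ⟨h, hh, hh0, hhz⟩ := hH z₀ (h0 _ z₀.2) π₀ hπ₀ i
    set k := (s + 1) / d i with hk
    have hks : k * d i ≤ s + 1 := Nat.div_mul_le_self _ _
    let G : MvPolynomial (Fin (m+1)) K := h ^ k * X 0 ^ (s + 1 - k * d i)
    have hG : G.IsHomogeneous (s+1) := by
      have h1 : (h ^ k).IsHomogeneous (d i * k) := hh.pow k
      have h2 : ((X 0 : MvPolynomial (Fin (m+1)) K) ^ (s + 1 - k * d i)).IsHomogeneous (1 * (s + 1 - k * d i)) :=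
        (isHomogeneous_X K 0).pow _
      have h3 := h1.mul h2
      have h4 : d i * k + 1 * (s + 1 - k * d i) = s + 1 := by
        rw [mul_comm (d i) k]; omega
      rwa [h4] at h3
    have hG0 : G ≠ 0 := mul_ne_zero (pow_ne_zero _ hh0) (pow_ne_zero _ (X_ne_zero _))
    obtain ⟨z, hz, hT⟩ := q_loc (by omega : 1 ≤ s+1) (fun v : Z => v.1) c l hq z₀ π₀ hπ₀ G hG hG0
      (fun _ => k) (fun z _ w => by
        have h1 : Polynomial.X ∣ line (π₀ z.1) w h := by
          rw [Polynomial.X_dvd_iff, Polynomial.coeff_zero_eq_eval_zero, eval_line]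
          have h9 := hhz z.1 z.2
          have h10 : (fun k => π₀ (z : Fin (m+1+1) → K) k + 0 * w k) = π₀ z.1 := by
            funext j
            rw [zero_mul, add_zero]
          rw [h10]
          exact h9
        have h2 : line (π₀ z.1) w G = line (π₀ z.1) w h ^ k * line (π₀ z.1) w (X 0 ^ (s + 1 - k * d i)) := by
          show line (π₀ z.1) w (h ^ k * X 0 ^ (s + 1 - k * d i)) = _
          rw [map_mul, map_pow]
        rw [h2]
        exact Dvd.dvd.mul_right (pow_dvd_pow_of_dvd h1 k) _)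
    obtain ⟨hy0, hy2⟩ := ind_pairs (s+1) (by omega) Finset.univ (fun v : Z => v.1)
      (fun a ha z _ => hq.ind a ha z)
    have himg : ∀ T : Finset Z, ((T.image fun v => v.1 : Finset (Fin (m+1+1) → K)) : Set (Fin (m+1+1) → K)) =
        (fun v : Z => (v.1 : Fin (m+1+1) → K)) '' (T : Set Z) := fun T => by rw [Finset.coe_image]
    have hsub : ∀ T : Finset Z, (T.image fun v => v.1 : Finset (Fin (m+1+1) → K)) ⊆ Z := by
      intro T v hv
      obtain ⟨w, -, rfl⟩ := Finset.mem_image.1 hv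
      exact w.2
    have hcd : ∀ T : Finset Z, (T.image fun v => v.1 : Finset (Fin (m+1+1) → K)).card = T.card :=
      fun T => Finset.card_image_of_injective _ Subtype.val_injective
    rcases hT with ⟨T, hT1, hT2⟩ | ⟨T, hT1, hT2⟩
    · refine ⟨T.image fun v => v.1, hsub T, ?_, ?_⟩
      · rw [himg]; exact hT1
      · rw [hcd]; omega
    · refine ⟨T.image fun v => v.1, hsub T, ?_, ?_⟩
      · rw [himg]
        obtain ⟨a, ha, b, hb, hab⟩ := Finset.one_lt_card.1 (lt_of_lt_of_le (Nat.lt_of_lt_of_le (by norm_num) (Nat.le_add_left 2 k)) hT2 : 1 < T.card)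
        have hli : LinearIndependent K ![(a : Fin (m+1+1) → K), (b : Fin (m+1+1) → K)] := by
          rw [LinearIndependent.pair_iff' (h0 _ a.2)]
          intro x hx
          exact hab (Subtype.ext (hp a.1 a.2 b.1 b.2 x hx.symm)).symm
        apply le_antisymm
        · have h1 : Submodule.span K ((fun v : Z => (v.1 : Fin (m+1+1) → K)) '' (T : Set Z)) ≤
              Submodule.span K {(z₀ : Fin (m+1+1) → K), (z : Fin (m+1+1) → K)} := by
            rw [Submodule.span_le]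
            rintro _ ⟨v, hv, rfl⟩
            exact hT1 v hv
          have h2 := Submodule.finrank_mono h1
          refine h2.trans ?_
          have h3 := finrank_span_le_card (R := K) ({(z₀ : Fin (m+1+1) → K), (z : Fin (m+1+1) → K)} : Set (Fin (m+1+1) → K))
          refine h3.trans ?_
          rw [Set.toFinset_insert, Set.toFinset_singleton]
          exact Finset.card_le_two
        · have h1 : Submodule.span K (Set.range ![(a : Fin (m+1+1) → K), (b : Fin (m+1+1) → K)]) ≤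
              Submodule.span K ((fun v : Z => (v.1 : Fin (m+1+1) → K)) '' (T : Set Z)) := by
            rw [Submodule.span_le]
            rintro _ ⟨j, rfl⟩
            fin_cases j
            · exact Submodule.subset_span ⟨a, ha, rfl⟩
            · exact Submodule.subset_span ⟨b, hb, rfl⟩
          have h2 := Submodule.finrank_mono h1
          rw [finrank_span_eq_card hli] at h2
          simpa using h2
      · rw [hcd]; omega
  -- the line with the largest number of points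
  have hm0 : Nonempty (Fin m) := ⟨⟨0, by omega⟩⟩
  choose T hTZ hT2 hTc using key
  obtain ⟨i₀, -, hi₀⟩ := Finset.exists_max_image Finset.univ (fun i => (T i).card) ⟨hm0.some, Finset.mem_univ _⟩
  refine ⟨T i₀, hTZ i₀, hT2 i₀, fun i => ?_⟩
  have h1 := hTc i
  have h2 := hi₀ i (Finset.mem_univ _)
  have h3 : (s + 1) / d i + 1 ≤ (T i₀).card - 1 := by omega
  have h4 : s + 1 < ((s + 1) / d i + 1) * d i := by
    have h5 := Nat.lt_div_mul_add (a := s + 1) (b := d i) (by have := hdm i; omega)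
    calc s + 1 < (s + 1) / d i * d i + d i := h5
      _ = ((s + 1) / d i + 1) * d i := by ring
  have h6 := Nat.mul_le_mul_right (d i) h3
  omega

end Geproci
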