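import Pool.Agent.Work.MP_efd9e3_ag.Co.Ord

/-! MODULE DvAdd (MP_efd9e3_ag/Co), helper69.  The iterated derivative in the direction `w + τ v`. -/

set_option autoImplicit false

open MvPolynomial

namespace Geproci

variable {K : Type*} [Field K] {N M e : ℕ} {ι : Type*}

theorem dirP_C_mul (v : Fin M → K) (a : K) (c : MvPolynomial (Fin M) K) :
    dirP v (C a * c) = C a * dirP v c := by
  rw [dirP_mul, dirP_C, zero_mul, zero_add]

theorem dirP_add_left (v w : Fin M → K) (c : MvPolynomial (Fin M) K) :
    dirP (v + w) c = dirP v c + dirP w c := by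
  unfold dirP
  rw [← Finset.sum_add_distrib]
  refine Finset.sum_congr rfl fun k _ => ?_
  rw [Pi.add_apply, C_add, add_mul]

theorem dirP_smul_left (v : Fin M → K) (a : K) (c : MvPolynomial (Fin M) K) :
    dirP (a • v) c = C a * dirP v c := by
  unfold dirP
  rw [Finset.mul_sum]
  refine Finset.sum_congr rfl fun k _ => ?_
  rw [Pi.smul_apply, smul_eq_mul, C_mul, mul_assoc]

theorem dirP_X (v : Fin M → K) (k : Fin M) : dirP v (X k : MvPolynomial (Fin M) K) = C (v k) := by
  unfold dirP
  simp [pderiv_X, Pi.single_apply]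

theorem dirP_comm (v w : Fin M → K) (c : MvPolynomial (Fin M) K) :
    dirP v (dirP w c) = dirP w (dirP v c) := by
  induction c using MvPolynomial.induction_on with
  | C a => rw [dirP_C, dirP_C, ← C_0, dirP_C, dirP_C]
  | add a b ha hb => rw [dirP_add, dirP_add, dirP_add, dirP_add, ha, hb]
  | mul_X a k ha =>
    simp only [dirP_mul, dirP_add, dirP_X, dirP_C, ha]
    ring

/-- `dirP v` as a linear map -/
noncomputable def dirL (v : Fin M → K) : Module.End K (MvPolynomial (Fin M) K) where
  toFun c := dirP v c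
  map_add' a b := dirP_add v a b
  map_smul' a c := by
    rw [RingHom.id_apply, smul_eq_C_mul, smul_eq_C_mul, dirP_C_mul]

theorem dirL_apply (v : Fin M → K) (c : MvPolynomial (Fin M) K) : dirL v c = dirP v c := rfl

theorem dirL_pow (v : Fin M → K) (m : ℕ) (c : MvPolynomial (Fin M) K) :
    (dirL v ^ m) c = dv v m c := by
  rw [Module.End.pow_apply]
  rfl

theorem dirL_comm (v w : Fin M → K) : Commute (dirL v) (dirL w) := by
  refine LinearMap.ext fun c => ?_
  exact dirP_comm v w c

theorem dirL_add_smul (v w : Fin M → K) (a : K) : dirL (w + a • v) = dirL w + a • dirL v := by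
  refine LinearMap.ext fun c => ?_
  rw [dirL_apply, dirP_add_left, dirP_smul_left, LinearMap.add_apply, LinearMap.smul_apply,
    dirL_apply, dirL_apply, smul_eq_C_mul]

theorem eval_dv_add (p v w : Fin M → K) (a : K) (n : ℕ) (c : MvPolynomial (Fin M) K) :
    eval p (dv (w + a • v) n c) = ∑ i ∈ Finset.range (n + 1),
      (n.choose i : K) * eval p (dv w (n - i) (dv v i c)) * a ^ i := by
  have hcomm : Commute (dirL w) (a • dirL v) := (dirL_comm w v).smul_right a
  rw [← dirL_pow, dirL_add_smul, add_comm (dirL w), hcomm.symm.add_pow, LinearMap.sum_apply, map_sum]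
  refine Finset.sum_congr rfl fun i _ => ?_
  have h1 : ((a • dirL v) ^ i * dirL w ^ (n - i) * (n.choose i : Module.End K (MvPolynomial (Fin M) K))) =
      ((n.choose i : K) * a ^ i) • (dirL w ^ (n - i) * dirL v ^ i) := by
    have h2 : Commute (dirL v ^ i) (dirL w ^ (n - i)) := (dirL_comm v w).pow_pow _ _
    rw [smul_pow, smul_mul_assoc, h2.eq, mul_smul, ← Nat.cast_comm, ← nsmul_eq_mul, ← smul_comm,
      Nat.cast_smul_eq_nsmul]
    exact smul_comm _ _ _
  rw [h1, LinearMap.smul_apply, Module.End.mul_apply, dirL_pow, dirL_pow, smul_eval]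
  ring

theorem dv_compL (φ : (Fin N → K) →ₗ[K] (Fin M → K)) (c : MvPolynomial (Fin M) K) (v : Fin N → K)
    (m : ℕ) : dv v m (compL φ c) = compL φ (dv (φ v) m c) := by
  induction m with
  | zero => rfl
  | succ m ih => rw [dv_succ, ih, dirP_compL, dv_succ]

/-- the line in the direction of a good vector -/
theorem line_ne_zero [CharZero K] (w v : Fin M → K) (c : MvPolynomial (Fin M) K) (r : ℕ)
    (hc : c.IsHomogeneous r) (hv : eval v c ≠ 0) : line w v c ≠ 0 := by
  have hinf : Infinite K := inferInstance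
  intro h
  have h1 := coeff_line w v c r
  have h2 := coeff_line 0 v c r
  rw [h, Polynomial.coeff_zero, mul_zero] at h1
  rw [line_zero_left v c r hc, Polynomial.coeff_C_mul, Polynomial.coeff_X_pow, if_pos rfl, mul_one] at h2
  have h3 := dv_hom v c r hc r
  rw [Nat.sub_self, ← totalDegree_zero_iff_isHomogeneous, totalDegree_eq_zero_iff_eq_C] at h3
  rw [h3, eval_C] at h1 h2
  rw [← h1] at h2
  exact mul_ne_zero (Nat.cast_ne_zero.2 (Nat.factorial_ne_zero r)) hv h2

end Geproci
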