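import Pool.Agent.Work.MP_efd9e3_ag.Fl.EndThree

/-! MODULE LinePts (MP_efd9e3_ag/Co), helper69.  In dimension two, `(lam·x)^a ∣ ∑ b_z(x) (lam·y_z)^s` needs `a + 1`
points. -/

set_option autoImplicit false

open MvPolynomial

namespace Geproci

variable {K : Type*} [Field K] {N : ℕ} {ι : Type*}

theorem ind_pairs (s : ℕ) (hs : 1 ≤ s) (T : Finset ι) (y : ι → Fin N → K)
    (hind : ∀ a : ι → K, (∀ lam : Fin N → K, ∑ z ∈ T, a z * (∑ k, lam k * y z k) ^ s = 0) →
      ∀ z ∈ T, a z = 0) :
    (∀ z ∈ T, y z ≠ 0) ∧ ∀ z ∈ T, ∀ z' ∈ T, z ≠ z' → ∀ e : K, y z' ≠ e • y z := by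
  classical
  constructor
  · intro z hz hyz
    have hs0 : s ≠ 0 := by omega
    have h1 := hind (fun w => if w = z then 1 else 0) (fun lam => by
      rw [Finset.sum_eq_single z]
      · simp [hyz, hs0]
      · intro w _ hw
        rw [if_neg hw, zero_mul]
      · intro hcon
        exact absurd hz hcon) z hz
    rw [if_pos rfl] at h1
    exact one_ne_zero h1
  · intro z hz z' hz' hzz e he
    have h1 := hind (fun w => (if w = z' then 1 else 0) - (if w = z then e ^ s else 0)) (fun lam => by
      simp only [sub_mul, Finset.sum_sub_distrib, ite_mul, one_mul, zero_mul,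
        Finset.sum_ite_eq', if_pos hz, if_pos hz']
      have h2 : ∑ k, lam k * y z' k = e * ∑ k, lam k * y z k := by
        rw [he, Finset.mul_sum]
        refine Finset.sum_congr rfl fun k _ => ?_
        rw [Pi.smul_apply, smul_eq_mul]
        ring
      rw [h2, mul_pow, sub_self]) z' hz'
    rw [if_pos rfl, if_neg hzz.symm, sub_zero] at h1
    exact one_ne_zero h1

theorem det_ne (a b : Fin 2 → K) (ha : a ≠ 0) (hab : ∀ e : K, b ≠ e • a) :
    a 0 * b 1 - a 1 * b 0 ≠ 0 := by
  intro h
  obtain ⟨j, hj⟩ := Function.ne_iff.1 ha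
  rw [Pi.zero_apply] at hj
  apply hab (b j / a j)
  funext i
  rw [Pi.smul_apply, smul_eq_mul, div_mul_eq_mul_div, eq_div_iff hj]
  fin_cases j <;> fin_cases i <;> simp only [Fin.zero_eta, Fin.mk_one] at * <;>
    first | ring1 | linear_combination h | linear_combination -h

private theorem LinePts_eval {σ : Type*} (f : σ → Polynomial K) (G : MvPolynomial σ K) (t : K) :
    (aeval f G).eval t = eval (fun i => (f i).eval t) G := by
  induction G using MvPolynomial.induction_on with
  | C a => rw [algHom_C, eval_C]; simp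
  | add a b ha hb => rw [map_add, Polynomial.eval_add, ha, hb, map_add]
  | mul_X a k ha => rw [map_mul, Polynomial.eval_mul, ha, map_mul, aeval_X, eval_X]

private theorem LinePts_coeff (u w : K) (s j : ℕ) (hj : j ≤ s) :
    ((Polynomial.C u + Polynomial.C w * Polynomial.X) ^ s).coeff j =
      (s.choose j : K) * (u ^ (s - j) * w ^ j) := by
  have h1 : (Polynomial.C u + Polynomial.C w * Polynomial.X) ^ s =
      ∑ m ∈ Finset.range (s + 1), Polynomial.C ((s.choose m : K) * (u ^ (s - m) * w ^ m)) *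
        Polynomial.X ^ m := by
    rw [add_comm, add_pow]
    refine Finset.sum_congr rfl fun m _ => ?_
    simp only [map_mul, map_pow, map_natCast, mul_pow]
    ring
  rw [h1, Polynomial.finsetSum_coeff]
  simp only [Polynomial.coeff_C_mul, Polynomial.coeff_X_pow, mul_ite, mul_one, mul_zero]
  rw [Finset.sum_ite_eq, if_pos (Finset.mem_range.2 (by omega))]

theorem line_pts [CharZero K] (s a : ℕ) (ha1 : 1 ≤ a) (has : a ≤ s) (T : Finset ι) (hT : T.Nonempty)
    (y : ι → Fin 2 → K) (b : ι → MvPolynomial (Fin 2) K) (hb0 : ∀ z ∈ T, b z ≠ 0)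
    (hind : ∀ a : ι → K, (∀ lam : Fin 2 → K, ∑ z ∈ T, a z * (∑ k, lam k * y z k) ^ s = 0) →
      ∀ z ∈ T, a z = 0)
    (G : MvPolynomial (Fin 2 ⊕ Fin 2) K)
    (hG : ∀ lam x : Fin 2 → K, ∑ z ∈ T, eval x (b z) * (∑ k, lam k * y z k) ^ s =
        (∑ k, lam k * x k) ^ a * eval (Sum.elim lam x) G) : a + 1 ≤ T.card := by
  classical
  have hinf : Infinite K := inferInstance
  obtain ⟨hy0, hy2⟩ := ind_pairs s (by omega) T y hind
  -- the point `x`
  set g : MvPolynomial (Fin 2) K := X 0 * (∏ z ∈ T, b z) *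
    ∏ z ∈ T, (C (y z 1) * X 0 - C (y z 0) * X 1) with hg
  have hg0 : g ≠ 0 := by
    refine mul_ne_zero (mul_ne_zero (X_ne_zero _) (Finset.prod_ne_zero_iff.2 hb0))
      (Finset.prod_ne_zero_iff.2 fun z hz h0 => hy0 z hz ?_)
    have e0 := congrArg (eval (![0, 1] : Fin 2 → K)) h0
    have e1 := congrArg (eval (![1, 0] : Fin 2 → K)) h0
    simp only [map_sub, map_mul, eval_C, eval_X, Matrix.cons_val_zero, Matrix.cons_val_one,
      mul_one, mul_zero, zero_sub, sub_zero, map_zero, neg_eq_zero] at e0 e1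
    funext i
    fin_cases i
    · exact e0
    · exact e1
  obtain ⟨x, hx⟩ : ∃ x : Fin 2 → K, eval x g ≠ 0 := by
    by_contra hcon
    push Not at hcon
    exact hg0 (MvPolynomial.funext fun x => by rw [hcon x, map_zero])
  rw [hg, map_mul, map_mul, eval_X, map_prod, map_prod] at hx
  have hx0 := left_ne_zero_of_mul (left_ne_zero_of_mul hx)
  have hxb := Finset.prod_ne_zero_iff.1 (right_ne_zero_of_mul (left_ne_zero_of_mul hx))
  have hxy := Finset.prod_ne_zero_iff.1 (right_ne_zero_of_mul hx)
  -- the two functionals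
  set u : ι → K := fun z => x 0 * y z 1 - x 1 * y z 0 with hu
  set w : ι → K := fun z => (x 0)⁻¹ * y z 0 with hw
  have hu0 : ∀ z ∈ T, u z ≠ 0 := by
    intro z hz
    have h1 := hxy z hz
    simp only [map_sub, map_mul, eval_C, eval_X] at h1
    intro h2
    apply h1
    rw [← h2, hu]
    ring
  -- the polynomial in `β`
  have hL : (∑ z ∈ T, Polynomial.C (eval x (b z)) * (Polynomial.C (u z) + Polynomial.C (w z) *
      Polynomial.X) ^ s) = Polynomial.X ^ a * aeval (Sum.elim
        (fun k => Polynomial.C ((![-x 1, x 0] : Fin 2 → K) k) +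
          Polynomial.C ((![(x 0)⁻¹, 0] : Fin 2 → K) k) * Polynomial.X)
        (fun k => Polynomial.C (x k))) G := by
    apply Polynomial.funext
    intro β
    rw [Polynomial.eval_finsetSum, Polynomial.eval_mul, Polynomial.eval_pow, Polynomial.eval_X,
      LinePts_eval]
    have h1 := hG (fun k => (![-x 1, x 0] : Fin 2 → K) k + (![(x 0)⁻¹, 0] : Fin 2 → K) k * β) x
    have h2 : ∑ k, ((![-x 1, x 0] : Fin 2 → K) k + (![(x 0)⁻¹, 0] : Fin 2 → K) k * β) * x k = β := by
      rw [Fin.sum_univ_two]
      simp only [Matrix.cons_val_zero, Matrix.cons_val_one]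
      field_simp
      ring
    rw [h2] at h1
    have h3 : (fun i => Polynomial.eval β ((Sum.elim
        (fun k => Polynomial.C ((![-x 1, x 0] : Fin 2 → K) k) +
          Polynomial.C ((![(x 0)⁻¹, 0] : Fin 2 → K) k) * Polynomial.X)
        (fun k => Polynomial.C (x k)) : Fin 2 ⊕ Fin 2 → Polynomial K) i)) =
        Sum.elim (fun k => (![-x 1, x 0] : Fin 2 → K) k + (![(x 0)⁻¹, 0] : Fin 2 → K) k * β) x := by
      funext i
      rcases i with i | i
      · simp only [Sum.elim_inl, Polynomial.eval_add, Polynomial.eval_mul, Polynomial.eval_C,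
          Polynomial.eval_X]
      · simp only [Sum.elim_inr, Polynomial.eval_C]
    rw [h3, ← h1]
    refine Finset.sum_congr rfl fun z _ => ?_
    rw [Polynomial.eval_mul, Polynomial.eval_C, Polynomial.eval_pow, Fin.sum_univ_two]
    simp only [Polynomial.eval_add, Polynomial.eval_mul, Polynomial.eval_C,
          Polynomial.eval_X, Matrix.cons_val_zero, Matrix.cons_val_one, hu, hw]
    congr 2
    ring
  have hco : ∀ j, j < a → ∑ z ∈ T, eval x (b z) * (u z ^ (s - j) * w z ^ j) = 0 := by
    intro j hj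
    have h1 := congrArg (fun t => Polynomial.coeff t j) hL
    simp only [Polynomial.finsetSum_coeff, Polynomial.coeff_C_mul,
      LinePts_coeff _ _ s j (by omega), Polynomial.coeff_X_pow_mul'] at h1
    rw [if_neg (by omega)] at h1
    have h2 : (s.choose j : K) * ∑ z ∈ T, eval x (b z) * (u z ^ (s - j) * w z ^ j) = 0 := by
      rw [← h1, Finset.mul_sum]
      exact Finset.sum_congr rfl fun z _ => by ring
    exact (mul_eq_zero.1 h2).resolve_left (Nat.cast_ne_zero.2 (Nat.choose_pos (by omega)).ne')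
  -- the relation in degree `a - 1`
  have hrel : ∀ H : MvPolynomial (Fin 2) K, H.IsHomogeneous (a - 1) →
      ∑ z ∈ T, (eval x (b z) * u z ^ (s - a + 1)) * eval (y z) H = 0 := by
    intro H hH
    refine pow_polar (a - 1) T y (fun z => eval x (b z) * u z ^ (s - a + 1)) (fun lam => ?_) H hH
    set α := lam 1 * (x 0)⁻¹ with hα
    set β := x 0 * (lam 0 + α * x 1) with hβ
    have h1 : ∀ z, ∑ k, lam k * y z k = α * u z + β * w z := by
      intro z
      rw [Fin.sum_univ_two, hα, hβ, hu, hw, hα]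
      field_simp
      ring
    have h2 : ∀ z ∈ T, (eval x (b z) * u z ^ (s - a + 1)) * (∑ k, lam k * y z k) ^ (a - 1) =
        ∑ j ∈ Finset.range (a - 1 + 1), (((a - 1).choose j : K) * (α ^ (a - 1 - j) * β ^ j)) *
          (eval x (b z) * (u z ^ (s - j) * w z ^ j)) := by
      intro z _
      rw [h1, add_comm (α * u z), add_pow, Finset.mul_sum]
      refine Finset.sum_congr rfl fun j hj => ?_
      rw [Finset.mem_range] at hj
      have h3 : u z ^ (s - j) = u z ^ (s - a + 1) * u z ^ (a - 1 - j) := by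
        rw [← pow_add]
        congr 1
        omega
      rw [h3, mul_pow, mul_pow]
      ring
    rw [Finset.sum_congr rfl h2, Finset.sum_comm]
    refine Finset.sum_eq_zero fun j hj => ?_
    rw [Finset.mem_range] at hj
    rw [← Finset.mul_sum, hco j (by omega), mul_zero]
  have h4 := pts_line (a - 1) T y (fun z => eval x (b z) * u z ^ (s - a + 1)) hT
    (fun z hz => mul_ne_zero (hxb z hz) (pow_ne_zero _ (hu0 z hz))) hy0
    (fun z hz z' hz' hzz => det_ne _ _ (hy0 z hz) (hy2 z hz z' hz' hzz)) hrel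
  omega

end Geproci
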