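import Pool.Agent.Work.MP_efd9e3_ag.Co.DvAdd
import Pool.Agent.Work.MP_efd9e3_ag.Co.LinPar

/-! MODULE SubFlat (MP_efd9e3_ag/Co), helper69.  From `range φ` to a hyperplane of it. -/

set_option autoImplicit false

open MvPolynomial

namespace Geproci

variable {K : Type*} [Field K] {N M e : ℕ} {ι : Type*}

open Classical in
private theorem SubFlat_low {J : Type*} (A : Finset J) (a b : J → K) (hb : ∀ j ∈ A, b j ≠ 0) :
    Polynomial.X ^ (A.filter fun j => a j = 0).card ∣
      ∏ j ∈ A, (Polynomial.C (a j) + Polynomial.C (b j) * Polynomial.X) ∧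
    (∏ j ∈ A, (Polynomial.C (a j) + Polynomial.C (b j) * Polynomial.X)).coeff
      (A.filter fun j => a j = 0).card ≠ 0 := by
  induction A using Finset.induction_on with
  | empty => simp
  | insert j A hj ih =>
    obtain ⟨h1, h2⟩ := ih fun i hi => hb i (Finset.mem_insert_of_mem hi)
    rw [Finset.prod_insert hj, Finset.filter_insert]
    split_ifs with h
    · rw [Finset.card_insert_of_notMem (fun hh => hj (Finset.mem_of_mem_filter j hh)), h, map_zero,
        zero_add, add_comm, pow_add, pow_one]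
      have hX : Polynomial.X ∣ Polynomial.C (b j) * (Polynomial.X : Polynomial K) := Dvd.intro_left _ rfl
      refine ⟨mul_dvd_mul hX h1, ?_⟩
      rw [coeff_mul_low _ _ 1 _ (by rw [pow_one]; exact hX) h1, Polynomial.coeff_C_mul_X]
      simp only [if_true]
      exact mul_ne_zero (hb j (Finset.mem_insert_self j A)) h2
    · refine ⟨Dvd.dvd.mul_left h1 _, ?_⟩
      have h3 := coeff_mul_low (Polynomial.C (a j) + Polynomial.C (b j) * Polynomial.X)
        (∏ j ∈ A, (Polynomial.C (a j) + Polynomial.C (b j) * Polynomial.X)) 0 _ (one_dvd _) h1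
      rw [zero_add] at h3
      rw [h3]
      refine mul_ne_zero ?_ h2
      simpa using h

theorem ord_sub [IsAlgClosed K] [CharZero K] [Fintype ι] (φ : (Fin (N+1) → K) →ₗ[K] (Fin M → K))
    (l : Fin e → Fin M → K) (c : ι → MvPolynomial (Fin M) K) (r : ℕ) (hc : ∀ z, (c z).IsHomogeneous r)
    (v : Fin M → K) (hv : Good c l v) (z : ι)
    (hdeg : r + (zer φ l).card < e + ordV φ v (c z)) :
    ∃ (ψ : (Fin N → K) →ₗ[K] (Fin (N+1) → K)) (v' : Fin M → K), Function.Injective ψ ∧
      Good c l v' ∧ ordV (φ ∘ₗ ψ) v' (c z) + (zer φ l).card + 1 ≤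
        ordV φ v (c z) + (zer (φ ∘ₗ ψ) l).card := by
  classical
  have hinf : Infinite K := IsAlgClosed.instInfinite
  obtain ⟨ho, hor⟩ := ordV_spec φ v (c z) r (hc z) (hv.1 z)
  set o := ordV φ v (c z) with hodef
  set G := compL φ (dv v o (c z)) with hG
  have hGhom : G.IsHomogeneous (r - o) := compL_hom φ _ _ (dv_hom v _ _ (hc z) o)
  -- the linear forms on `range φ`
  set f : Fin e → Fin (N+1) → K := fun j k => ∑ i, l j i * φ (Pi.single k 1) i with hf
  have hfl : ∀ j, linf (f j) = compL φ (linf (l j)) := fun j => (compL_linf φ (l j)).symm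
  have hfe : ∀ j x, ∑ k, f j k * x k = ∑ k, l j k * φ x k := by
    intro j x
    rw [← eval_linf, hfl, eval_compL, eval_linf]
  have hf0 : ∀ j, j ∉ zer φ l → f j ≠ 0 := by
    intro j hj h
    apply hj
    rw [mem_zer]
    intro x
    rw [← hfe, h]
    simp
  -- a maximal product of the forms dividing `G`
  set P : Finset (Finset (Fin e)) := ((zer φ l)ᶜ).powerset.filter fun A => ∏ j ∈ A, linf (f j) ∣ G with hP
  have hPne : P.Nonempty := ⟨∅, by simp [hP]⟩
  obtain ⟨A, hA, hmax⟩ := Finset.exists_max_image P Finset.card hPne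
  rw [hP, Finset.mem_filter, Finset.mem_powerset] at hA
  obtain ⟨hAs, G', hG'⟩ := hA
  have hA0 : ∀ j ∈ A, f j ≠ 0 := fun j hj => hf0 j (Finset.mem_compl.1 (hAs hj))
  have hAcard : A.card ≤ r - o := by
    have h1 : (∏ j ∈ A, linf (f j)).IsHomogeneous (∑ _j ∈ A, 1) :=
      IsHomogeneous.prod _ _ _ fun j _ => linf_hom (f j)
    have h2 : (∏ j ∈ A, linf (f j)) ≠ 0 :=
      Finset.prod_ne_zero_iff.2 fun j hj => linf_ne_zero _ (hA0 j hj)
    have h3 : G' ≠ 0 := by
      rintro rfl
      exact ho (by rw [hG', mul_zero])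
    have h4 := totalDegree_mul_of_isDomain h2 h3
    rw [← hG', hGhom.totalDegree ho, h1.totalDegree h2, Finset.sum_const, smul_eq_mul, mul_one] at h4
    omega
  obtain ⟨j₀, hj₀, hj₀A⟩ : ∃ j ∈ (zer φ l)ᶜ, j ∉ A := by
    have h1 : A.card < ((zer φ l)ᶜ).card := by
      rw [Finset.card_compl, Fintype.card_fin]
      have h2 : (zer φ l).card ≤ e := by
        have := Finset.card_le_univ (zer φ l)
        rwa [Fintype.card_fin] at this
      omega
    obtain ⟨j, hj, hjA⟩ := Finset.exists_mem_notMem_of_card_lt_card h1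
    exact ⟨j, hj, hjA⟩
  have hnd : ¬ linf (f j₀) ∣ G' := by
    rintro ⟨G'', hG''⟩
    have h1 : insert j₀ A ∈ P := by
      rw [hP, Finset.mem_filter, Finset.mem_powerset]
      refine ⟨Finset.insert_subset hj₀ hAs, G'', ?_⟩
      rw [Finset.prod_insert hj₀A, hG', hG'']
      ring
    have h2 := hmax _ h1
    rw [Finset.card_insert_of_notMem hj₀A] at h2
    omega
  obtain ⟨ψ, hψ, hψ0, hψd⟩ := lin_par (f j₀) (hf0 j₀ (Finset.mem_compl.1 hj₀))
  have hG'ψ : compL ψ G' ≠ 0 := fun h => hnd (hψd G' h)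
  -- the direction `u` in the source of `φ`
  obtain ⟨u, hu⟩ : ∃ u : Fin (N+1) → K, ∀ j ∈ A, ∑ k, f j k * u k ≠ 0 := by
    have h2 : (∏ j ∈ A, linf (f j)) ≠ 0 :=
      Finset.prod_ne_zero_iff.2 fun j hj => linf_ne_zero _ (hA0 j hj)
    by_contra hcon
    push Not at hcon
    apply h2
    apply MvPolynomial.funext
    intro u
    obtain ⟨j, hj, hju⟩ := hcon u
    rw [map_zero, map_prod]
    exact Finset.prod_eq_zero hj (by rw [eval_linf, hju])
  -- the point `x`
  obtain ⟨x, hx1, hx2⟩ := exists_generic (φ ∘ₗ ψ) l (compL ψ G') hG'ψ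
  rw [eval_compL] at hx1
  have hx2' : ∀ j, j ∉ zer (φ ∘ₗ ψ) l → ∑ k, f j k * ψ x k ≠ 0 := by
    intro j hj
    rw [hfe]
    exact hx2 j hj
  set B := A.filter fun j => ∑ k, f j k * ψ x k = 0 with hB
  set m := B.card with hm
  -- the coefficient of `ε ^ m` in `G (ψ x + ε u)`
  have hGm : (line (ψ x) u G).coeff m ≠ 0 := by
    have h1 : line (ψ x) u (∏ j ∈ A, linf (f j)) = ∏ j ∈ A, (Polynomial.C (∑ k, f j k * ψ x k) +
        Polynomial.C (∑ k, f j k * u k) * Polynomial.X) := by
      rw [map_prod]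
      exact Finset.prod_congr rfl fun j _ => line_linf _ _ _
    obtain ⟨h2, h3⟩ := SubFlat_low A (fun j => ∑ k, f j k * ψ x k) (fun j => ∑ k, f j k * u k) hu
    rw [hG', map_mul, h1]
    have h4 := coeff_mul_low (∏ j ∈ A, (Polynomial.C (∑ k, f j k * ψ x k) +
        Polynomial.C (∑ k, f j k * u k) * Polynomial.X)) (line (ψ x) u G') m 0 h2 (one_dvd _)
    rw [add_zero] at h4
    rw [h4]
    refine mul_ne_zero h3 ?_
    rw [Polynomial.coeff_zero_eq_eval_zero, eval_line]
    simpa using hx1
  -- the same for `dv v o (c z)` on the line `φ (ψ x) + ε φ u`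
  have hcm : eval (φ (ψ x)) (dv (φ u) m (dv v o (c z))) ≠ 0 := by
    rw [← eval_compL, ← dv_compL, ← hG, ← coeff_line]
    exact mul_ne_zero (Nat.cast_ne_zero.2 (Nat.factorial_ne_zero m)) hGm
  -- the polynomial in `τ`
  set R : Polynomial K := ∑ i ∈ Finset.range (o + m + 1),
    Polynomial.C (((o + m).choose i : K) * eval (φ (ψ x)) (dv (φ u) (o + m - i) (dv v i (c z)))) *
      Polynomial.X ^ i with hR
  have hR0 : R ≠ 0 := by
    intro h
    have h1 := congrArg (fun q => Polynomial.coeff q o) h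
    simp only [hR, Polynomial.finsetSum_coeff, Polynomial.coeff_C_mul, Polynomial.coeff_X_pow,
      Polynomial.coeff_zero, mul_ite, mul_one, mul_zero] at h1
    rw [Finset.sum_ite_eq, if_pos (Finset.mem_range.2 (by omega)), Nat.add_sub_cancel_left] at h1
    exact mul_ne_zero (Nat.cast_ne_zero.2 (Nat.choose_pos (by omega)).ne') hcm h1
  have hRe : ∀ τ, R.eval τ = eval (φ (ψ x)) (dv (φ u + τ • v) (o + m) (c z)) := by
    intro τ
    rw [eval_dv_add, hR, Polynomial.eval_finsetSum]
    refine Finset.sum_congr rfl fun i _ => ?_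
    rw [Polynomial.eval_mul, Polynomial.eval_C, Polynomial.eval_pow, Polynomial.eval_X]
  -- goodness of `φ u + τ v`
  set S : Polynomial K := R * (∏ z', line (φ u) v (c z')) *
    ∏ j, (Polynomial.C (∑ k, l j k * φ u k) + Polynomial.C (∑ k, l j k * v k) * Polynomial.X) with hS
  have hS0 : S ≠ 0 := by
    refine mul_ne_zero (mul_ne_zero hR0 (Finset.prod_ne_zero_iff.2 fun z' _ => ?_))
      (Finset.prod_ne_zero_iff.2 fun j _ => ?_)
    · exact line_ne_zero _ _ _ r (hc z') (hv.1 z')
    · intro h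
      have h1 := congrArg (fun q => Polynomial.coeff q 1) h
      simp only [Polynomial.coeff_add, Polynomial.coeff_C_succ, Polynomial.coeff_C_mul,
        Polynomial.coeff_X_one, mul_one, zero_add, Polynomial.coeff_zero] at h1
      exact hv.2 j h1
  obtain ⟨τ, hτ⟩ : ∃ τ, S.eval τ ≠ 0 := by
    by_contra hcon
    push Not at hcon
    exact hS0 (Polynomial.funext fun τ => by rw [hcon τ, Polynomial.eval_zero])
  rw [hS, Polynomial.eval_mul, Polynomial.eval_mul, Polynomial.eval_prod, Polynomial.eval_prod] at hτ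
  have hτ1 := left_ne_zero_of_mul (left_ne_zero_of_mul hτ)
  have hτ2 := right_ne_zero_of_mul (left_ne_zero_of_mul hτ)
  have hτ3 := right_ne_zero_of_mul hτ
  rw [Finset.prod_ne_zero_iff] at hτ2 hτ3
  refine ⟨ψ, φ u + τ • v, hψ, ⟨fun z' => ?_, fun j => ?_⟩, ?_⟩
  · have h1 := hτ2 z' (Finset.mem_univ _)
    rw [eval_line] at h1
    exact h1
  · have h1 := hτ3 j (Finset.mem_univ _)
    simp only [Polynomial.eval_add, Polynomial.eval_C, Polynomial.eval_mul, Polynomial.eval_X] at h1
    intro h2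
    apply h1
    rw [← h2]
    simp only [Pi.add_apply, Pi.smul_apply, smul_eq_mul, mul_add, Finset.sum_add_distrib]
    congr 1
    rw [Finset.sum_mul]
    exact Finset.sum_congr rfl fun k _ => by ring
  · have h1 : ordV (φ ∘ₗ ψ) (φ u + τ • v) (c z) ≤ o + m := by
      apply ordV_le_of_coeff (φ ∘ₗ ψ) (φ u + τ • v) (c z) x
      intro h
      have h2 := coeff_line ((φ ∘ₗ ψ) x) (φ u + τ • v) (c z) (o + m)
      rw [h, mul_zero] at h2
      apply hτ1
      rw [hRe]
      exact h2.symm
    have h2 : (zer φ l).card + m + 1 ≤ (zer (φ ∘ₗ ψ) l).card := by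
      have h3 : insert j₀ (zer φ l ∪ B) ⊆ zer (φ ∘ₗ ψ) l := by
        intro j hj
        rw [Finset.mem_insert, Finset.mem_union] at hj
        rcases hj with rfl | hj | hj
        · rw [mem_zer]
          intro w
          rw [LinearMap.comp_apply, ← hfe]
          exact hψ0 w
        · rw [mem_zer] at hj ⊢
          intro w
          exact hj (ψ w)
        · by_contra hcon
          rw [hB, Finset.mem_filter] at hj
          exact hx2' j hcon hj.2
      have h4 : Disjoint (zer φ l) B := by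
        rw [Finset.disjoint_left]
        intro j hj hjB
        rw [hB, Finset.mem_filter] at hjB
        exact (Finset.mem_compl.1 (hAs hjB.1)) hj
      have h5 : j₀ ∉ zer φ l ∪ B := by
        rw [Finset.mem_union]
        rintro (h | h)
        · exact (Finset.mem_compl.1 hj₀) h
        · rw [hB, Finset.mem_filter] at h
          exact hj₀A h.1
      have h6 := Finset.card_le_card h3
      rw [Finset.card_insert_of_notMem h5, Finset.card_union_of_disjoint h4] at h6
      omega
    omega

end Geproci
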