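import Pool.Agent.Work.MP_efd9e3_ag.Co.AddPt
import Pool.Agent.Work.MP_efd9e3_ag.Co.SubFlat
import Pool.Agent.Work.MP_efd9e3_ag.Co.FSys
import Pool.Agent.Work.MP_efd9e3_ag.Co.LinePts

/-! MODULE Ext (MP_efd9e3_ag/Co), helper69.  A subspace of excess `k` gives a line with at least `k + 2` points. -/

set_option autoImplicit false

open MvPolynomial

namespace Geproci

variable {K : Type*} [Field K] {N M e s r : ℕ} {ι : Type*}

theorem q_ext [IsAlgClosed K] [CharZero K] [Fintype ι] (hs : 1 ≤ s) (y : ι → Fin M → K)
    (c : ι → MvPolynomial (Fin M) K) (l : Fin e → Fin M → K) (h : QSys s r e y c l) :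
    ∀ (d k N : ℕ) (_ : d + k = e) (_ : 2 ≤ N) (φ : (Fin N → K) →ₗ[K] (Fin M → K))
      (_ : Function.Injective φ) (v : Fin M → K) (_ : Good c l v) (z : ι)
      (_ : ordV φ v (c z) + M + k ≤ (zer φ l).card + N),
      ∃ T : Finset ι, Module.finrank K (Submodule.span K (y '' (T : Set ι))) = 2 ∧ k + 2 ≤ T.card := by
  classical
  have hle : ∀ (N : ℕ) (φ : (Fin N → K) →ₗ[K] (Fin M → K)), Function.Injective φ → N ≤ M := by
    intro N φ hφ
    have := LinearMap.finrank_le_finrank_of_injective hφ
    simpa using this
  have hze : ∀ (N : ℕ) (φ : (Fin N → K) →ₗ[K] (Fin M → K)), (zer φ l).card ≤ e := by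
    intro N φ
    have := Finset.card_le_univ (zer φ l)
    rwa [Fintype.card_fin] at this
  intro d
  induction d using Nat.strong_induction_on with
  | _ d ihd =>
    intro k N hdk hN
    induction N using Nat.strong_induction_on with
    | _ N ihN =>
      intro φ hφ v hv z hz
      by_cases hmore : ∃ (N' : ℕ) (φ' : (Fin N' → K) →ₗ[K] (Fin M → K)) (v' : Fin M → K) (z' : ι),
          2 ≤ N' ∧ Function.Injective φ' ∧ Good c l v' ∧
          ordV φ' v' (c z') + M + (k + 1) ≤ (zer φ' l).card + N'
      · obtain ⟨N', φ', v', z', hN', hφ', hv', hz'⟩ := hmore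
        have h1 := hle N' φ' hφ'
        have h2 := hze N' φ'
        obtain ⟨T, hT, hcard⟩ := ihd (d - 1) (by omega) (k + 1) N' (by omega) hN' φ' hφ' v' hv' z' hz'
        exact ⟨T, hT, by omega⟩
      · push Not at hmore
        -- the orders are at least `o`
        set o := ordV φ v (c z) with ho
        have hq : o + M + k = (zer φ l).card + N := by
          have := hmore N φ v z hN hφ hv
          omega
        have hmin : ∀ z', o ≤ ordV φ v (c z') := by
          intro z'
          have := hmore N φ v z' hN hφ hv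
          omega
        set T : Finset ι := Finset.univ.filter fun z' => ordV φ v (c z') = o with hT
        have hTo : ∀ z', z' ∈ T ↔ ordV φ v (c z') = o := by
          intro z'
          simp [hT]
        have hzT : z ∈ T := (hTo z).2 rfl
        -- the points of `T` are in the range of `φ`
        have hran : ∀ z' ∈ T, y z' ∈ LinearMap.range φ := by
          intro z' hz'
          by_contra hcon
          have h1 := hmore (N + 1) (addP φ (y z')) v z' (by omega) (addP_inj φ _ hφ hcon) hv
          have h2 := ord_addP φ l (y z') (c z') r (h.hom z') (h.flat z') v (hv.1 z') hv.2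
          rw [(hTo z').1 hz'] at h2
          omega
        have hex : ∀ z', ∃ w : Fin N → K, z' ∈ T → φ w = y z' := by
          intro z'
          by_cases hz' : z' ∈ T
          · obtain ⟨w, hw⟩ := hran z' hz'
            exact ⟨w, fun _ => hw⟩
          · exact ⟨0, fun h => absurd h hz'⟩
        choose y' hy' using hex
        obtain ⟨a, G, ha1, has, hnum, hne, hind, hG⟩ := f_sys hN y c l h φ hφ v hv o hmin T
          ⟨z, hzT⟩ hTo y' hy'
        have hak : a = k + 1 := by omega
        rcases Nat.lt_or_ge 2 N with hN3 | hN2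
        · -- descend
          obtain ⟨N', rfl⟩ : ∃ N', N = N' + 1 := ⟨N - 1, by omega⟩
          obtain ⟨ψ, v', hψ, hv', hψo⟩ := ord_sub φ l c r h.hom v hv z (by
            have hdeg := h.deg
            omega)
          exact ihN N' (by omega) (by omega) (φ ∘ₗ ψ) (hφ.comp hψ) v' hv' z (by omega)
        · obtain rfl : N = 2 := by omega
          have h1 := line_pts s a ha1 has T ⟨z, hzT⟩ y' _ hne hind G hG
          obtain ⟨hy0, hy2⟩ := ind_pairs s hs T y' hind
          refine ⟨T, ?_, by omega⟩
          have h2 : y '' (T : Set ι) = φ '' (y' '' (T : Set ι)) := by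
            ext w
            constructor
            · rintro ⟨z', hz', rfl⟩
              exact ⟨y' z', ⟨z', hz', rfl⟩, hy' z' hz'⟩
            · rintro ⟨_, ⟨z', hz', rfl⟩, rfl⟩
              exact ⟨z', hz', (hy' z' hz').symm⟩
          rw [h2, ← Submodule.map_span, ← (Submodule.equivMapOfInjective φ hφ _).finrank_eq]
          -- two points
          obtain ⟨z₁, hz₁, z₂, hz₂, hzz⟩ := Finset.one_lt_card.1 (by omega : 1 < T.card)
          have h3 : LinearIndependent K ![y' z₁, y' z₂] := by
            rw [LinearIndependent.pair_iff' (hy0 z₁ hz₁)]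
            exact fun e he => hy2 z₁ hz₁ z₂ hz₂ hzz e he.symm
          have h4 := finrank_span_eq_card h3
          apply le_antisymm
          · refine le_trans (Submodule.finrank_le _) ?_
            simp
          · have h5 : Submodule.span K (Set.range ![y' z₁, y' z₂]) ≤
                Submodule.span K (y' '' (T : Set ι)) := by
              rw [Submodule.span_le]
              rintro _ ⟨i, rfl⟩
              fin_cases i
              · exact Submodule.subset_span ⟨z₁, hz₁, rfl⟩
              · exact Submodule.subset_span ⟨z₂, hz₂, rfl⟩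
            have h6 := Submodule.finrank_mono h5
            rw [h4, Fintype.card_fin] at h6
            exact h6

/-- In dimension two: there is a line with at least `k + 3` points, or `range φ` contains at least `k + 2` points. -/
theorem q_ext_two [IsAlgClosed K] [CharZero K] [Fintype ι] (hs : 1 ≤ s) (y : ι → Fin M → K)
    (c : ι → MvPolynomial (Fin M) K) (l : Fin e → Fin M → K) (h : QSys s r e y c l)
    (k : ℕ) (φ : (Fin 2 → K) →ₗ[K] (Fin M → K)) (hφ : Function.Injective φ) (v : Fin M → K)
    (hv : Good c l v) (z : ι) (hz : ordV φ v (c z) + M + k ≤ (zer φ l).card + 2) :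
    (∃ T : Finset ι, Module.finrank K (Submodule.span K (y '' (T : Set ι))) = 2 ∧ k + 3 ≤ T.card) ∨
      ∃ T : Finset ι, (∀ z ∈ T, y z ∈ LinearMap.range φ) ∧ k + 2 ≤ T.card := by
  classical
  have hle : ∀ (N : ℕ) (φ : (Fin N → K) →ₗ[K] (Fin M → K)), Function.Injective φ → N ≤ M := by
    intro N φ hφ
    have := LinearMap.finrank_le_finrank_of_injective hφ
    simpa using this
  have hze : ∀ (N : ℕ) (φ : (Fin N → K) →ₗ[K] (Fin M → K)), (zer φ l).card ≤ e := by
    intro N φ
    have := Finset.card_le_univ (zer φ l)
    rwa [Fintype.card_fin] at this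
  by_cases hmore : ∃ (N' : ℕ) (φ' : (Fin N' → K) →ₗ[K] (Fin M → K)) (v' : Fin M → K) (z' : ι),
      2 ≤ N' ∧ Function.Injective φ' ∧ Good c l v' ∧
      ordV φ' v' (c z') + M + (k + 1) ≤ (zer φ' l).card + N'
  · obtain ⟨N', φ', v', z', hN', hφ', hv', hz'⟩ := hmore
    have h1 := hle N' φ' hφ'
    have h2 := hze N' φ'
    left
    exact q_ext hs y c l h (e - (k + 1)) (k + 1) N' (by omega) hN' φ' hφ' v' hv' z' hz'
  · push Not at hmore
    right
    set o := ordV φ v (c z) with ho
    have hq : o + M + k = (zer φ l).card + 2 := by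
      have := hmore 2 φ v z le_rfl hφ hv
      omega
    have hmin : ∀ z', o ≤ ordV φ v (c z') := by
      intro z'
      have := hmore 2 φ v z' le_rfl hφ hv
      omega
    set T : Finset ι := Finset.univ.filter fun z' => ordV φ v (c z') = o with hT
    have hTo : ∀ z', z' ∈ T ↔ ordV φ v (c z') = o := by
      intro z'
      simp [hT]
    have hzT : z ∈ T := (hTo z).2 rfl
    have hran : ∀ z' ∈ T, y z' ∈ LinearMap.range φ := by
      intro z' hz'
      by_contra hcon
      have h1 := hmore 3 (addP φ (y z')) v z' (by omega) (addP_inj φ _ hφ hcon) hv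
      have h2 := ord_addP φ l (y z') (c z') r (h.hom z') (h.flat z') v (hv.1 z') hv.2
      rw [(hTo z').1 hz'] at h2
      omega
    have hex : ∀ z', ∃ w : Fin 2 → K, z' ∈ T → φ w = y z' := by
      intro z'
      by_cases hz' : z' ∈ T
      · obtain ⟨w, hw⟩ := hran z' hz'
        exact ⟨w, fun _ => hw⟩
      · exact ⟨0, fun h => absurd h hz'⟩
    choose y' hy' using hex
    obtain ⟨a, G, ha1, has, hnum, hne, hind, hG⟩ := f_sys le_rfl y c l h φ hφ v hv o hmin T
      ⟨z, hzT⟩ hTo y' hy'
    have h1 := line_pts s a ha1 has T ⟨z, hzT⟩ y' _ hne hind G hG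
    exact ⟨T, hran, by omega⟩

end Geproci
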