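import Pool.Agent.Work.MP_efd9e3_ag.Fl.DirP

/-! MODULE Line (MP_efd9e3_ag/Co), helper69.  The restriction of a polynomial to the line `p + ε v`, as a polynomial
in `ε`, and the iterated derivative in the direction `v`. -/

set_option autoImplicit false

open MvPolynomial

namespace Geproci

variable {K : Type*} [Field K] {M : ℕ}

/-- `c (p + ε v)` as a polynomial in `ε` -/
noncomputable def line (p v : Fin M → K) : MvPolynomial (Fin M) K →ₐ[K] Polynomial K :=
  aeval fun k => Polynomial.C (p k) + Polynomial.C (v k) * Polynomial.X

/-- the iterated derivative in the direction `v` -/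
noncomputable def dv (v : Fin M → K) (m : ℕ) (c : MvPolynomial (Fin M) K) : MvPolynomial (Fin M) K :=
  (dirP v)^[m] c

theorem line_C (p v : Fin M → K) (a : K) : line p v (C a) = Polynomial.C a := by
  rw [line, aeval_C]; rfl

theorem line_X (p v : Fin M → K) (k : Fin M) :
    line p v (X k) = Polynomial.C (p k) + Polynomial.C (v k) * Polynomial.X := by
  rw [line, aeval_X]

theorem eval_line (p v : Fin M → K) (c : MvPolynomial (Fin M) K) (t : K) :
    (line p v c).eval t = eval (fun k => p k + t * v k) c := by
  induction c using MvPolynomial.induction_on with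
  | C a => rw [line_C, Polynomial.eval_C, eval_C]
  | add a b ha hb => rw [map_add, Polynomial.eval_add, ha, hb, map_add]
  | mul_X a k ha =>
    rw [map_mul, Polynomial.eval_mul, ha, map_mul, line_X, eval_X]
    simp only [Polynomial.eval_add, Polynomial.eval_C, Polynomial.eval_mul, Polynomial.eval_X]
    ring

theorem line_linf (p v l : Fin M → K) :
    line p v (linf l) = Polynomial.C (∑ k, l k * p k) + Polynomial.C (∑ k, l k * v k) * Polynomial.X := by
  rw [linf, map_sum]
  simp only [map_mul, line_C, line_X, map_sum, Finset.sum_mul, ← Finset.sum_add_distrib]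
  refine Finset.sum_congr rfl fun k _ => ?_
  ring

theorem derivative_line (p v : Fin M → K) (c : MvPolynomial (Fin M) K) :
    Polynomial.derivative (line p v c) = line p v (dirP v c) := by
  induction c using MvPolynomial.induction_on with
  | C a => rw [line_C, Polynomial.derivative_C, dirP_C, map_zero]
  | add a b ha hb => rw [map_add, Polynomial.derivative_add, ha, hb, dirP_add, map_add]
  | mul_X a k ha =>
    rw [map_mul, Polynomial.derivative_mul, ha, dirP_mul, map_add, map_mul, map_mul]
    congr 2
    have h1 : dirP v (X k : MvPolynomial (Fin M) K) = C (v k) := by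
      unfold dirP
      simp [pderiv_X, Pi.single_apply]
    rw [h1, line_C, line_X]
    simp

theorem dv_zero (v : Fin M → K) (c : MvPolynomial (Fin M) K) : dv v 0 c = c := rfl

theorem dv_succ (v : Fin M → K) (m : ℕ) (c : MvPolynomial (Fin M) K) :
    dv v (m+1) c = dirP v (dv v m c) := by
  rw [dv, dv, Function.iterate_succ_apply']

theorem iterate_derivative_line (p v : Fin M → K) (c : MvPolynomial (Fin M) K) (m : ℕ) :
    Polynomial.derivative^[m] (line p v c) = line p v (dv v m c) := by
  induction m with
  | zero => rfl
  | succ m ih => rw [Function.iterate_succ_apply', ih, derivative_line, dv_succ]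

theorem coeff_line (p v : Fin M → K) (c : MvPolynomial (Fin M) K) (m : ℕ) :
    (m.factorial : K) * (line p v c).coeff m = eval p (dv v m c) := by
  have h1 := Polynomial.coeff_iterate_derivative (p := line p v c) (k := m) 0
  rw [zero_add, Nat.descFactorial_self, nsmul_eq_mul] at h1
  rw [← h1, iterate_derivative_line, Polynomial.coeff_zero_eq_eval_zero, eval_line]
  simp

theorem dv_hom (v : Fin M → K) (c : MvPolynomial (Fin M) K) (r : ℕ) (hc : c.IsHomogeneous r) (m : ℕ) :
    (dv v m c).IsHomogeneous (r - m) := by
  induction m with
  | zero => exact hc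
  | succ m ih =>
    rw [dv_succ]
    have := dirP_hom v _ _ ih
    rwa [Nat.sub_sub] at this

theorem eval_smul_hom {q : MvPolynomial (Fin M) K} {t : ℕ} (hq : q.IsHomogeneous t)
    (a : K) (p : Fin M → K) : eval (fun k => a * p k) q = a ^ t * eval p q := by
  rw [eval_eq, eval_eq, Finset.mul_sum]
  refine Finset.sum_congr rfl fun d hd => ?_
  have hdeg : ∑ i ∈ d.support, d i = t := hq.degree_eq_sum_deg_support hd ▸ rfl
  have : ∏ i ∈ d.support, (a * p i) ^ d i = a ^ t * ∏ i ∈ d.support, p i ^ d i := by
    rw [← hdeg, ← Finset.prod_pow_eq_pow_sum, ← Finset.prod_mul_distrib]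
    refine Finset.prod_congr rfl fun i _ => ?_
    rw [mul_pow]
  rw [this]
  ring

/-- the line through the origin -/
theorem line_zero_left [Infinite K] (v : Fin M → K) (c : MvPolynomial (Fin M) K) (r : ℕ)
    (hc : c.IsHomogeneous r) : line 0 v c = Polynomial.C (eval v c) * Polynomial.X ^ r := by
  apply Polynomial.funext
  intro t
  rw [eval_line, Polynomial.eval_mul, Polynomial.eval_C, Polynomial.eval_pow, Polynomial.eval_X]
  have := eval_smul_hom hc t v
  simp only [Pi.zero_apply, zero_add]
  rw [this, mul_comm]

/-- change of the parameter on the line -/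
theorem line_shift [Infinite K] (p v : Fin M → K) (c : MvPolynomial (Fin M) K) (a b : K) :
    (line p v c).comp (Polynomial.C a + Polynomial.C b * Polynomial.X) =
      line (fun k => p k + a * v k) (fun k => b * v k) c := by
  apply Polynomial.funext
  intro t
  rw [Polynomial.eval_comp, eval_line, eval_line]
  simp only [Polynomial.eval_add, Polynomial.eval_C, Polynomial.eval_mul, Polynomial.eval_X]
  exact congrArg (fun f => eval f c) (funext fun k => by ring)

end Geproci
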