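import Pool.Agent.Work.MP_efd9e3_ag.Co.QDefs

/-! MODULE Ord (MP_efd9e3_ag/Co), helper69.  Orders along subspaces: basic facts. -/

set_option autoImplicit false

open MvPolynomial

namespace Geproci

variable {K : Type*} [Field K] {N M e : ℕ} {ι : Type*}

theorem ordV_lt (φ : (Fin N → K) →ₗ[K] (Fin M → K)) (v : Fin M → K) (c : MvPolynomial (Fin M) K)
    (m : ℕ) (hm : m < ordV φ v c) : compL φ (dv v m c) = 0 := by
  by_contra h
  exact Nat.notMem_of_lt_sInf hm h

theorem ordV_spec [CharZero K] (φ : (Fin N → K) →ₗ[K] (Fin M → K)) (v : Fin M → K)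
    (c : MvPolynomial (Fin M) K) (r : ℕ) (hc : c.IsHomogeneous r) (hv : eval v c ≠ 0) :
    compL φ (dv v (ordV φ v c) c) ≠ 0 ∧ ordV φ v c ≤ r := by
  have hinf : Infinite K := inferInstance
  have hr : r ∈ {m | compL φ (dv v m c) ≠ 0} := by
    intro h
    have h1 := congrArg (eval 0) h
    rw [eval_compL, map_zero, map_zero, ← coeff_line, line_zero_left v c r hc,
      Polynomial.coeff_C_mul, Polynomial.coeff_X_pow, if_pos rfl, mul_one] at h1
    exact mul_ne_zero (Nat.cast_ne_zero.2 (Nat.factorial_ne_zero r)) hv h1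
  exact ⟨Nat.sInf_mem ⟨r, hr⟩, Nat.sInf_le hr⟩

theorem coeff_line_lt [CharZero K] (φ : (Fin N → K) →ₗ[K] (Fin M → K)) (v : Fin M → K)
    (c : MvPolynomial (Fin M) K) (x : Fin N → K) (m : ℕ) (hm : m < ordV φ v c) :
    (line (φ x) v c).coeff m = 0 := by
  have h1 := coeff_line (φ x) v c m
  rw [← eval_compL, ordV_lt φ v c m hm, map_zero] at h1
  exact (mul_eq_zero.1 h1).resolve_left (Nat.cast_ne_zero.2 (Nat.factorial_ne_zero m))

theorem X_pow_dvd_line [CharZero K] (φ : (Fin N → K) →ₗ[K] (Fin M → K)) (v : Fin M → K)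
    (c : MvPolynomial (Fin M) K) (x : Fin N → K) (m : ℕ) (hm : m ≤ ordV φ v c) :
    Polynomial.X ^ m ∣ line (φ x) v c := by
  rw [Polynomial.X_pow_dvd_iff]
  intro d hd
  exact coeff_line_lt φ v c x d (by omega)

theorem ordV_le_of_coeff [CharZero K] (φ : (Fin N → K) →ₗ[K] (Fin M → K)) (v : Fin M → K)
    (c : MvPolynomial (Fin M) K) (x : Fin N → K) (m : ℕ) (hm : (line (φ x) v c).coeff m ≠ 0) :
    ordV φ v c ≤ m := by
  by_contra h
  exact hm (coeff_line_lt φ v c x m (by omega))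

/-- the lowest coefficient of a product -/
theorem coeff_mul_low {R : Type*} [CommRing R] (f g : Polynomial R) (a b : ℕ)
    (hf : Polynomial.X ^ a ∣ f) (hg : Polynomial.X ^ b ∣ g) :
    (f * g).coeff (a + b) = f.coeff a * g.coeff b := by
  obtain ⟨f', rfl⟩ := hf
  obtain ⟨g', rfl⟩ := hg
  have h1 : Polynomial.X ^ a * f' * (Polynomial.X ^ b * g') = Polynomial.X ^ (a + b) * (f' * g') := by
    rw [pow_add]; ring
  have h2 : ∀ (k : ℕ) (h : Polynomial R), (Polynomial.X ^ k * h).coeff k = h.coeff 0 := by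
    intro k h
    have := Polynomial.coeff_X_pow_mul h k 0
    rwa [zero_add] at this
  rw [h1, h2, h2, h2, Polynomial.mul_coeff_zero]

theorem line_prodL (p v : Fin M → K) (l : Fin e → Fin M → K) :
    line p v (prodL l) = ∏ j, (Polynomial.C (∑ k, l j k * p k) +
      Polynomial.C (∑ k, l j k * v k) * Polynomial.X) := by
  rw [prodL, map_prod]
  exact Finset.prod_congr rfl fun j _ => line_linf p v (l j)

open Classical in
/-- the lowest term of the product of the linear forms on a line -/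
theorem line_prodL_low (p v : Fin M → K) (l : Fin e → Fin M → K) (hv : ∀ j, ∑ k, l j k * v k ≠ 0) :
    Polynomial.X ^ (Finset.univ.filter fun j => ∑ k, l j k * p k = 0).card ∣ line p v (prodL l) ∧
    (line p v (prodL l)).coeff (Finset.univ.filter fun j => ∑ k, l j k * p k = 0).card ≠ 0 := by
  set S := Finset.univ.filter fun j => ∑ k, l j k * p k = 0 with hS
  have h1 : line p v (prodL l) = Polynomial.X ^ S.card * (Polynomial.C (∏ j ∈ S, ∑ k, l j k * v k) *
      ∏ j ∈ Sᶜ, (Polynomial.C (∑ k, l j k * p k) +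
      Polynomial.C (∑ k, l j k * v k) * Polynomial.X)) := by
    rw [line_prodL, ← Finset.prod_mul_prod_compl S, ← mul_assoc]
    congr 1
    rw [map_prod, mul_comm, ← Finset.prod_const, ← Finset.prod_mul_distrib]
    refine Finset.prod_congr rfl fun j hj => ?_
    rw [hS, Finset.mem_filter] at hj
    rw [hj.2, map_zero, zero_add]
  refine ⟨⟨_, h1⟩, ?_⟩
  rw [h1]
  have h2 : ∀ (k : ℕ) (h : Polynomial K), (Polynomial.X ^ k * h).coeff k = h.coeff 0 := by
    intro k h
    have := Polynomial.coeff_X_pow_mul h k 0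
    rwa [zero_add] at this
  rw [h2, Polynomial.mul_coeff_zero, Polynomial.coeff_C_zero, Polynomial.coeff_zero_prod]
  refine mul_ne_zero (Finset.prod_ne_zero_iff.2 fun j _ => hv j) (Finset.prod_ne_zero_iff.2 fun j hj => ?_)
  rw [Finset.mem_compl, hS, Finset.mem_filter, not_and] at hj
  simpa using hj (Finset.mem_univ j)

theorem X_pow_zer_dvd (φ : (Fin N → K) →ₗ[K] (Fin M → K)) (v : Fin M → K) (l : Fin e → Fin M → K)
    (hv : ∀ j, ∑ k, l j k * v k ≠ 0) (x : Fin N → K) :
    Polynomial.X ^ (zer φ l).card ∣ line (φ x) v (prodL l) := by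
  classical
  refine dvd_trans (pow_dvd_pow _ ?_) (line_prodL_low (φ x) v l hv).1
  refine Finset.card_le_card fun j hj => ?_
  rw [mem_zer] at hj
  rw [Finset.mem_filter]
  exact ⟨Finset.mem_univ _, hj x⟩

/-- a vector at which the linear forms do not vanish unless they vanish on `range φ` -/
theorem exists_generic [Infinite K] (φ : (Fin N → K) →ₗ[K] (Fin M → K)) (l : Fin e → Fin M → K)
    (g : MvPolynomial (Fin N) K) (hg : g ≠ 0) :
    ∃ x : Fin N → K, eval x g ≠ 0 ∧ ∀ j, j ∉ zer φ l → ∑ k, l j k * φ x k ≠ 0 := by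
  classical
  have h1 : ∀ j, j ∉ zer φ l → compL φ (linf (l j)) ≠ 0 := by
    intro j hj h
    apply hj
    rw [mem_zer]
    intro x
    rw [← eval_linf, ← eval_compL, h, map_zero]
  have h2 : g * ∏ j ∈ (zer φ l)ᶜ, compL φ (linf (l j)) ≠ 0 := by
    refine mul_ne_zero hg (Finset.prod_ne_zero_iff.2 fun j hj => h1 j (Finset.mem_compl.1 hj))
  obtain ⟨x, hx⟩ : ∃ x, eval x (g * ∏ j ∈ (zer φ l)ᶜ, compL φ (linf (l j))) ≠ 0 := by
    by_contra hcon
    push Not at hcon
    exact h2 (MvPolynomial.funext fun x => by rw [hcon x, map_zero])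
  rw [map_mul, map_prod] at hx
  refine ⟨x, left_ne_zero_of_mul hx, fun j hj => ?_⟩
  have h3 := (Finset.prod_ne_zero_iff.1 (right_ne_zero_of_mul hx)) j (Finset.mem_compl.2 hj)
  rwa [eval_compL, eval_linf] at h3

theorem coeff_zer_ne (φ : (Fin N → K) →ₗ[K] (Fin M → K)) (v : Fin M → K) (l : Fin e → Fin M → K)
    (hv : ∀ j, ∑ k, l j k * v k ≠ 0) (x : Fin N → K)
    (hx : ∀ j, j ∉ zer φ l → ∑ k, l j k * φ x k ≠ 0) :
    (line (φ x) v (prodL l)).coeff (zer φ l).card ≠ 0 := by
  classical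
  have h1 : (zer φ l) = Finset.univ.filter fun j => ∑ k, l j k * φ x k = 0 := by
    ext j
    rw [Finset.mem_filter]
    constructor
    · intro hj
      rw [mem_zer] at hj
      exact ⟨Finset.mem_univ _, hj x⟩
    · rintro ⟨-, hj⟩
      by_contra hcon
      exact hx j hcon hj
  rw [h1]
  exact (line_prodL_low (φ x) v l hv).2

end Geproci
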